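import Pool.Agent.H.MP_b2d7dd_lc.TI.Defs

/-!
# Module Terms: decoupled values, bounds

`t.ev a b` is the value of `t` when the variables inside exponents get the values `b` and all the
others the values `a`.
-/

namespace Pool.Agent.TI

/-- The exponents contain no exponentiation. -/
def Tm.EF : Tm → Prop
  | .one => True
  | .var _ => True
  | .add s t => s.EF ∧ t.EF
  | .mul s t => s.EF ∧ t.EF
  | .pow s t => s.EF ∧ t.ExpFree

/-- Decoupled value. -/
def Tm.ev (a b : List Bool → ℕ) : Tm → ℕ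
  | .one => 1
  | .var w => a w
  | .add s t => s.ev a b + t.ev a b
  | .mul s t => s.ev a b * t.ev a b
  | .pow s t => s.ev a b ^ t.val b

/-- The variables, in the order of their occurrences. -/
def Tm.vars : Tm → List (List Bool)
  | .one => []
  | .var w => [w]
  | .add s t => s.vars ++ t.vars
  | .mul s t => s.vars ++ t.vars
  | .pow s t => s.vars ++ t.vars

/-- The number of symbols, a variable being one symbol. -/
def Tm.sz : Tm → ℕ
  | .one => 1
  | .var _ => 1
  | .add s t => s.sz + t.sz + 1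
  | .mul s t => s.sz + t.sz + 1
  | .pow s t => s.sz + t.sz + 1

theorem Tm.sz_pos (t : Tm) : 1 ≤ t.sz := by
  cases t <;> simp only [Tm.sz] <;> omega

theorem Tm.ExpFree.base {t : Tm} (h : t.ExpFree) : t.Base := by
  induction t with
  | one => trivial
  | var w => trivial
  | add s t _ _ => exact h
  | mul s t ihs iht => exact ⟨ihs h.1, iht h.2⟩
  | pow s t _ _ => exact h.elim

theorem Tm.Base.tame {t : Tm} (h : t.Base) : t.Tame := by
  induction t with
  | one => trivial
  | var w => trivial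
  | add s t ihs iht => exact ⟨ihs h.1.base, iht h.2.base⟩
  | mul s t ihs iht => exact ⟨ihs h.1, iht h.2⟩
  | pow s t _ _ => exact h

theorem Tm.Tame.ef {t : Tm} (h : t.Tame) : t.EF := by
  induction t with
  | one => trivial
  | var w => trivial
  | add s t ihs iht => exact ⟨ihs h.1, iht h.2⟩
  | mul s t ihs iht => exact ⟨ihs h.1, iht h.2⟩
  | pow s t ihs _ => exact ⟨ihs h.1.tame, h.2⟩

theorem Tm.val_eq_ev (x : List Bool → ℕ) (t : Tm) : t.val x = t.ev x x := by
  induction t with
  | one => rfl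
  | var w => rfl
  | add s t ihs iht =>
    show s.val x + t.val x = s.ev x x + t.ev x x
    rw [ihs, iht]
  | mul s t ihs iht =>
    show s.val x * t.val x = s.ev x x * t.ev x x
    rw [ihs, iht]
  | pow s t ihs _ =>
    show s.val x ^ t.val x = s.ev x x ^ t.val x
    rw [ihs]

theorem Tm.ev_expFree (a b : List Bool → ℕ) {t : Tm} (h : t.ExpFree) : t.ev a b = t.val a := by
  induction t with
  | one => rfl
  | var w => rfl
  | add s t ihs iht =>
    show s.ev a b + t.ev a b = s.val a + t.val a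
    rw [ihs h.1, iht h.2]
  | mul s t ihs iht =>
    show s.ev a b * t.ev a b = s.val a * t.val a
    rw [ihs h.1, iht h.2]
  | pow s t _ _ => exact h.elim

theorem Tm.val_pos {x : List Bool → ℕ} (hx : ∀ w, 0 < x w) (t : Tm) : 0 < t.val x := by
  induction t with
  | one => exact Nat.one_pos
  | var w => exact hx w
  | add s t ihs _ => exact Nat.add_pos_left ihs _
  | mul s t ihs iht => exact Nat.mul_pos ihs iht
  | pow s t ihs _ => exact Nat.pow_pos ihs

theorem Tm.ev_pos {a : List Bool → ℕ} (ha : ∀ w, 0 < a w) (b : List Bool → ℕ) (t : Tm) :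
    0 < t.ev a b := by
  induction t with
  | one => exact Nat.one_pos
  | var w => exact ha w
  | add s t ihs _ => exact Nat.add_pos_left ihs _
  | mul s t ihs iht => exact Nat.mul_pos ihs iht
  | pow s t ihs _ => exact Nat.pow_pos ihs

theorem Tm.val_congr {x x' : List Bool → ℕ} {t : Tm} (h : ∀ w ∈ t.vars, x w = x' w) :
    t.val x = t.val x' := by
  induction t with
  | one => rfl
  | var w => exact h w (List.mem_singleton_self w)
  | add s t ihs iht =>
    show s.val x + t.val x = s.val x' + t.val x'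
    rw [ihs fun w hw => h w (List.mem_append_left _ hw),
      iht fun w hw => h w (List.mem_append_right _ hw)]
  | mul s t ihs iht =>
    show s.val x * t.val x = s.val x' * t.val x'
    rw [ihs fun w hw => h w (List.mem_append_left _ hw),
      iht fun w hw => h w (List.mem_append_right _ hw)]
  | pow s t ihs iht =>
    show s.val x ^ t.val x = s.val x' ^ t.val x'
    rw [ihs fun w hw => h w (List.mem_append_left _ hw),
      iht fun w hw => h w (List.mem_append_right _ hw)]

theorem Tm.ev_congr {a a' b b' : List Bool → ℕ} {t : Tm} (ha : ∀ w ∈ t.vars, a w = a' w)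
    (hb : ∀ w ∈ t.vars, b w = b' w) : t.ev a b = t.ev a' b' := by
  induction t with
  | one => rfl
  | var w => exact ha w (List.mem_singleton_self w)
  | add s t ihs iht =>
    show s.ev a b + t.ev a b = s.ev a' b' + t.ev a' b'
    rw [ihs (fun w hw => ha w (List.mem_append_left _ hw))
        fun w hw => hb w (List.mem_append_left _ hw),
      iht (fun w hw => ha w (List.mem_append_right _ hw))
        fun w hw => hb w (List.mem_append_right _ hw)]
  | mul s t ihs iht =>
    show s.ev a b * t.ev a b = s.ev a' b' * t.ev a' b'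
    rw [ihs (fun w hw => ha w (List.mem_append_left _ hw))
        fun w hw => hb w (List.mem_append_left _ hw),
      iht (fun w hw => ha w (List.mem_append_right _ hw))
        fun w hw => hb w (List.mem_append_right _ hw)]
  | pow s t ihs _ =>
    show s.ev a b ^ t.val b = s.ev a' b' ^ t.val b'
    rw [ihs (fun w hw => ha w (List.mem_append_left _ hw))
        fun w hw => hb w (List.mem_append_left _ hw),
      Tm.val_congr fun w hw => hb w (List.mem_append_right _ hw)]

theorem Tm.val_le {b : List Bool → ℕ} {B : ℕ} (hB : 2 ≤ B) (hb : ∀ w, b w ≤ B) {t : Tm}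
    (ht : t.ExpFree) : t.val b ≤ B ^ t.sz := by
  have hB0 : 0 < B := by omega
  induction t with
  | one => exact Nat.one_le_pow _ _ hB0
  | var w =>
    show b w ≤ B ^ 1
    rw [pow_one]
    exact hb w
  | add s t ihs iht =>
    show s.val b + t.val b ≤ B ^ (s.sz + t.sz + 1)
    have h1 := ihs ht.1
    have h2 := iht ht.2
    have h3 : B ^ s.sz ≤ B ^ (s.sz + t.sz) := Nat.pow_le_pow_right hB0 (Nat.le_add_right _ _)
    have h4 : B ^ t.sz ≤ B ^ (s.sz + t.sz) := Nat.pow_le_pow_right hB0 (Nat.le_add_left _ _)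
    have h5 : B ^ (s.sz + t.sz) * 2 ≤ B ^ (s.sz + t.sz) * B := Nat.mul_le_mul_left _ hB
    rw [pow_succ]
    omega
  | mul s t ihs iht =>
    show s.val b * t.val b ≤ B ^ (s.sz + t.sz + 1)
    calc s.val b * t.val b ≤ B ^ s.sz * B ^ t.sz := Nat.mul_le_mul (ihs ht.1) (iht ht.2)
      _ = B ^ (s.sz + t.sz) := (pow_add _ _ _).symm
      _ ≤ B ^ (s.sz + t.sz + 1) := Nat.pow_le_pow_right hB0 (Nat.le_succ _)
  | pow s t _ _ => exact ht.elim

private theorem Terms_exp {q B s t : ℕ} (hB0 : 0 < B) :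
    (q + 1) * s * B ^ s + (q + 1) * t * B ^ t + 1 ≤ (q + 1) * (s + t + 1) * B ^ (s + t + 1) := by
  have h1 : B ^ s ≤ B ^ (s + t + 1) := Nat.pow_le_pow_right hB0 (by omega)
  have h2 : B ^ t ≤ B ^ (s + t + 1) := Nat.pow_le_pow_right hB0 (by omega)
  have h3 : 1 ≤ (q + 1) * B ^ (s + t + 1) := Nat.mul_pos (Nat.succ_pos q) (Nat.pow_pos hB0)
  have h4 : (q + 1) * s * B ^ s ≤ (q + 1) * s * B ^ (s + t + 1) := Nat.mul_le_mul_left _ h1
  have h5 : (q + 1) * t * B ^ t ≤ (q + 1) * t * B ^ (s + t + 1) := Nat.mul_le_mul_left _ h2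
  have h6 : (q + 1) * (s + t + 1) * B ^ (s + t + 1) = (q + 1) * s * B ^ (s + t + 1) +
      (q + 1) * t * B ^ (s + t + 1) + (q + 1) * B ^ (s + t + 1) := by ring
  omega

/-- Induction: for a power, `(q + 1) |s| B ^ |s| * B ^ |t| ≤ (q + 1) |s^t| B ^ |s^t|`. -/
theorem Tm.ev_le {a b : List Bool → ℕ} {q B : ℕ} (hB : 2 ≤ B) (ha : ∀ w, a w ≤ 2 ^ q)
    (hb : ∀ w, b w ≤ B) {t : Tm} (ht : t.EF) :
    t.ev a b ≤ 2 ^ ((q + 1) * t.sz * B ^ t.sz) := by
  have hB0 : 0 < B := by omega
  induction t with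
  | one => exact Nat.one_le_two_pow
  | var w =>
    refine (ha w).trans (Nat.pow_le_pow_right (by norm_num) ?_)
    show q ≤ (q + 1) * 1 * B ^ 1
    rw [mul_one, pow_one]
    calc q ≤ (q + 1) * 1 := by omega
      _ ≤ (q + 1) * B := Nat.mul_le_mul_left _ hB0
  | add s t ihs iht =>
    show s.ev a b + t.ev a b ≤ 2 ^ ((q + 1) * (s.sz + t.sz + 1) * B ^ (s.sz + t.sz + 1))
    have h1 := ihs ht.1
    have h2 := iht ht.2
    have h3 : 2 ^ ((q + 1) * s.sz * B ^ s.sz) ≤
        2 ^ ((q + 1) * s.sz * B ^ s.sz + (q + 1) * t.sz * B ^ t.sz) :=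
      Nat.pow_le_pow_right (by norm_num) (Nat.le_add_right _ _)
    have h4 : 2 ^ ((q + 1) * t.sz * B ^ t.sz) ≤
        2 ^ ((q + 1) * s.sz * B ^ s.sz + (q + 1) * t.sz * B ^ t.sz) :=
      Nat.pow_le_pow_right (by norm_num) (Nat.le_add_left _ _)
    refine le_trans ?_ (Nat.pow_le_pow_right (by norm_num) (Terms_exp (q := q) (s := s.sz)
      (t := t.sz) hB0))
    rw [pow_succ]
    omega
  | mul s t ihs iht =>
    show s.ev a b * t.ev a b ≤ 2 ^ ((q + 1) * (s.sz + t.sz + 1) * B ^ (s.sz + t.sz + 1))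
    refine (Nat.mul_le_mul (ihs ht.1) (iht ht.2)).trans ?_
    rw [← pow_add]
    refine Nat.pow_le_pow_right (by norm_num) ?_
    have := Terms_exp (q := q) (s := s.sz) (t := t.sz) hB0
    omega
  | pow s t ihs _ =>
    show s.ev a b ^ t.val b ≤ 2 ^ ((q + 1) * (s.sz + t.sz + 1) * B ^ (s.sz + t.sz + 1))
    have h1 := ihs ht.1
    have h2 := Tm.val_le hB hb ht.2
    calc s.ev a b ^ t.val b ≤ (2 ^ ((q + 1) * s.sz * B ^ s.sz)) ^ t.val b :=
          Nat.pow_le_pow_left h1 _
      _ ≤ (2 ^ ((q + 1) * s.sz * B ^ s.sz)) ^ B ^ t.sz :=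
          Nat.pow_le_pow_right (Nat.pow_pos (by norm_num)) h2
      _ = 2 ^ ((q + 1) * s.sz * B ^ s.sz * B ^ t.sz) := (pow_mul _ _ _).symm
      _ ≤ _ := Nat.pow_le_pow_right (by norm_num) ?_
    calc (q + 1) * s.sz * B ^ s.sz * B ^ t.sz = (q + 1) * s.sz * B ^ (s.sz + t.sz) := by
          rw [mul_assoc, ← pow_add]
      _ ≤ (q + 1) * (s.sz + t.sz + 1) * B ^ (s.sz + t.sz + 1) :=
          Nat.mul_le_mul (Nat.mul_le_mul_left _ (by omega))
            (Nat.pow_le_pow_right hB0 (Nat.le_succ _))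

end Pool.Agent.TI
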