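import Pool.Agent.H.MP_b2d7dd_lc.TI.Defs

/-!
# Module Read: unique readability
-/

namespace Pool.Agent.TI

/-- The code of a term does not begin with a digit. -/
theorem code_ne (t : Tm) (b : Bool) (l u : List Bool) : t.code ++ u ≠ true :: true :: b :: l := by
  cases t <;> simp [Tm.code]

private theorem read_digits (w : List Bool) : ∀ (w' u u' : List Bool),
    (∀ (b : Bool) (l : List Bool), u ≠ true :: true :: b :: l) →
    (∀ (b : Bool) (l : List Bool), u' ≠ true :: true :: b :: l) →
    w.flatMap (fun b => [true, true, b]) ++ u = w'.flatMap (fun b => [true, true, b]) ++ u' →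
    w = w' ∧ u = u' := by
  induction w with
  | nil =>
    intro w' u u' hu hu' h
    cases w' with
    | nil => exact ⟨rfl, by simpa using h⟩
    | cons b w' =>
      exfalso
      refine hu b (w'.flatMap (fun b => [true, true, b]) ++ u') ?_
      simpa using h
  | cons a w ih =>
    intro w' u u' hu hu' h
    cases w' with
    | nil =>
      exfalso
      refine hu' a (w.flatMap (fun b => [true, true, b]) ++ u) ?_
      simpa using h.symm
    | cons b w' =>
      simp only [List.flatMap_cons, List.cons_append, List.nil_append, List.cons.injEq,
        true_and] at h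
      obtain ⟨h1, h2⟩ := h
      obtain ⟨h3, h4⟩ := ih w' u u' hu hu' h2
      exact ⟨by rw [h1, h3], h4⟩

/-- Unique readability, one term: what follows the first code does not begin with a digit. -/
theorem code_append_inj {s s' : Tm} {u u' : List Bool}
    (hu : ∀ (b : Bool) (l : List Bool), u ≠ true :: true :: b :: l)
    (hu' : ∀ (b : Bool) (l : List Bool), u' ≠ true :: true :: b :: l)
    (h : s.code ++ u = s'.code ++ u') : s = s' ∧ u = u' := by
  induction s generalizing s' u u' with
  | one =>
    cases s' <;> simp [Tm.code] at h
    exact ⟨rfl, h⟩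
  | var w =>
    cases s' with
    | var w' =>
      simp only [Tm.code, List.cons_append, List.nil_append, List.cons.injEq, true_and] at h
      obtain ⟨h1, h2⟩ := read_digits w w' u u' hu hu' h
      exact ⟨by rw [h1], h2⟩
    | one => simp [Tm.code] at h
    | add _ _ => simp [Tm.code] at h
    | mul _ _ => simp [Tm.code] at h
    | pow _ _ => simp [Tm.code] at h
  | add a b iha ihb =>
    cases s' with
    | add a' b' =>
      simp only [Tm.code, List.cons_append, List.nil_append, List.cons.injEq, true_and,
        List.append_assoc] at h
      obtain ⟨h1, h2⟩ := iha (fun c l => code_ne b c l u) (fun c l => code_ne b' c l u') h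
      obtain ⟨h3, h4⟩ := ihb hu hu' h2
      exact ⟨by rw [h1, h3], h4⟩
    | one => simp [Tm.code] at h
    | var _ => simp [Tm.code] at h
    | mul _ _ => simp [Tm.code] at h
    | pow _ _ => simp [Tm.code] at h
  | mul a b iha ihb =>
    cases s' with
    | mul a' b' =>
      simp only [Tm.code, List.cons_append, List.nil_append, List.cons.injEq, true_and,
        List.append_assoc] at h
      obtain ⟨h1, h2⟩ := iha (fun c l => code_ne b c l u) (fun c l => code_ne b' c l u') h
      obtain ⟨h3, h4⟩ := ihb hu hu' h2
      exact ⟨by rw [h1, h3], h4⟩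
    | one => simp [Tm.code] at h
    | var _ => simp [Tm.code] at h
    | add _ _ => simp [Tm.code] at h
    | pow _ _ => simp [Tm.code] at h
  | pow a b iha ihb =>
    cases s' with
    | pow a' b' =>
      simp only [Tm.code, List.cons_append, List.nil_append, List.cons.injEq, true_and,
        List.append_assoc] at h
      obtain ⟨h1, h2⟩ := iha (fun c l => code_ne b c l u) (fun c l => code_ne b' c l u') h
      obtain ⟨h3, h4⟩ := ihb hu hu' h2
      exact ⟨by rw [h1, h3], h4⟩
    | one => simp [Tm.code] at h
    | var _ => simp [Tm.code] at h
    | add _ _ => simp [Tm.code] at h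
    | mul _ _ => simp [Tm.code] at h

/-- Unique readability. -/
theorem code_inj : Function.Injective (fun p : Tm × Tm => p.1.code ++ p.2.code) := by
  rintro ⟨s, t⟩ ⟨s', t'⟩ h
  have h' : s.code ++ t.code = s'.code ++ t'.code := h
  have e1 : ∀ (b : Bool) (l : List Bool), t.code ≠ true :: true :: b :: l := fun b l => by
    have := code_ne t b l []
    rwa [List.append_nil] at this
  have e2 : ∀ (b : Bool) (l : List Bool), t'.code ≠ true :: true :: b :: l := fun b l => by
    have := code_ne t' b l []
    rwa [List.append_nil] at this
  obtain ⟨h1, h2⟩ := code_append_inj e1 e2 h'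
  have h3 : t.code ++ [] = t'.code ++ [] := by rw [h2]
  obtain ⟨h4, -⟩ := code_append_inj (by simp) (by simp) h3
  rw [h1, h4]

end Pool.Agent.TI
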