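import Pool.Agent.H.MP_5be563_lc.PT.Arith

/-!
# Module Ar: binary arithmetic modulo `bval m + 1`

Binary numbers are lists of bits, least significant bit first, with value `bval` (library PT:
`badd`, `bmul`, `ble`, `Poly.foldr`, `Poly.badd`, ...). All the functions below are written so that
the lengths are bounded for all inputs.

`btrim` removes the leading zeros. `bcomp k m` is the complement of `m` (padded to length `k`).
`bsub y m = y - m` for `m ≤ y`: `y + (2 ^ k - 1 - m) + 1 = 2 ^ k + (y - m)`, take `k` bits.
`bmod a m`: long division by `bval m + 1`, from the most significant bit of `a`: the remainder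
`r` becomes `2 r + b`, minus the modulus if this is possible.
`bpw r e m`: repeated squaring.
For the polynomial bounds of the `foldr`s: every intermediate list is an output of `btrim`
(`bmod`) resp. of `bmod` (`bpw`), of length at most `m.length + 2`.
-/

namespace Pool.Agent.TI

open Pool.Agent.H.MP_5be563_lc.PT

variable {α : Type} [Enc α]

/-- Remove the leading zeros. -/
def btrim (l : List Bool) : List Bool :=
  l.foldr (fun b r => bif b || !r.isEmpty then b :: r else []) []

private theorem Ar_btrim_cons (b : Bool) (l : List Bool) :
    btrim (b :: l) = bif b || !(btrim l).isEmpty then b :: btrim l else [] := rfl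

private theorem Ar_bval_lt (l : List Bool) : bval l < 2 ^ l.length := by
  induction l with
  | nil => simp
  | cons b l ih =>
    rw [bval_cons, List.length_cons, pow_succ]
    have := Bool.toNat_le b
    omega

theorem bval_btrim (l : List Bool) : bval (btrim l) = bval l := by
  induction l with
  | nil => rfl
  | cons b l ih =>
    rw [Ar_btrim_cons]
    cases b
    · cases h : btrim l with
      | nil =>
        rw [h] at ih
        simp only [bval_nil] at ih
        simp [← ih]
      | cons c r =>
        rw [h] at ih
        simp [← ih]
    · simp [ih]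

theorem length_btrim_le {l : List Bool} {k : ℕ} (h : bval l < 2 ^ k) :
    (btrim l).length ≤ k := by
  induction l generalizing k with
  | nil => simp [btrim]
  | cons b l ih =>
    rw [Ar_btrim_cons]
    rw [bval_cons] at h
    cases k with
    | zero =>
      have h1 : bval l < 2 ^ 0 := by
        rw [pow_zero] at h ⊢
        omega
      have h2 := ih h1
      have h3 : btrim l = [] := List.length_eq_zero_iff.1 (by omega)
      have h4 : b = false := by
        cases b
        · rfl
        · simp at h
      rw [h3, h4]
      simp
    | succ k =>
      have h1 : bval l < 2 ^ k := by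
        rw [pow_succ] at h
        omega
      have h2 := ih h1
      cases (b || !(btrim l).isEmpty)
      · simp
      · simp only [cond_true, List.length_cons]
        omega

theorem length_btrim_le' (l : List Bool) : (btrim l).length ≤ l.length :=
  length_btrim_le (Ar_bval_lt l)

@[fun_prop]
theorem Poly.btrim {f : α → List Bool} (hf : Poly f) : Poly (fun a => btrim (f a)) := by
  have := H.MP_5be563_lc.PT.Poly.foldr (f := fun p : α × List Bool × Bool =>
      bif p.2.2 || !p.2.1.isEmpty then p.2.2 :: p.2.1 else [])
    (l := f) (s0 := fun _ => []) (B := fun a => 4 * sz (f a) + 1)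
    (by fun_prop) hf (by fun_prop) (((PBdd.const 4).mul hf.sz_le).add (PBdd.const 1)) (by
      intro a l₁ l₂ h
      have h1 := length_btrim_le' l₂
      have h2 := (sz_bool_list (TI.btrim l₂)).2
      have h3 : sz l₂ ≤ sz (f a) := by rw [h]; exact sz_sublist_le (List.sublist_append_right _ _)
      have h4 := (sz_bool_list l₂).1
      change sz (TI.btrim l₂) ≤ _
      omega)
  exact this

/-- The complement of `m` with respect to `k` bits. -/
def bcomp (k : ℕ) (m : List Bool) : List Bool :=
  ((m ++ List.replicate k false).take k).map not

theorem bval_lt (l : List Bool) : bval l < 2 ^ l.length := Ar_bval_lt l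

theorem bval_take (k : ℕ) (l : List Bool) : bval (l.take k) = bval l % 2 ^ k := by
  induction l generalizing k with
  | nil => simp
  | cons b l ih =>
    cases k with
    | zero => simp [Nat.mod_one]
    | succ k =>
      rw [List.take_succ_cons, bval_cons, bval_cons, ih, pow_succ', Nat.mod_mul]
      have h := Bool.toNat_le b
      have h1 : (b.toNat + 2 * bval l) % 2 = b.toNat := by omega
      have h2 : (b.toNat + 2 * bval l) / 2 = bval l := by omega
      rw [h1, h2]

private theorem Ar_bval_not (l : List Bool) : bval (l.map not) + bval l + 1 = 2 ^ l.length := by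
  induction l with
  | nil => simp
  | cons b l ih =>
    rw [List.map_cons, bval_cons, bval_cons, List.length_cons, pow_succ, ← ih]
    cases b <;> simp <;> omega

private theorem Ar_bval_rep (k : ℕ) : bval (List.replicate k false) = 0 := by
  induction k with
  | zero => rfl
  | succ k ih => rw [List.replicate_succ, bval_cons, ih]; rfl

theorem bval_bcomp {k : ℕ} {m : List Bool} (h : m.length ≤ k) :
    bval (bcomp k m) + bval m + 1 = 2 ^ k := by
  have h1 := Ar_bval_not ((m ++ List.replicate k false).take k)
  have h2 : ((m ++ List.replicate k false).take k).length = k := by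
    rw [List.length_take, List.length_append, List.length_replicate]
    omega
  have h3 : bval ((m ++ List.replicate k false).take k) = bval m := by
    rw [bval_take, bval_append, Ar_bval_rep, mul_zero, add_zero]
    exact Nat.mod_eq_of_lt ((bval_lt m).trans_le (Nat.pow_le_pow_right (by norm_num) h))
  rw [h2, h3] at h1
  exact h1

/-- Subtraction. -/
def bsub (y m : List Bool) : List Bool :=
  (badd (badd y (bcomp (y.length + m.length) m)) [true]).take (y.length + m.length)

theorem bval_bsub {y m : List Bool} (h : bval m ≤ bval y) :
    bval (bsub y m) = bval y - bval m := by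
  have h1 := bval_bcomp (k := y.length + m.length) (m := m) (by omega)
  have h2 : bval y < 2 ^ (y.length + m.length) :=
    (bval_lt y).trans_le (Nat.pow_le_pow_right (by norm_num) (by omega))
  have h3 : bval [true] = 1 := rfl
  rw [bsub, bval_take, bval_badd, bval_badd, h3]
  have h4 : bval y + bval (bcomp (y.length + m.length) m) + 1 =
      (bval y - bval m) + 2 ^ (y.length + m.length) := by omega
  rw [h4, Nat.add_mod_right]
  exact Nat.mod_eq_of_lt (by omega)

private theorem Ar_poly_rep {n : α → ℕ} (hn : Poly n) :
    Poly (fun a => List.replicate (n a) false) := by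
  have h : Poly (fun a => (List.replicate (n a) ()).map (fun _ => false)) := by fun_prop
  simpa [List.map_replicate] using h

@[fun_prop]
theorem Poly.bsub {f g : α → List Bool} (hf : Poly f) (hg : Poly g) :
    Poly (fun a => bsub (f a) (g a)) := by
  have h1 : Poly (fun a => List.replicate ((f a).length + (g a).length) false) :=
    Ar_poly_rep (by fun_prop)
  unfold TI.bsub TI.bcomp
  fun_prop

/-- The remainder modulo `bval m + 1`. -/
def bmod (a m : List Bool) : List Bool :=
  a.foldr (fun b r => btrim (bif ble (badd m [true]) (b :: r) then
    bsub (b :: r) (badd m [true]) else b :: r)) []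

private theorem Ar_bmod_cons (b : Bool) (a m : List Bool) :
    bmod (b :: a) m = btrim (bif ble (badd m [true]) (b :: bmod a m) then
      bsub (b :: bmod a m) (badd m [true]) else b :: bmod a m) := rfl

private theorem Ar_bval_m1 (m : List Bool) : bval (badd m [true]) = bval m + 1 := by
  rw [bval_badd]
  rfl

theorem bval_bmod (a m : List Bool) : bval (bmod a m) = bval a % (bval m + 1) := by
  induction a with
  | nil => simp [bmod]
  | cons b a ih =>
    have hm : 0 < bval m + 1 := Nat.succ_pos _
    have hb := Bool.toNat_le b
    have h0 : bval (b :: bmod a m) = b.toNat + 2 * (bval a % (bval m + 1)) := by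
      rw [bval_cons, ih]
    have h1 : (b.toNat + 2 * bval a) % (bval m + 1) =
        (b.toNat + 2 * (bval a % (bval m + 1))) % (bval m + 1) := by
      rw [Nat.add_mod, Nat.mul_mod, Nat.add_mod b.toNat (2 * (bval a % (bval m + 1))),
        Nat.mul_mod 2 (bval a % (bval m + 1)), Nat.mod_mod]
    have h2 := Nat.mod_lt (bval a) hm
    rw [Ar_bmod_cons, bval_btrim, bval_cons, h1]
    cases hc : ble (badd m [true]) (b :: bmod a m) with
    | true =>
      have h3 := (ble_iff _ _).1 hc
      rw [cond_true, bval_bsub h3, Ar_bval_m1, h0]
      rw [Ar_bval_m1, h0] at h3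
      rw [Nat.mod_eq_sub_mod h3]
      exact (Nat.mod_eq_of_lt (by omega)).symm
    | false =>
      have h3 : ¬ bval (badd m [true]) ≤ bval (b :: bmod a m) := by
        rw [← ble_iff, hc]
        simp
      rw [cond_false, h0]
      rw [Ar_bval_m1, h0] at h3
      exact (Nat.mod_eq_of_lt (by omega)).symm

theorem length_bmod_le (a m : List Bool) : (bmod a m).length ≤ m.length + 2 := by
  cases a with
  | nil => simp [bmod]
  | cons b a =>
    have h1 := bval_bmod (b :: a) m
    rw [Ar_bmod_cons, bval_btrim] at h1
    rw [Ar_bmod_cons]
    have h2 := Nat.mod_lt (bval (b :: a)) (Nat.succ_pos (bval m))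
    have h3 := bval_lt m
    refine (length_btrim_le (k := m.length) ?_).trans (by omega)
    rw [h1]
    exact h2.trans_le h3

@[fun_prop]
theorem Poly.bmod {f g : α → List Bool} (hf : Poly f) (hg : Poly g) :
    Poly (fun a => bmod (f a) (g a)) := by
  have := H.MP_5be563_lc.PT.Poly.foldr (f := fun p : α × List Bool × Bool =>
      TI.btrim (bif ble (badd (g p.1) [true]) (p.2.2 :: p.2.1) then
        TI.bsub (p.2.2 :: p.2.1) (badd (g p.1) [true]) else p.2.2 :: p.2.1))
    (l := f) (s0 := fun _ => []) (B := fun a => 4 * sz (g a) + 9)
    (by fun_prop) hf (by fun_prop) (((PBdd.const 4).mul hg.sz_le).add (PBdd.const 9)) (by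
      intro a l₁ l₂ h
      have h1 := length_bmod_le l₂ (g a)
      have h2 := (sz_bool_list (TI.bmod l₂ (g a))).2
      have h4 := (sz_bool_list (g a)).1
      change sz (TI.bmod l₂ (g a)) ≤ _
      omega)
  exact this

/-- The power modulo `bval m + 1`. -/
def bpw (r e m : List Bool) : List Bool :=
  e.foldr (fun b acc => bif b then bmod (bmul (bmod (bmul acc acc) m) r) m
    else bmod (bmul acc acc) m) (bmod [true] m)

theorem bval_bpw (r e m : List Bool) :
    bval (bpw r e m) = bval r ^ bval e % (bval m + 1) := by
  induction e with
  | nil =>
    have h : bpw r [] m = bmod [true] m := rfl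
    rw [h, bval_bmod]
    simp
  | cons b e ih =>
    have h : bpw r (b :: e) m = bif b then bmod (bmul (bmod (bmul (bpw r e m) (bpw r e m)) m) r) m
      else bmod (bmul (bpw r e m) (bpw r e m)) m := rfl
    rw [h]
    cases b with
    | true =>
      rw [cond_true, bval_bmod, bval_bmul, bval_bmod, bval_bmul, ih, bval_cons]
      rw [← Nat.mul_mod, Nat.mod_mul_mod]
      congr 1
      simp only [Bool.toNat_true]
      rw [pow_add, pow_one, two_mul, pow_add]
      ring
    | false =>
      rw [cond_false, bval_bmod, bval_bmul, ih, bval_cons]
      rw [← Nat.mul_mod]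
      congr 1
      simp only [Bool.toNat_false]
      rw [zero_add, two_mul, pow_add]

theorem length_bpw_le (r e m : List Bool) : (bpw r e m).length ≤ m.length + 2 := by
  cases e with
  | nil => exact length_bmod_le _ _
  | cons b e =>
    cases b with
    | true => exact length_bmod_le _ _
    | false => exact length_bmod_le _ _

@[fun_prop]
theorem Poly.bpw {f g h : α → List Bool} (hf : Poly f) (hg : Poly g) (hh : Poly h) :
    Poly (fun a => bpw (f a) (g a) (h a)) := by
  have := H.MP_5be563_lc.PT.Poly.foldr (f := fun p : α × List Bool × Bool =>
      bif p.2.2 then TI.bmod (bmul (TI.bmod (bmul p.2.1 p.2.1) (h p.1)) (f p.1)) (h p.1)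
        else TI.bmod (bmul p.2.1 p.2.1) (h p.1))
    (l := g) (s0 := fun a => TI.bmod [true] (h a)) (B := fun a => 4 * sz (h a) + 9)
    (by fun_prop) hg (by fun_prop) (((PBdd.const 4).mul hh.sz_le).add (PBdd.const 9)) (by
      intro a l₁ l₂ _
      have h1 := length_bpw_le (f a) l₂ (h a)
      have h2 := (sz_bool_list (TI.bpw (f a) l₂ (h a))).2
      have h4 := (sz_bool_list (h a)).1
      change sz (TI.bpw (f a) l₂ (h a)) ≤ _
      omega)
  exact this

/-- Equality of the values. -/
def beqv (a b : List Bool) : Bool := ble a b && ble b a

theorem beqv_iff (a b : List Bool) : beqv a b = true ↔ bval a = bval b := by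
  rw [beqv, Bool.and_eq_true, ble_iff, ble_iff]
  omega

@[fun_prop]
theorem Poly.beqv {f g : α → List Bool} (hf : Poly f) (hg : Poly g) :
    Poly (fun a => beqv (f a) (g a)) := by
  unfold TI.beqv
  fun_prop

end Pool.Agent.TI
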