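import Pool.Agent.H.MP_b2d7dd_lc.TI.Tokz
import Pool.Agent.H.MP_b2d7dd_lc.TI.Ar

/-!
# Module Mach: the stack machine

The environment is `E = (names, as, bs, m)`: the variable `w` has the values
`bval (as.getD i []) + 1` and `bval (bs.getD i []) + 1` with `i = names.idxOf w` (`av E`, `bv E`);
the modulus is `bval m + 1`. A record is `((expfree, base, tame), r, e)`, `r` = value modulo
`bval m + 1` (for tame terms, otherwise `[]`), `e` = the exact value under `bv E` (for
exponentiation-free terms, otherwise `[]`).

`mach E T` reads the tokens from the right and keeps a stack of records; errors empty the stack.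
-/

namespace Pool.Agent.TI

open Pool.Agent.H.MP_5be563_lc.PT

variable {α : Type} [Enc α]

/-- Environments. -/
abbrev Env : Type := List (List Bool) × List (List Bool) × List (List Bool) × List Bool

/-- Records. -/
abbrev Rec : Type := (Bool × Bool × Bool) × List Bool × List Bool

/-- The index of the first occurrence. -/
def fidx (w : List Bool) (l : List (List Bool)) : ℕ :=
  l.foldr (fun x k => bif decide (x = w) then 0 else k + 1) 0

theorem fidx_eq (w : List Bool) (l : List (List Bool)) : fidx w l = l.idxOf w := by
  induction l with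
  | nil => rfl
  | cons x l ih =>
    have h : fidx w (x :: l) = bif decide (x = w) then 0 else fidx w l + 1 := rfl
    rw [h, List.idxOf_cons, ih]
    by_cases hx : x = w
    · subst hx; simp
    · have hb : (x == w) = false := by simpa using hx
      simp [hx, hb]

/-- The base value of a variable, as a bit list. -/
def lookA (E : Env) (w : List Bool) : List Bool := badd (E.2.1.getD (fidx w E.1) []) [true]

/-- The exponent value of a variable, as a bit list. -/
def lookB (E : Env) (w : List Bool) : List Bool := badd (E.2.2.1.getD (fidx w E.1) []) [true]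

/-- The base values. -/
def av (E : Env) (w : List Bool) : ℕ := bval (E.2.1.getD (E.1.idxOf w) []) + 1

/-- The exponent values. -/
def bv (E : Env) (w : List Bool) : ℕ := bval (E.2.2.1.getD (E.1.idxOf w) []) + 1

/-- Combination of records: `k = 1` sum, `k = 2` product, otherwise power. -/
def comb (m : List Bool) (k : ℕ) (p q : Rec) : Rec :=
  bif decide (k = 1) then
    ((p.1.1 && q.1.1, p.1.1 && q.1.1, p.1.2.2 && q.1.2.2),
      (bif p.1.2.2 && q.1.2.2 then bmod (badd p.2.1 q.2.1) m else []),
      (bif p.1.1 && q.1.1 then btrim (badd p.2.2 q.2.2) else []))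
  else bif decide (k = 2) then
    ((p.1.1 && q.1.1, p.1.2.1 && q.1.2.1, p.1.2.2 && q.1.2.2),
      (bif p.1.2.2 && q.1.2.2 then bmod (bmul p.2.1 q.2.1) m else []),
      (bif p.1.1 && q.1.1 then btrim (bmul p.2.2 q.2.2) else []))
  else
    ((false, p.1.2.1 && q.1.1, p.1.2.1 && q.1.1),
      (bif p.1.2.1 && q.1.1 then bpw p.2.1 q.2.2 m else []), [])

/-- The record of a term. -/
def recOf (E : Env) : Tm → Rec
  | .one => ((true, true, true), bmod [true] E.2.2.2, [true])
  | .var w => ((true, true, true), bmod (lookA E w) E.2.2.2, btrim (lookB E w))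
  | .add s t => comb E.2.2.2 1 (recOf E s) (recOf E t)
  | .mul s t => comb E.2.2.2 2 (recOf E s) (recOf E t)
  | .pow s t => comb E.2.2.2 3 (recOf E s) (recOf E t)

theorem comb_one (m : List Bool) (p q : Rec) : comb m 1 p q =
    ((p.1.1 && q.1.1, p.1.1 && q.1.1, p.1.2.2 && q.1.2.2),
      (bif p.1.2.2 && q.1.2.2 then bmod (badd p.2.1 q.2.1) m else []),
      (bif p.1.1 && q.1.1 then btrim (badd p.2.2 q.2.2) else [])) := rfl

theorem comb_two (m : List Bool) (p q : Rec) : comb m 2 p q =
    ((p.1.1 && q.1.1, p.1.2.1 && q.1.2.1, p.1.2.2 && q.1.2.2),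
      (bif p.1.2.2 && q.1.2.2 then bmod (bmul p.2.1 q.2.1) m else []),
      (bif p.1.1 && q.1.1 then btrim (bmul p.2.2 q.2.2) else [])) := rfl

theorem comb_three (m : List Bool) (p q : Rec) : comb m 3 p q =
    ((false, p.1.2.1 && q.1.1, p.1.2.1 && q.1.1),
      (bif p.1.2.1 && q.1.1 then bpw p.2.1 q.2.2 m else []), []) := rfl

theorem recOf_add (E : Env) (s t : Tm) :
    recOf E (.add s t) = comb E.2.2.2 1 (recOf E s) (recOf E t) := rfl

theorem recOf_mul (E : Env) (s t : Tm) :
    recOf E (.mul s t) = comb E.2.2.2 2 (recOf E s) (recOf E t) := rfl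

theorem recOf_pow (E : Env) (s t : Tm) :
    recOf E (.pow s t) = comb E.2.2.2 3 (recOf E s) (recOf E t) := rfl

theorem recOf_ef (E : Env) (t : Tm) : (recOf E t).1.1 = true ↔ t.ExpFree := by
  induction t with
  | one => simp [recOf, Tm.ExpFree]
  | var w => simp [recOf, Tm.ExpFree]
  | add s t ihs iht =>
    rw [recOf_add, comb_one]
    simp only [Bool.and_eq_true, Tm.ExpFree, ihs, iht]
  | mul s t ihs iht =>
    rw [recOf_mul, comb_two]
    simp only [Bool.and_eq_true, Tm.ExpFree, ihs, iht]
  | pow s t _ _ =>
    rw [recOf_pow, comb_three]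
    simp [Tm.ExpFree]

theorem recOf_base (E : Env) (t : Tm) : (recOf E t).1.2.1 = true ↔ t.Base := by
  induction t with
  | one => simp [recOf, Tm.Base]
  | var w => simp [recOf, Tm.Base]
  | add s t _ _ =>
    rw [recOf_add, comb_one]
    simp only [Bool.and_eq_true, Tm.Base, recOf_ef]
  | mul s t ihs iht =>
    rw [recOf_mul, comb_two]
    simp only [Bool.and_eq_true, Tm.Base, ihs, iht]
  | pow s t ihs _ =>
    rw [recOf_pow, comb_three]
    simp only [Bool.and_eq_true, Tm.Base, ihs, recOf_ef]

theorem recOf_tame (E : Env) (t : Tm) : (recOf E t).1.2.2 = true ↔ t.Tame := by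
  induction t with
  | one => simp [recOf, Tm.Tame]
  | var w => simp [recOf, Tm.Tame]
  | add s t ihs iht =>
    rw [recOf_add, comb_one]
    simp only [Bool.and_eq_true, Tm.Tame, ihs, iht]
  | mul s t ihs iht =>
    rw [recOf_mul, comb_two]
    simp only [Bool.and_eq_true, Tm.Tame, ihs, iht]
  | pow s t _ _ =>
    rw [recOf_pow, comb_three]
    simp only [Bool.and_eq_true, Tm.Tame, recOf_base, recOf_ef]

theorem bval_true : bval [true] = 1 := by
  simp

theorem bval_lookA (E : Env) (w : List Bool) : bval (lookA E w) = av E w := by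
  rw [lookA, bval_badd, bval_true, fidx_eq, av]

theorem bval_lookB (E : Env) (w : List Bool) : bval (lookB E w) = bv E w := by
  rw [lookB, bval_badd, bval_true, fidx_eq, bv]

theorem recOf_e (E : Env) {t : Tm} (ht : t.ExpFree) :
    bval (recOf E t).2.2 = t.val (bv E) := by
  induction t with
  | one => exact bval_true
  | var w =>
    change bval (btrim (lookB E w)) = bv E w
    rw [bval_btrim, bval_lookB]
  | add s t ihs iht =>
    have h1 := (recOf_ef E s).2 ht.1
    have h2 := (recOf_ef E t).2 ht.2
    rw [recOf_add, comb_one]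
    simp only [h1, h2, Bool.and_self, cond_true, bval_btrim, bval_badd, ihs ht.1, iht ht.2,
      Tm.val]
  | mul s t ihs iht =>
    have h1 := (recOf_ef E s).2 ht.1
    have h2 := (recOf_ef E t).2 ht.2
    rw [recOf_mul, comb_two]
    simp only [h1, h2, Bool.and_self, cond_true, bval_btrim, bval_bmul, ihs ht.1, iht ht.2,
      Tm.val]
  | pow s t _ _ => exact ht.elim

/-- Congruences (`Nat.add_mod`, `Nat.mul_mod`, `Nat.pow_mod`). -/
theorem recOf_r (E : Env) {t : Tm} (ht : t.Tame) :
    bval (recOf E t).2.1 = t.ev (av E) (bv E) % (bval E.2.2.2 + 1) := by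
  induction t with
  | one =>
    change bval (bmod [true] E.2.2.2) = 1 % (bval E.2.2.2 + 1)
    rw [bval_bmod, bval_true]
  | var w =>
    change bval (bmod (lookA E w) E.2.2.2) = av E w % (bval E.2.2.2 + 1)
    rw [bval_bmod, bval_lookA]
  | add s t ihs iht =>
    have h1 := (recOf_tame E s).2 ht.1
    have h2 := (recOf_tame E t).2 ht.2
    rw [recOf_add, comb_one]
    simp only [h1, h2, Bool.and_self, cond_true, bval_bmod, bval_badd, ihs ht.1, iht ht.2,
      Tm.ev, ← Nat.add_mod]
  | mul s t ihs iht =>
    have h1 := (recOf_tame E s).2 ht.1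
    have h2 := (recOf_tame E t).2 ht.2
    rw [recOf_mul, comb_two]
    simp only [h1, h2, Bool.and_self, cond_true, bval_bmod, bval_bmul, ihs ht.1, iht ht.2,
      Tm.ev, ← Nat.mul_mod]
  | pow s t ihs _ =>
    have h1 := (recOf_base E s).2 ht.1
    have h2 := (recOf_ef E t).2 ht.2
    rw [recOf_pow, comb_three]
    simp only [h1, h2, Bool.and_self, cond_true, bval_bpw, ihs ht.1.tame, recOf_e E ht.2,
      Tm.ev, ← Nat.pow_mod]

theorem length_recOf_r (E : Env) (t : Tm) : (recOf E t).2.1.length ≤ E.2.2.2.length + 2 := by
  cases t with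
  | one => exact length_bmod_le _ _
  | var w => exact length_bmod_le _ _
  | add s t =>
    rw [recOf_add, comb_one]
    cases h : ((recOf E s).1.2.2 && (recOf E t).1.2.2)
    · simp
    · simpa using length_bmod_le _ _
  | mul s t =>
    rw [recOf_mul, comb_two]
    cases h : ((recOf E s).1.2.2 && (recOf E t).1.2.2)
    · simp
    · simpa using length_bmod_le _ _
  | pow s t =>
    rw [recOf_pow, comb_three]
    cases h : ((recOf E s).1.2.1 && (recOf E t).1.1)
    · simp
    · simpa using length_bpw_le _ _ _

/-- `Tm.val_le` with `B = 2 ^ L` and `length_btrim_le`. -/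
theorem length_recOf_e (E : Env) {L : ℕ} (hL : 1 ≤ L) (hb : ∀ w, bv E w ≤ 2 ^ L) (t : Tm) :
    (recOf E t).2.2.length ≤ L * t.sz + 1 := by
  have h2L : 2 ≤ 2 ^ L := by
    calc 2 = 2 ^ 1 := rfl
      _ ≤ 2 ^ L := Nat.pow_le_pow_right (by norm_num) hL
  have key : ∀ {t : Tm}, t.ExpFree → t.val (bv E) < 2 ^ (L * t.sz + 1) := by
    intro t ht
    calc t.val (bv E) ≤ (2 ^ L) ^ t.sz := Tm.val_le h2L hb ht
      _ = 2 ^ (L * t.sz) := (pow_mul 2 L t.sz).symm
      _ < 2 ^ (L * t.sz + 1) := Nat.pow_lt_pow_right (by norm_num) (Nat.lt_succ_self _)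
  cases t with
  | one =>
    change 1 ≤ _
    omega
  | var w =>
    refine length_btrim_le ?_
    rw [bval_lookB]
    exact key (t := .var w) trivial
  | add s t =>
    rw [recOf_add, comb_one]
    cases h : ((recOf E s).1.1 && (recOf E t).1.1)
    · simp
    · rw [Bool.and_eq_true, recOf_ef, recOf_ef] at h
      refine length_btrim_le ?_
      rw [bval_badd, recOf_e E h.1, recOf_e E h.2]
      exact key (t := .add s t) h
  | mul s t =>
    rw [recOf_mul, comb_two]
    cases h : ((recOf E s).1.1 && (recOf E t).1.1)
    · simp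
    · rw [Bool.and_eq_true, recOf_ef, recOf_ef] at h
      refine length_btrim_le ?_
      rw [bval_bmul, recOf_e E h.1, recOf_e E h.2]
      exact key (t := .mul s t) h
  | pow s t =>
    rw [recOf_pow, comb_three]
    simp

/-- One step of the machine. -/
def stStep (E : Env) (q : Tok) (s : List Rec × Bool) : List Rec × Bool :=
  bif s.2 then
    (bif decide (q.1 = 0) then (((true, true, true), bmod [true] E.2.2.2, [true]) :: s.1, true)
    else bif decide (q.1 = 4) then
      (((true, true, true), bmod (lookA E q.2) E.2.2.2, btrim (lookB E q.2)) :: s.1, true)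
    else bif s.1.isEmpty || s.1.tail.isEmpty then ([], false)
    else (comb E.2.2.2 q.1 (s.1.headD ((false, false, false), [], []))
      (s.1.tail.headD ((false, false, false), [], [])) :: s.1.tail.tail, true))
  else ([], false)

/-- The machine. -/
def mach (E : Env) (T : List Tok) : List Rec × Bool := T.foldr (stStep E) ([], true)

theorem stStep_op (E : Env) {k : ℕ} (h0 : k ≠ 0) (h4 : k ≠ 4) (w : List Bool) (p q : Rec)
    (s : List Rec) :
    stStep E (k, w) (p :: q :: s, true) = (comb E.2.2.2 k p q :: s, true) := by
  simp [stStep, h0, h4]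

theorem mach_toks (E : Env) (t : Tm) (s : List Rec) :
    t.toks.foldr (stStep E) (s, true) = (recOf E t :: s, true) := by
  induction t generalizing s with
  | one => simp [Tm.toks, stStep, recOf]
  | var w => simp [Tm.toks, stStep, recOf]
  | add a b iha ihb =>
    rw [Tm.toks, List.foldr_cons, List.foldr_append, ihb, iha,
      stStep_op E (by norm_num) (by norm_num), recOf_add]
  | mul a b iha ihb =>
    rw [Tm.toks, List.foldr_cons, List.foldr_append, ihb, iha,
      stStep_op E (by norm_num) (by norm_num), recOf_mul]
  | pow a b iha ihb =>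
    rw [Tm.toks, List.foldr_cons, List.foldr_append, ihb, iha,
      stStep_op E (by norm_num) (by norm_num), recOf_pow]

/-- Every successful run comes from terms. Induction on `T`. -/
theorem mach_cons (E : Env) (q : Tok) (T : List Tok) :
    mach E (q :: T) = stStep E q (mach E T) := rfl

theorem mach_some (E : Env) {T : List Tok} (hT : ∀ q ∈ T, Can q) {s : List Rec}
    (h : mach E T = (s, true)) : ∃ l : List Tm, T = l.flatMap Tm.toks ∧ s = l.map (recOf E) := by
  induction T generalizing s with
  | nil =>
    have hs : s = [] := (congrArg Prod.fst h).symm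
    exact ⟨[], rfl, by simp [hs]⟩
  | cons q T ih =>
    obtain ⟨k, w⟩ := q
    have hq : k ≤ 4 ∧ (k < 4 → w = []) := hT (k, w) (by simp)
    have hT' : ∀ q ∈ T, Can q := fun q hq => hT q (List.mem_cons_of_mem _ hq)
    rw [mach_cons] at h
    rcases hm : mach E T with ⟨s', b⟩
    rw [hm] at h
    cases b with
    | false =>
      exfalso
      have := congrArg Prod.snd h
      simp [stStep] at this
    | true =>
      obtain ⟨l, hl1, hl2⟩ := ih hT' hm
      by_cases h0 : k = 0
      · subst h0
        have hw : w = [] := hq.2 (by norm_num)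
        subst hw
        refine ⟨.one :: l, by simp [Tm.toks, hl1], ?_⟩
        have h1 := congrArg Prod.fst h
        simp [stStep] at h1
        rw [← h1, hl2]
        rfl
      · by_cases h4 : k = 4
        · subst h4
          refine ⟨.var w :: l, by simp [Tm.toks, hl1], ?_⟩
          have h1 := congrArg Prod.fst h
          simp [stStep] at h1
          rw [← h1, hl2]
          rfl
        · have hw : w = [] := hq.2 (by omega)
          subst hw
          rcases l with _ | ⟨a, _ | ⟨b, l⟩⟩
          · exfalso
            simp only [List.map_nil] at hl2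
            subst hl2
            have := congrArg Prod.snd h
            simp [stStep, h0, h4] at this
          · exfalso
            simp only [List.map_cons, List.map_nil] at hl2
            subst hl2
            have := congrArg Prod.snd h
            simp [stStep, h0, h4] at this
          · simp only [List.map_cons] at hl2
            subst hl2
            rw [stStep_op E h0 h4] at h
            have h1 := (congrArg Prod.fst h).symm
            simp only at h1
            have hk : k = 1 ∨ k = 2 ∨ k = 3 := by omega
            rcases hk with rfl | rfl | rfl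
            · exact ⟨.add a b :: l, by simp [Tm.toks, hl1], h1⟩
            · exact ⟨.mul a b :: l, by simp [Tm.toks, hl1], h1⟩
            · exact ⟨.pow a b :: l, by simp [Tm.toks, hl1], h1⟩

theorem mach_false (E : Env) (T : List Tok) (h : (mach E T).2 = false) : (mach E T).1 = [] := by
  cases T with
  | nil => rfl
  | cons q T =>
    rw [mach_cons] at h ⊢
    unfold stStep at h ⊢
    cases hb : (mach E T).2
    · simp
    · rw [hb] at h
      cases h0 : decide (q.1 = 0)
      · rw [h0] at h
        cases h4 : decide (q.1 = 4)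
        · rw [h4] at h
          cases h5 : ((mach E T).1.isEmpty || (mach E T).1.tail.isEmpty)
          · rw [h5] at h
            simp at h
          · simp
        · rw [h4] at h
          simp at h
      · rw [h0] at h
        simp at h

theorem poly_comb {fm : α → List Bool} {fk : α → ℕ} {fp fq : α → Rec} (hm : Poly fm)
    (hk : Poly fk) (hp : Poly fp) (hq : Poly fq) :
    Poly (fun a => comb (fm a) (fk a) (fp a) (fq a)) := by
  unfold comb
  refine Poly.cond (by fun_prop) ?_ (Poly.cond (by fun_prop) ?_ ?_)
  · exact Poly.pair (by fun_prop) (Poly.pair (Poly.cond (by fun_prop) (by fun_prop)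
      (by fun_prop)) (Poly.cond (by fun_prop) (by fun_prop) (by fun_prop)))
  · exact Poly.pair (by fun_prop) (Poly.pair (Poly.cond (by fun_prop) (by fun_prop)
      (by fun_prop)) (Poly.cond (by fun_prop) (by fun_prop) (by fun_prop)))
  · exact Poly.pair (by fun_prop) (Poly.pair (Poly.cond (by fun_prop) (by fun_prop)
      (by fun_prop)) (by fun_prop))

private theorem fidx_le (w : List Bool) (l : List (List Bool)) : fidx w l ≤ l.length := by
  rw [fidx_eq]
  exact List.idxOf_le_length

private theorem poly_fidx {fw : α → List Bool} {fl : α → List (List Bool)} (hw : Poly fw)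
    (hl : Poly fl) : Poly (fun a => fidx (fw a) (fl a)) := by
  unfold fidx
  refine Poly.foldr (f := fun p : α × ℕ × List Bool =>
      bif decide (p.2.2 = fw p.1) then 0 else p.2.1 + 1) (l := fl) (s0 := fun _ => 0)
      (B := fun a => 2 * sz (fl a) + 1) ?_ hl (by fun_prop)
      (((PBdd.const 2).mul hl.sz_le).add (PBdd.const 1)) ?_
  · exact Poly.cond (by fun_prop) (by fun_prop) (by fun_prop)
  · intro a l₁ l₂ h
    have h1 : fidx (fw a) l₂ ≤ l₂.length := fidx_le _ _
    have h2 : l₂.length ≤ (fl a).length := by rw [h]; simp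
    have h3 := length_lt_sz (fl a)
    have h4 : sz (fidx (fw a) l₂) = 2 * fidx (fw a) l₂ + 1 := by simp
    change sz (fidx (fw a) l₂) ≤ 2 * sz (fl a) + 1
    rw [h4]
    omega

theorem poly_lookA {fE : α → Env} {fw : α → List Bool} (hE : Poly fE) (hw : Poly fw) :
    Poly (fun a => lookA (fE a) (fw a)) := by
  unfold lookA
  have h1 : Poly (fun a => fidx (fw a) (fE a).1) := poly_fidx hw (by fun_prop)
  exact Poly.badd (Poly.getD h1 (by fun_prop) (by fun_prop)) (by fun_prop)

theorem poly_lookB {fE : α → Env} {fw : α → List Bool} (hE : Poly fE) (hw : Poly fw) :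
    Poly (fun a => lookB (fE a) (fw a)) := by
  unfold lookB
  have h1 : Poly (fun a => fidx (fw a) (fE a).1) := poly_fidx hw (by fun_prop)
  exact Poly.badd (Poly.getD h1 (by fun_prop) (by fun_prop)) (by fun_prop)

theorem poly_stStep {fE : α → Env} {fq : α → Tok} {fs : α → List Rec × Bool} (hE : Poly fE)
    (hq : Poly fq) (hs : Poly fs) : Poly (fun a => stStep (fE a) (fq a) (fs a)) := by
  have hA : Poly (fun a => lookA (fE a) (fq a).2) := poly_lookA hE (by fun_prop)
  have hB : Poly (fun a => lookB (fE a) (fq a).2) := poly_lookB hE (by fun_prop)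
  have hm : Poly (fun a => (fE a).2.2.2) := by fun_prop
  have hc : Poly (fun a => comb (fE a).2.2.2 (fq a).1
      ((fs a).1.headD ((false, false, false), [], []))
      ((fs a).1.tail.headD ((false, false, false), [], []))) :=
    poly_comb hm (by fun_prop) (by fun_prop) (by fun_prop)
  unfold stStep
  refine Poly.cond (by fun_prop) (Poly.cond (by fun_prop) ?_ (Poly.cond (by fun_prop) ?_
    (Poly.cond (by fun_prop) (by fun_prop) ?_))) (by fun_prop)
  · exact Poly.pair (Poly.lcons (Poly.pair (by fun_prop) (Poly.pair (Poly.bmod (by fun_prop) hm)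
      (by fun_prop))) (by fun_prop)) (by fun_prop)
  · exact Poly.pair (Poly.lcons (Poly.pair (by fun_prop) (Poly.pair (Poly.bmod hA hm)
      (Poly.btrim hB))) (by fun_prop)) (by fun_prop)
  · exact Poly.pair (Poly.lcons hc (by fun_prop)) (by fun_prop)

end Pool.Agent.TI
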