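import Pool.Agent.H.MP_b2d7dd_lc.TI.Terms
import Pool.Agent.H.MP_5be563_lc.PT.Tree

/-!
# Module Tokz: tokens and the tokenizer

Tokens are `(0, [])` = `1`, `(1, [])` = `+`, `(2, [])` = `·`, `(3, [])` = `^`, `(4, w)` = the
variable with index `w`.

`tokz x` reads the string from the right end, three bits at a time; the state is
`(pending bits, digits, tokens, ok)`. Invariant for `tokz_some` (induction on `x`; state
`(pend, digs, toks, ok)` after reading `x`): if `ok`, then all tokens are canonical and
`x = pend ++ digs.flatMap (fun b => [true, true, b]) ++ toks.flatMap tokCode`, and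
`pend.length ≤ 2`. For `tokz_toks`: reading `tokCode q` for a canonical token `q` from the state
`([], [], toks, ok)` leads to `([], [], q :: toks, ok)`.
Poly: `Poly.foldr` (sizes: the bits of `pend`, `digs` and `toks` are bounded by the length of what
has been read, each step adds a bounded amount to `sz`).
-/

namespace Pool.Agent.TI

open Pool.Agent.H.MP_5be563_lc.PT

variable {α : Type} [Enc α]

/-- Tokens. -/
abbrev Tok : Type := ℕ × List Bool

/-- Canonical tokens. -/
def Can (q : Tok) : Prop := q.1 ≤ 4 ∧ (q.1 < 4 → q.2 = [])

/-- The string of a token. -/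
def tokCode (q : Tok) : List Bool :=
  if q.1 = 0 then [false, false, false]
  else if q.1 = 1 then [false, false, true]
  else if q.1 = 2 then [false, true, false]
  else if q.1 = 3 then [false, true, true]
  else [true, false, false] ++ q.2.flatMap (fun b => [true, true, b])

/-- The tokens of a term. -/
def Tm.toks : Tm → List Tok
  | .one => [(0, [])]
  | .var w => [(4, w)]
  | .add s t => (1, []) :: (s.toks ++ t.toks)
  | .mul s t => (2, []) :: (s.toks ++ t.toks)
  | .pow s t => (3, []) :: (s.toks ++ t.toks)

theorem Tm.can_toks (t : Tm) : ∀ q ∈ t.toks, Can q := by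
  induction t with
  | one =>
    intro q hq
    simp only [Tm.toks, List.mem_singleton] at hq
    subst hq
    exact ⟨by norm_num, fun _ => rfl⟩
  | var w =>
    intro q hq
    simp only [Tm.toks, List.mem_singleton] at hq
    subst hq
    exact ⟨le_rfl, fun h => absurd h (lt_irrefl _)⟩
  | add s t ihs iht =>
    intro q hq
    simp only [Tm.toks, List.mem_cons, List.mem_append] at hq
    rcases hq with rfl | hq | hq
    · exact ⟨by norm_num, fun _ => rfl⟩
    · exact ihs q hq
    · exact iht q hq
  | mul s t ihs iht =>
    intro q hq
    simp only [Tm.toks, List.mem_cons, List.mem_append] at hq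
    rcases hq with rfl | hq | hq
    · exact ⟨by norm_num, fun _ => rfl⟩
    · exact ihs q hq
    · exact iht q hq
  | pow s t ihs iht =>
    intro q hq
    simp only [Tm.toks, List.mem_cons, List.mem_append] at hq
    rcases hq with rfl | hq | hq
    · exact ⟨by norm_num, fun _ => rfl⟩
    · exact ihs q hq
    · exact iht q hq

theorem Tm.code_eq (t : Tm) : t.code = t.toks.flatMap tokCode := by
  induction t with
  | one => simp [Tm.code, Tm.toks, tokCode]
  | var w => simp [Tm.code, Tm.toks, tokCode]
  | add s t ihs iht => simp [Tm.code, Tm.toks, tokCode, ihs, iht]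
  | mul s t ihs iht => simp [Tm.code, Tm.toks, tokCode, ihs, iht]
  | pow s t ihs iht => simp [Tm.code, Tm.toks, tokCode, ihs, iht]

/-- One step of the tokenizer. -/
def tkStep (b : Bool) (s : List Bool × List Bool × List Tok × Bool) :
    List Bool × List Bool × List Tok × Bool :=
  if s.1.length < 2 then (b :: s.1, s.2)
  else if b then
    (if s.1.headD false then
      ([], (s.1.tail.headD false) :: s.2.1, s.2.2.1, s.2.2.2)
    else if s.1.tail.headD false then ([], s.2.1, s.2.2.1, false)
    else ([], [], (4, s.2.1) :: s.2.2.1, s.2.2.2))
  else ([], s.2.1,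
    ((if s.1.headD false then 2 else 0) + (if s.1.tail.headD false then 1 else 0), []) :: s.2.2.1,
    s.2.2.2 && s.2.1.isEmpty)

/-- The tokenizer. -/
def tkRun (x : List Bool) : List Bool × List Bool × List Tok × Bool :=
  x.foldr tkStep ([], [], [], true)

/-- The tokens of a string, if it is a sequence of tokens. -/
def tokz (x : List Bool) : Option (List Tok) :=
  if (tkRun x).1.isEmpty && (tkRun x).2.1.isEmpty && (tkRun x).2.2.2 then some (tkRun x).2.2.1
  else none

private theorem Tokz_digs (w : List Bool) (toks : List Tok) :
    (w.flatMap (fun b => [true, true, b])).foldr tkStep ([], [], toks, true) =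
      ([], w, toks, true) := by
  induction w with
  | nil => rfl
  | cons b w ih =>
    rw [List.flatMap_cons, List.foldr_append, ih]
    simp [tkStep]

private theorem Tokz_one {q : Tok} (hq : Can q) (toks : List Tok) :
    (tokCode q).foldr tkStep ([], [], toks, true) = ([], [], q :: toks, true) := by
  obtain ⟨n, w⟩ := q
  obtain ⟨h1, h2⟩ := hq
  simp only at h1 h2
  rcases Nat.lt_or_ge n 4 with h | h
  · have hw := h2 h
    subst hw
    interval_cases n
    · simp [tokCode, tkStep]
    · simp [tokCode, tkStep]
    · simp [tokCode, tkStep]
    · simp [tokCode, tkStep]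
  · have hn : n = 4 := le_antisymm h1 h
    subst hn
    have e : tokCode (4, w) = [true, false, false] ++ w.flatMap (fun b => [true, true, b]) := by
      simp [tokCode]
    rw [e, List.foldr_append, Tokz_digs]
    simp [tkStep]

theorem tokz_toks {T : List Tok} (hT : ∀ q ∈ T, Can q) : tokz (T.flatMap tokCode) = some T := by
  have key : tkRun (T.flatMap tokCode) = ([], [], T, true) := by
    induction T with
    | nil => rfl
    | cons q T ih =>
      have h1 := ih fun q hq => hT q (List.mem_cons_of_mem _ hq)
      unfold tkRun at h1 ⊢
      rw [List.flatMap_cons, List.foldr_append, h1]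
      exact Tokz_one (hT q List.mem_cons_self) T
  unfold tokz
  rw [key]
  simp

private theorem Tokz_inv (x : List Bool) : (tkRun x).1.length ≤ 2 ∧ ((tkRun x).2.2.2 = true →
    x = (tkRun x).1 ++ (tkRun x).2.1.flatMap (fun b => [true, true, b]) ++
      (tkRun x).2.2.1.flatMap tokCode ∧ ∀ q ∈ (tkRun x).2.2.1, Can q) := by
  induction x with
  | nil =>
    refine ⟨by simp [tkRun], fun _ => ⟨by simp [tkRun], by simp [tkRun]⟩⟩
  | cons b x ih =>
    have e : tkRun (b :: x) = tkStep b (tkRun x) := rfl
    rw [e]
    revert ih
    generalize tkRun x = S
    obtain ⟨pend, digs, toks, ok⟩ := S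
    rintro ⟨h1, h2⟩
    simp only at h1 h2
    by_cases hp : pend.length < 2
    · have e2 : tkStep b (pend, digs, toks, ok) = (b :: pend, digs, toks, ok) := by
        simp [tkStep, hp]
      rw [e2]
      refine ⟨?_, fun hok => ?_⟩
      · simp only [List.length_cons]
        omega
      · obtain ⟨h3, h4⟩ := h2 hok
        refine ⟨?_, h4⟩
        simp only
        rw [h3]
        simp
    · obtain ⟨b1, b2, rfl⟩ : ∃ b1 b2, pend = [b1, b2] := by
        match pend, h1, hp with
        | [], _, hp => simp at hp
        | [_], _, hp => simp at hp
        | [b1, b2], _, _ => exact ⟨b1, b2, rfl⟩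
        | _ :: _ :: _ :: _, h1, _ => simp at h1
      cases b
      · have e2 : tkStep false ([b1, b2], digs, toks, ok) = ([], digs,
            ((if b1 then 2 else 0) + (if b2 then 1 else 0), []) :: toks,
            ok && digs.isEmpty) := by
          simp [tkStep]
        rw [e2]
        refine ⟨by simp, fun hok => ?_⟩
        simp only [Bool.and_eq_true, List.isEmpty_iff] at hok
        obtain ⟨hok, hd⟩ := hok
        subst hd
        obtain ⟨h3, h4⟩ := h2 hok
        refine ⟨?_, ?_⟩
        · simp only
          rw [h3]
          cases b1 <;> cases b2 <;> simp [tokCode]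
        · intro q hq
          rcases List.mem_cons.1 hq with rfl | hq
          · refine ⟨?_, fun _ => rfl⟩
            cases b1 <;> cases b2 <;> simp
          · exact h4 q hq
      · cases b1
        · cases b2
          · have e2 : tkStep true ([false, false], digs, toks, ok) =
                ([], [], (4, digs) :: toks, ok) := by
              simp [tkStep]
            rw [e2]
            refine ⟨by simp, fun hok => ?_⟩
            obtain ⟨h3, h4⟩ := h2 hok
            refine ⟨?_, ?_⟩
            · simp only
              rw [h3]
              simp [tokCode]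
            · intro q hq
              rcases List.mem_cons.1 hq with rfl | hq
              · exact ⟨le_rfl, fun h => absurd h (lt_irrefl _)⟩
              · exact h4 q hq
          · have e2 : tkStep true ([false, true], digs, toks, ok) =
                ([], digs, toks, false) := by
              simp [tkStep]
            rw [e2]
            exact ⟨by simp, fun hok => absurd hok (by simp)⟩
        · have e2 : tkStep true ([true, b2], digs, toks, ok) =
              ([], b2 :: digs, toks, ok) := by
            simp [tkStep]
          rw [e2]
          refine ⟨by simp, fun hok => ?_⟩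
          obtain ⟨h3, h4⟩ := h2 hok
          refine ⟨?_, h4⟩
          simp only
          rw [h3]
          simp

theorem tokz_some {x : List Bool} {T : List Tok} (h : tokz x = some T) :
    x = T.flatMap tokCode ∧ ∀ q ∈ T, Can q := by
  obtain ⟨-, h2⟩ := Tokz_inv x
  unfold tokz at h
  revert h h2
  generalize tkRun x = S
  obtain ⟨pend, digs, toks, ok⟩ := S
  intro h h2
  simp only at h h2
  split_ifs at h with hc
  simp only [Bool.and_eq_true, List.isEmpty_iff] at hc
  obtain ⟨⟨hp, hd⟩, hok⟩ := hc
  subst hp hd
  have hT : toks = T := Option.some.inj h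
  subst hT
  obtain ⟨h3, h4⟩ := h2 hok
  exact ⟨by simpa using h3, h4⟩

private theorem Tokz_sz (b : Bool) (s : List Bool × List Bool × List Tok × Bool) :
    sz (tkStep b s) ≤ sz s + 20 := by
  obtain ⟨pend, digs, toks, ok⟩ := s
  have h1 := sz_bool_le b
  have h2 := sz_bool_le (pend.tail.headD false)
  have h3 := sz_pos pend
  have h4 := sz_pos ok
  have h5 := sz_bool_le (ok && digs.isEmpty)
  unfold tkStep
  simp only
  split_ifs <;> simp only [sz_pair, sz_lcons, sz_lnil, sz_nat, sz_false] <;> omega

private theorem Tokz_foldr (l : List Bool) (s : List Bool × List Bool × List Tok × Bool) :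
    sz (l.foldr tkStep s) ≤ sz s + 20 * l.length := by
  induction l with
  | nil => simp
  | cons b l ih =>
    rw [List.foldr_cons, List.length_cons]
    have := Tokz_sz b (l.foldr tkStep s)
    omega

private theorem Tokz_step : Poly (fun p : α × (List Bool × List Bool × List Tok × Bool) × Bool =>
    tkStep p.2.2 p.2.1) := by
  unfold tkStep
  fun_prop

private theorem Tokz_run {f : α → List Bool} (hf : Poly f) : Poly (fun a => tkRun (f a)) := by
  have key := Poly.foldr (f := fun p : α × (List Bool × List Bool × List Tok × Bool) × Bool =>
      tkStep p.2.2 p.2.1) (l := f) (s0 := fun _ => ([], [], [], true))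
    (B := fun a => sz (([], [], [], true) : List Bool × List Bool × List Tok × Bool) +
      20 * sz (f a)) Tokz_step hf (by fun_prop)
    ((PBdd.const _).add ((PBdd.const 20).mul hf.sz_le)) (by
      intro a l₁ l₂ h
      have h1 := Tokz_foldr l₂ ([], [], [], true)
      have h2 : l₂.length ≤ sz (f a) := by
        have h3 := length_lt_sz (f a)
        rw [h, List.length_append] at h3
        rw [h]
        omega
      have e : l₂.foldr (fun b s => tkStep (a, s, b).2.2 (a, s, b).2.1) ([], [], [], true) =
          l₂.foldr tkStep ([], [], [], true) := rfl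
      rw [e]
      omega)
  exact key

theorem Poly.tokz {f : α → List Bool} (hf : Poly f) : Poly (fun a => tokz (f a)) := by
  have h := Tokz_run hf
  unfold TI.tokz
  fun_prop

/-- The names of the variables in a list of tokens. -/
def names (T : List Tok) : List (List Bool) := (T.filter fun q => decide (q.1 = 4)).map Prod.snd

theorem names_append (T T' : List Tok) : names (T ++ T') = names T ++ names T' := by
  simp [names]

private theorem Tokz_names_cons {n : ℕ} (hn : n ≠ 4) (T : List Tok) :
    names ((n, []) :: T) = names T := by
  simp [names, hn]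

theorem Tm.names_toks (t : Tm) : names t.toks = t.vars := by
  induction t with
  | one => rfl
  | var w => rfl
  | add s t ihs iht =>
    rw [Tm.toks, Tokz_names_cons (by norm_num), names_append, ihs, iht, Tm.vars]
  | mul s t ihs iht =>
    rw [Tm.toks, Tokz_names_cons (by norm_num), names_append, ihs, iht, Tm.vars]
  | pow s t ihs iht =>
    rw [Tm.toks, Tokz_names_cons (by norm_num), names_append, ihs, iht, Tm.vars]

theorem Poly.names {f : α → List Tok} (hf : Poly f) : Poly (fun a => names (f a)) := by
  unfold TI.names
  fun_prop

theorem Tm.length_toks (t : Tm) : t.toks.length = t.sz := by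
  induction t with
  | one => rfl
  | var w => rfl
  | add s t ihs iht => simp [Tm.toks, Tm.sz, ihs, iht]
  | mul s t ihs iht => simp [Tm.toks, Tm.sz, ihs, iht]
  | pow s t ihs iht => simp [Tm.toks, Tm.sz, ihs, iht]

theorem length_flatMap_tokCode (T : List Tok) : T.length ≤ (T.flatMap tokCode).length := by
  induction T with
  | nil => simp
  | cons q T ih =>
    rw [List.flatMap_cons, List.length_append, List.length_cons]
    have : 1 ≤ (tokCode q).length := by
      unfold tokCode
      split_ifs <;> simp
    omega

theorem Tm.sz_le_code (t : Tm) : t.sz ≤ t.code.length := by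
  rw [Tm.code_eq, ← Tm.length_toks]
  exact length_flatMap_tokCode _

theorem Tm.length_vars_le (t : Tm) : t.vars.length ≤ t.sz := by
  induction t with
  | one => simp [Tm.vars, Tm.sz]
  | var w => simp [Tm.vars, Tm.sz]
  | add s t ihs iht =>
    simp only [Tm.vars, Tm.sz, List.length_append]
    omega
  | mul s t ihs iht =>
    simp only [Tm.vars, Tm.sz, List.length_append]
    omega
  | pow s t ihs iht =>
    simp only [Tm.vars, Tm.sz, List.length_append]
    omega

end Pool.Agent.TI
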