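import Pool.Agent.H.MP_b2d7dd_lc.TI.Defs
import Pool.Agent.H.MP_5be563_lc.PT.Main
import Pool.Agent.H.MP_5be563_lc.PT.Tree

/-!
# Module Unp: pairs

`unpair_pairCode`: induction on `z.1`, resp. on `z.2` for `z.1 = []` (`List.foldr_append`).
`Poly.unpair`: `Poly.foldr`, the state has at most as many bits as have been read (size at most
`8 * length + 8`).
`tm_pair`: the machine of `Poly.tm2_raw_bool` (input `y` as it is), run on `pairCode z`: build the
structure `Turing.TM2ComputableInPolyTime` from the one for the identity code.
-/

namespace Pool.Agent.TI

open Pool.Agent.H.MP_5be563_lc.PT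

variable {α : Type} [Enc α]

/-- The pair coded by a string. -/
def unpair (y : List Bool) : List Bool × List Bool :=
  (y.foldr (fun b s => bif s.1.isEmpty then ([b], s.2)
    else ([], bif b then (s.1.headD false :: s.2.1, s.2.2) else (s.2.1, s.1.headD false :: s.2.2)))
    (([] : List Bool), ([] : List Bool), ([] : List Bool))).2

/-- One step of reading. -/
private def unpStep (b : Bool) (s : List Bool × List Bool × List Bool) :
    List Bool × List Bool × List Bool :=
  bif s.1.isEmpty then ([b], s.2)
    else ([], bif b then (s.1.headD false :: s.2.1, s.2.2) else (s.2.1, s.1.headD false :: s.2.2))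

private theorem unp_snd (u v : List Bool) (l : List Bool) :
    (l.flatMap (fun b => [false, b])).foldr unpStep ([], u, v) = ([], u, l ++ v) := by
  induction l with
  | nil => rfl
  | cons b l ih =>
    rw [List.flatMap_cons, List.foldr_append, ih]
    rfl

private theorem unp_fst (u v : List Bool) (l : List Bool) :
    (l.flatMap (fun b => [true, b])).foldr unpStep ([], u, v) = ([], l ++ u, v) := by
  induction l with
  | nil => rfl
  | cons b l ih =>
    rw [List.flatMap_cons, List.foldr_append, ih]
    rfl

theorem unpair_pairCode (z : List Bool × List Bool) : unpair (pairCode z) = z := by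
  have h : unpair (pairCode z) = ((pairCode z).foldr unpStep ([], [], [])).2 := rfl
  rw [h, pairCode, List.foldr_append, unp_snd, unp_fst]
  simp

private theorem unp_sz (l : List Bool) :
    sz (l.foldr unpStep (([] : List Bool), ([] : List Bool), ([] : List Bool))) ≤
      4 * l.length + 5 := by
  have key : ∀ l : List Bool,
      (l.foldr unpStep ([], [], [])).1.length + (l.foldr unpStep ([], [], [])).2.1.length +
        (l.foldr unpStep ([], [], [])).2.2.length ≤ l.length := by
    intro l
    induction l with
    | nil => simp
    | cons b l ih =>
      rw [List.foldr_cons]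
      generalize l.foldr unpStep ([], [], []) = s at ih ⊢
      obtain ⟨s1, s2, s3⟩ := s
      cases s1 with
      | nil => simp only [unpStep] at ih ⊢; simp at ih ⊢; omega
      | cons c s1 => cases b <;> (simp only [unpStep] at ih ⊢; simp at ih ⊢; omega)
  have h := key l
  generalize l.foldr unpStep ([], [], []) = s at h ⊢
  obtain ⟨s1, s2, s3⟩ := s
  have h1 := sz_lbool_le s1
  have h2 := sz_lbool_le s2
  have h3 := sz_lbool_le s3
  simp only [sz_pair] at h ⊢
  omega

theorem Poly.unpair {f : α → List Bool} (hf : Poly f) : Poly (fun a => unpair (f a)) := by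
  have hs : Poly (fun p : α × (List Bool × List Bool × List Bool) × Bool =>
      unpStep p.2.2 p.2.1) := by
    unfold unpStep
    fun_prop
  have key := Poly.foldr (f := fun p : α × (List Bool × List Bool × List Bool) × Bool =>
      unpStep p.2.2 p.2.1) (l := f)
    (s0 := fun _ => ([], [], [])) (B := fun a => 4 * sz (f a) + 5) hs hf (by fun_prop)
    (((PBdd.const 4).mul hf.sz_le).add (PBdd.const 5)) (by
      intro a l₁ l₂ h
      have h1 := unp_sz l₂
      have h2 := length_lt_sz (f a)
      rw [h, List.length_append] at h2
      rw [h]
      have h3 : sz (l₂.foldr (fun b s => unpStep b s)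
        (([] : List Bool), ([] : List Bool), ([] : List Bool))) ≤ 4 * l₂.length + 5 := h1
      simp only
      omega)
  have k : Poly (fun a => ((f a).foldr unpStep ([], [], [])).2) := Poly.snd.comp key
  exact k

theorem tm_pair {g : List Bool → Bool} (hg : Poly g) :
    Nonempty (Turing.TM2ComputableInPolyTime pairCode Computability.encodeBool
      (fun z : List Bool × List Bool => g (pairCode z))) := by
  obtain ⟨h⟩ := Poly.tm2_raw_bool hg
  exact ⟨{ tm := h.tm
           inputAlphabet := h.inputAlphabet
           outputAlphabet := h.outputAlphabet
           time := h.time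
           outputsFun := fun z => h.outputsFun (pairCode z) }⟩

end Pool.Agent.TI
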