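import Mathlib

/-!
# Module Md: random moduli

`md_count`: let `M = 2 ^ w`, `C = choose M (M / 2) ≥ 2 ^ M / M`
(`Nat.four_pow_le_two_mul_self_mul_centralBinom`). For every prime `p` the power `p ^ v_p(C)` is at
most `M` (`Nat.pow_factorization_choose_le`), so it divides `d` or is one of the numbers `m` in
`[1, M]` which do not divide `d`; if `S` is the set of these `m`, then `C ≤ d * M ^ #S` (the product
over the primes of the first kind divides `d`; the map `p ↦ p ^ v_p(C)` is injective on the primes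
with `v_p(C) ≥ 1`). Hence `M - w ≤ c + w * #S`.

`amp`: `(2 w / (2 w - 1)) ^ (6 w) ≥ 1 + 6 w / (2 w - 1) ≥ 4` (Bernoulli).
-/

namespace Pool.Agent.TI

theorem choose_le_mul (M d : ℕ) (hM : 1 ≤ M) (hd : 0 < d) :
    Nat.choose M (M / 2) ≤
      d * M ^ ((Finset.Icc 1 M).filter fun m => ¬ m ∣ d).card := by
  classical
  set C := Nat.choose M (M / 2) with hC
  have hC0 : C ≠ 0 := (Nat.choose_pos (Nat.div_le_self M 2)).ne'
  set f : ℕ → ℕ := fun p => p ^ C.factorization p with hf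
  have hprod : ∏ p ∈ C.primeFactors, f p = C :=
    Nat.prod_factorization_pow_eq_self hC0
  have hle : ∀ p, f p ≤ M := fun p => Nat.pow_factorization_choose_le hM
  have hsplit := Finset.prod_filter_mul_prod_filter_not C.primeFactors (fun p => f p ∣ d) f
  have hA : ∏ p ∈ C.primeFactors.filter (fun p => f p ∣ d), f p ≤ d := by
    apply Nat.le_of_dvd hd
    apply Finset.prod_dvd_of_isRelPrime
    · intro p hp q hq hpq
      have hp1 : p.Prime := Nat.prime_of_mem_primeFactors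
        (Finset.mem_filter.1 (Finset.mem_coe.1 hp)).1
      have hq1 : q.Prime := Nat.prime_of_mem_primeFactors
        (Finset.mem_filter.1 (Finset.mem_coe.1 hq)).1
      exact Nat.coprime_iff_isRelPrime.1
        (Nat.Coprime.pow _ _ ((Nat.coprime_primes hp1 hq1).2 hpq))
    · intro p hp
      exact (Finset.mem_filter.1 hp).2
  have hB1 : ∏ p ∈ C.primeFactors.filter (fun p => ¬ f p ∣ d), f p ≤
      M ^ (C.primeFactors.filter (fun p => ¬ f p ∣ d)).card :=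
    Finset.prod_le_pow_card _ _ _ fun p _ => hle p
  have hB2 : (C.primeFactors.filter (fun p => ¬ f p ∣ d)).card ≤
      ((Finset.Icc 1 M).filter fun m => ¬ m ∣ d).card := by
    apply Finset.card_le_card_of_injOn f
    · intro p hp
      have hp2 := Finset.mem_filter.1 (Finset.mem_coe.1 hp)
      have hp1 : p.Prime := Nat.prime_of_mem_primeFactors hp2.1
      exact Finset.mem_coe.2 (Finset.mem_filter.2
        ⟨Finset.mem_Icc.2 ⟨Nat.pos_of_ne_zero (pow_ne_zero _ hp1.ne_zero), hle p⟩, hp2.2⟩)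
    · intro p hp q hq hpq
      have hp2 := Finset.mem_filter.1 (Finset.mem_coe.1 hp)
      have hq2 := Finset.mem_filter.1 (Finset.mem_coe.1 hq)
      have hp1 : p.Prime := Nat.prime_of_mem_primeFactors hp2.1
      have hq1 : q.Prime := Nat.prime_of_mem_primeFactors hq2.1
      have hv : C.factorization p ≠ 0 :=
        (hp1.factorization_pos_of_dvd hC0 (Nat.dvd_of_mem_primeFactors hp2.1)).ne'
      have h1 : p ∣ q ^ C.factorization q := by
        have h2 : p ∣ p ^ C.factorization p := dvd_pow_self p hv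
        have h3 : p ^ C.factorization p = q ^ C.factorization q := hpq
        rwa [h3] at h2
      exact (Nat.prime_dvd_prime_iff_eq hp1 hq1).1 (hp1.dvd_of_dvd_pow h1)
  calc C = ∏ p ∈ C.primeFactors, f p := hprod.symm
    _ = (∏ p ∈ C.primeFactors.filter (fun p => f p ∣ d), f p) *
        ∏ p ∈ C.primeFactors.filter (fun p => ¬ f p ∣ d), f p := hsplit.symm
    _ ≤ d * M ^ (C.primeFactors.filter (fun p => ¬ f p ∣ d)).card :=
        Nat.mul_le_mul hA hB1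
    _ ≤ d * M ^ ((Finset.Icc 1 M).filter fun m => ¬ m ∣ d).card :=
        Nat.mul_le_mul_left _ (Nat.pow_le_pow_right hM hB2)

theorem md_count {w c d : ℕ} (hw : 1 ≤ w) (hd : 0 < d) (hdc : d < 2 ^ c)
    (h : 2 * (c + w) ≤ 2 ^ w) :
    2 ^ w ≤ 2 * w * ((Finset.Icc 1 (2 ^ w)).filter fun m => ¬ m ∣ d).card := by
  set S := ((Finset.Icc 1 (2 ^ w)).filter fun m => ¬ m ∣ d).card with hS
  obtain ⟨v, rfl⟩ : ∃ v, w = v + 1 := ⟨w - 1, by omega⟩
  have hk : 2 ^ (v + 1) / 2 = 2 ^ v := by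
    rw [pow_succ]
    exact Nat.mul_div_cancel _ (by norm_num)
  have h1 := choose_le_mul (2 ^ (v + 1)) d Nat.one_le_two_pow hd
  rw [hk, ← hS] at h1
  have h2 := Nat.four_pow_le_two_mul_self_mul_centralBinom (2 ^ v) (by positivity)
  have h3 : 2 * 2 ^ v = 2 ^ (v + 1) := by ring
  rw [Nat.centralBinom, h3] at h2
  have h4 : (4 : ℕ) ^ (2 ^ v) = 2 ^ (2 ^ (v + 1)) := by
    rw [show (4 : ℕ) = 2 ^ 2 by norm_num, ← pow_mul, h3]
  rw [h4] at h2
  have h5 : (2 : ℕ) ^ (2 ^ (v + 1)) < 2 ^ ((v + 1) + c + (v + 1) * S) := by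
    calc (2 : ℕ) ^ (2 ^ (v + 1)) ≤ 2 ^ (v + 1) * (2 ^ (v + 1)).choose (2 ^ v) := h2
      _ ≤ 2 ^ (v + 1) * (d * (2 ^ (v + 1)) ^ S) := Nat.mul_le_mul_left _ h1
      _ < 2 ^ (v + 1) * (2 ^ c * (2 ^ (v + 1)) ^ S) := by
          apply Nat.mul_lt_mul_of_pos_left _ (by positivity)
          exact Nat.mul_lt_mul_of_pos_right hdc (by positivity)
      _ = 2 ^ ((v + 1) + c + (v + 1) * S) := by
          rw [← pow_mul, pow_add, pow_add]
          ring
  have h6 : 2 ^ (v + 1) < (v + 1) + c + (v + 1) * S :=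
    (Nat.pow_lt_pow_iff_right (by norm_num)).1 h5
  have h7 : 2 * (v + 1) * S = 2 * ((v + 1) * S) := by ring
  rw [h7]
  omega

private lemma amp_aux {w : ℕ} (hw : 1 ≤ w) : 4 * (2 * w - 1) ^ (6 * w) ≤ (2 * w) ^ (6 * w) := by
  obtain ⟨v, rfl⟩ : ∃ v, w = v + 1 := ⟨w - 1, by omega⟩
  have ha : 2 * (v + 1) - 1 = 2 * v + 1 := by omega
  rw [ha]
  have hpos : (0 : ℝ) < 2 * (v : ℝ) + 1 := by positivity
  have hb : (1 : ℝ) + ((6 * (v + 1) : ℕ) : ℝ) * (1 / (2 * (v : ℝ) + 1)) ≤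
      (1 + 1 / (2 * (v : ℝ) + 1)) ^ (6 * (v + 1)) := by
    apply one_add_mul_le_pow
    have : (0 : ℝ) ≤ 1 / (2 * (v : ℝ) + 1) := by positivity
    linarith
  have hc : (4 : ℝ) ≤ 1 + ((6 * (v + 1) : ℕ) : ℝ) * (1 / (2 * (v : ℝ) + 1)) := by
    have h3 : (3 : ℝ) ≤ ((6 * (v + 1) : ℕ) : ℝ) * (1 / (2 * (v : ℝ) + 1)) := by
      rw [mul_one_div, le_div_iff₀ hpos]
      push_cast
      nlinarith [(Nat.cast_nonneg v : (0 : ℝ) ≤ v)]
    linarith
  have hd : ((4 * (2 * v + 1) ^ (6 * (v + 1)) : ℕ) : ℝ) ≤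
      (((2 * (v + 1)) ^ (6 * (v + 1)) : ℕ) : ℝ) := by
    have h4 : (((2 * (v + 1)) ^ (6 * (v + 1)) : ℕ) : ℝ) =
        (2 * (v : ℝ) + 1) ^ (6 * (v + 1)) * (1 + 1 / (2 * (v : ℝ) + 1)) ^ (6 * (v + 1)) := by
      rw [← mul_pow]
      push_cast
      congr 1
      field_simp
      ring
    rw [h4]
    push_cast
    have h5 : (0 : ℝ) ≤ (2 * (v : ℝ) + 1) ^ (6 * (v + 1)) := by positivity
    calc (4 : ℝ) * (2 * (v : ℝ) + 1) ^ (6 * (v + 1))
        = (2 * (v : ℝ) + 1) ^ (6 * (v + 1)) * 4 := by ring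
      _ ≤ (2 * (v : ℝ) + 1) ^ (6 * (v + 1)) * (1 + 1 / (2 * (v : ℝ) + 1)) ^ (6 * (v + 1)) :=
          mul_le_mul_of_nonneg_left (hc.trans hb) h5
  exact_mod_cast hd

theorem amp {w N D : ℕ} (hw : 1 ≤ w) (h : 2 * w * D ≤ (2 * w - 1) * N) :
    4 * D ^ (6 * w) ≤ N ^ (6 * w) := by
  have h1 := Nat.pow_le_pow_left h (6 * w)
  rw [mul_pow, mul_pow (2 * w - 1) N] at h1
  have h2 := amp_aux hw
  have hpos : 0 < (2 * w) ^ (6 * w) := Nat.pow_pos (by omega)
  apply Nat.le_of_mul_le_mul_left _ hpos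
  calc (2 * w) ^ (6 * w) * (4 * D ^ (6 * w)) = 4 * ((2 * w) ^ (6 * w) * D ^ (6 * w)) := by ring
    _ ≤ 4 * ((2 * w - 1) ^ (6 * w) * N ^ (6 * w)) := Nat.mul_le_mul_left _ h1
    _ = 4 * (2 * w - 1) ^ (6 * w) * N ^ (6 * w) := by ring
    _ ≤ (2 * w) ^ (6 * w) * N ^ (6 * w) := Nat.mul_le_mul_right _ h2

end Pool.Agent.TI
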