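import Mathlib

/-!
# Module Hyb: the hybrid argument

`hybrid`: `G` depends on the first `R` coordinates only; on every line on which `G` holds
somewhere it fails at no more than `Z` points. If `G` holds at `y0`, then for independent uniform
`ρ_0, ..., ρ_{R-1} ∈ W` the condition `G` fails at the point `(X ρ_0, ..., X ρ_{R-1})` with
probability at most `R Z c / #W`, where every value of `X` is taken at most `c` times.

Let `y_j ρ i = X (ρ i)` for `i < j` and `y0 i` otherwise. By induction on `j ≤ R`: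
`#W * #{ρ | ¬ G (y_j ρ)} ≤ j * Z * c * #W ^ R`. Step: if `G (y_j ρ)` and not `G (y_{j+1} ρ)`, where
`y_{j+1} ρ = update (y_j ρ) j (X (ρ j))`. With `double_count` for the set `A` of these `ρ`: for
fixed `ρ` the number of `t : W` with `update ρ j t ∈ A` is at most `Z c` (`y_j (update ρ j t) =
y_j ρ` does not depend on `t`, the values `X t` are in the exceptional set of the line, which is
finite with at most `Z` elements: otherwise it has a finite subset with `Z + 1` elements).
-/

namespace Pool.Agent.TI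

/-- Both sides count the pairs `(ρ, t)` with `update ρ j t ∈ A`. -/
theorem double_count {R : ℕ} {W : Type} [Fintype W] [DecidableEq W] (j : Fin R)
    (A : Finset (Fin R → W)) :
    Fintype.card W * A.card =
      ∑ ρ : Fin R → W, (Finset.univ.filter fun t : W => Function.update ρ j t ∈ A).card := by
  classical
  let f : (Fin R → W) × W → (Fin R → W) × W := fun p => (Function.update p.1 j p.2, p.1 j)
  have hf : Function.Involutive f := by
    rintro ⟨ρ, t⟩
    simp [f]
  have h1 : ∑ ρ : Fin R → W, (Finset.univ.filter fun t : W => Function.update ρ j t ∈ A).card =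
      ∑ p : (Fin R → W) × W, if (f p).1 ∈ A then 1 else 0 := by
    rw [Fintype.sum_prod_type]
    refine Finset.sum_congr rfl fun ρ _ => ?_
    rw [Finset.card_filter]
  have h2 : (∑ p : (Fin R → W) × W, if (f p).1 ∈ A then 1 else 0) =
      ∑ p : (Fin R → W) × W, if p.1 ∈ A then 1 else 0 :=
    Equiv.sum_comp (hf.toPerm f) (fun p : (Fin R → W) × W => if p.1 ∈ A then 1 else 0)
  have h3 : ∀ ρ : Fin R → W, (∑ _t : W, if ρ ∈ A then 1 else 0) =
      Fintype.card W * if ρ ∈ A then 1 else 0 := by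
    intro ρ
    rw [Finset.sum_const, Finset.card_univ, smul_eq_mul]
  rw [h1, h2, Fintype.sum_prod_type, Finset.sum_congr rfl fun ρ _ => h3 ρ, ← Finset.mul_sum,
    Finset.sum_boole, Finset.filter_mem_eq_inter, Finset.univ_inter, Nat.cast_id]

/-- the hybrid point: the first `j` coordinates are random -/
private def Hyb_y {R : ℕ} {W : Type} (X : W → ℕ) (y0 : ℕ → ℕ) (j : ℕ) (ρ : Fin R → W) : ℕ → ℕ :=
  fun i => if h : i < R then (if i < j then X (ρ ⟨i, h⟩) else y0 i) else y0 i

private theorem Hyb_old {R : ℕ} {W : Type} [DecidableEq W] (X : W → ℕ) (y0 : ℕ → ℕ) (j : ℕ)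
    (hj : j < R) (ρ : Fin R → W) (t : W) :
    Hyb_y X y0 j (Function.update ρ ⟨j, hj⟩ t) = Hyb_y X y0 j ρ := by
  funext i
  unfold Hyb_y
  split_ifs with h1 h2
  · rw [Function.update_of_ne]
    intro h3
    have h4 := congrArg Fin.val h3
    simp only at h4
    omega
  · rfl
  · rfl

private theorem Hyb_new {R : ℕ} {W : Type} [DecidableEq W] (X : W → ℕ) (y0 : ℕ → ℕ) (j : ℕ)
    (hj : j < R) (ρ : Fin R → W) (t : W) :
    Hyb_y X y0 (j + 1) (Function.update ρ ⟨j, hj⟩ t) =
      Function.update (Hyb_y X y0 j ρ) j (X t) := by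
  funext i
  by_cases hi : i = j
  · subst hi
    unfold Hyb_y
    rw [Function.update_self, dif_pos hj, if_pos (Nat.lt_succ_self i), Function.update_self]
  · rw [Function.update_of_ne hi]
    unfold Hyb_y
    split_ifs with h1 h2 h3 h4
    · rw [Function.update_of_ne]
      intro h5
      exact hi (congrArg Fin.val h5)
    · omega
    · omega
    · rfl
    · rfl

open Classical in
private theorem Hyb_fib {R : ℕ} {W : Type} [Fintype W] [DecidableEq W] (X : W → ℕ) (c Z : ℕ)
    (hX : ∀ v, (Finset.univ.filter fun ω => X ω = v).card ≤ c) (G : (ℕ → ℕ) → Prop)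
    (hG : ∀ (j : ℕ) (y : ℕ → ℕ), (∃ v, G (Function.update y j v)) → ∀ S : Finset ℕ,
      (∀ v ∈ S, ¬ G (Function.update y j v)) → S.card ≤ Z) (y0 : ℕ → ℕ) (j : ℕ) (hj : j < R)
    (ρ : Fin R → W) :
    (Finset.univ.filter fun t : W => G (Hyb_y X y0 j (Function.update ρ ⟨j, hj⟩ t)) ∧
      ¬ G (Hyb_y X y0 (j + 1) (Function.update ρ ⟨j, hj⟩ t))).card ≤ Z * c := by
  by_cases h0 : G (Hyb_y X y0 j ρ)
  · obtain ⟨F, hF⟩ : ∃ F : Finset W, F = Finset.univ.filter fun t : W =>
        G (Hyb_y X y0 j (Function.update ρ ⟨j, hj⟩ t)) ∧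
        ¬ G (Hyb_y X y0 (j + 1) (Function.update ρ ⟨j, hj⟩ t)) := ⟨_, rfl⟩
    rw [← hF]
    have h1 : (F.image X).card ≤ Z := by
      refine hG j (Hyb_y X y0 j ρ) ⟨Hyb_y X y0 j ρ j, ?_⟩ _ ?_
      · rwa [Function.update_eq_self]
      · intro v hv
        obtain ⟨t, ht, rfl⟩ := Finset.mem_image.1 hv
        rw [hF, Finset.mem_filter] at ht
        have h2 := ht.2.2
        rwa [Hyb_new] at h2
    have h2 : F.card ≤ c * (F.image X).card := by
      refine Finset.card_le_mul_card_image F c fun v _ => ?_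
      refine (Finset.card_le_card ?_).trans (hX v)
      exact Finset.filter_subset_filter _ (Finset.subset_univ _)
    calc F.card ≤ c * (F.image X).card := h2
      _ ≤ c * Z := Nat.mul_le_mul_left _ h1
      _ = Z * c := mul_comm _ _
  · have h1 : (Finset.univ.filter fun t : W => G (Hyb_y X y0 j (Function.update ρ ⟨j, hj⟩ t)) ∧
        ¬ G (Hyb_y X y0 (j + 1) (Function.update ρ ⟨j, hj⟩ t))) = ∅ := by
      rw [Finset.filter_eq_empty_iff]
      rintro t - ⟨h2, -⟩
      rw [Hyb_old] at h2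
      exact h0 h2
    rw [h1, Finset.card_empty]
    exact Nat.zero_le _

open Classical in
private theorem Hyb_ind {R : ℕ} {W : Type} [Fintype W] [DecidableEq W] (X : W → ℕ) (c Z : ℕ)
    (hX : ∀ v, (Finset.univ.filter fun ω => X ω = v).card ≤ c) (G : (ℕ → ℕ) → Prop)
    (hG : ∀ (j : ℕ) (y : ℕ → ℕ), (∃ v, G (Function.update y j v)) → ∀ S : Finset ℕ,
      (∀ v ∈ S, ¬ G (Function.update y j v)) → S.card ≤ Z) (y0 : ℕ → ℕ) (h0 : G y0) (j : ℕ) :
    j ≤ R → Fintype.card W *
      (Finset.univ.filter fun ρ : Fin R → W => ¬ G (Hyb_y X y0 j ρ)).card ≤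
        j * Z * c * Fintype.card W ^ R := by
  induction j with
  | zero =>
    intro _
    have h1 : (Finset.univ.filter fun ρ : Fin R → W => ¬ G (Hyb_y X y0 0 ρ)) = ∅ := by
      rw [Finset.filter_eq_empty_iff]
      intro ρ _
      have h2 : Hyb_y X y0 0 ρ = y0 := by
        funext i
        unfold Hyb_y
        split_ifs with h1 h2
        · omega
        · rfl
        · rfl
      rw [h2, not_not]
      exact h0
    rw [h1, Finset.card_empty, mul_zero]
    exact Nat.zero_le _
  | succ j ih =>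
    intro hj
    have hj' : j < R := hj
    obtain ⟨A, hA⟩ : ∃ A : Finset (Fin R → W), A = Finset.univ.filter fun ρ : Fin R → W =>
        G (Hyb_y X y0 j ρ) ∧ ¬ G (Hyb_y X y0 (j + 1) ρ) := ⟨_, rfl⟩
    have h1 : (Finset.univ.filter fun ρ : Fin R → W => ¬ G (Hyb_y X y0 (j + 1) ρ)) ⊆
        (Finset.univ.filter fun ρ : Fin R → W => ¬ G (Hyb_y X y0 j ρ)) ∪ A := by
      intro ρ hρ
      rw [Finset.mem_filter] at hρ
      rw [Finset.mem_union, hA, Finset.mem_filter, Finset.mem_filter]
      by_cases h2 : G (Hyb_y X y0 j ρ)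
      · exact Or.inr ⟨Finset.mem_univ _, h2, hρ.2⟩
      · exact Or.inl ⟨Finset.mem_univ _, h2⟩
    have h2 : Fintype.card W * A.card ≤ Fintype.card W ^ R * (Z * c) := by
      rw [double_count ⟨j, hj'⟩ A]
      have h3 : ∀ ρ ∈ (Finset.univ : Finset (Fin R → W)),
          (Finset.univ.filter fun t : W => Function.update ρ ⟨j, hj'⟩ t ∈ A).card ≤ Z * c := by
        intro ρ _
        refine le_trans (Finset.card_le_card ?_) (Hyb_fib X c Z hX G hG y0 j hj' ρ)
        intro t ht
        rw [Finset.mem_filter, hA, Finset.mem_filter] at ht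
        exact Finset.mem_filter.2 ⟨Finset.mem_univ _, ht.2.2⟩
      refine (Finset.sum_le_card_nsmul _ _ _ h3).trans ?_
      rw [Finset.card_univ, smul_eq_mul, Fintype.card_fun, Fintype.card_fin]
    calc Fintype.card W *
          (Finset.univ.filter fun ρ : Fin R → W => ¬ G (Hyb_y X y0 (j + 1) ρ)).card
        ≤ Fintype.card W *
          ((Finset.univ.filter fun ρ : Fin R → W => ¬ G (Hyb_y X y0 j ρ)).card + A.card) :=
          Nat.mul_le_mul_left _ ((Finset.card_le_card h1).trans (Finset.card_union_le _ _))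
      _ = Fintype.card W * (Finset.univ.filter fun ρ : Fin R → W => ¬ G (Hyb_y X y0 j ρ)).card +
          Fintype.card W * A.card := Nat.mul_add _ _ _
      _ ≤ j * Z * c * Fintype.card W ^ R + Fintype.card W ^ R * (Z * c) :=
          Nat.add_le_add (ih (by omega)) h2
      _ = (j + 1) * Z * c * Fintype.card W ^ R := by ring

theorem hybrid {R : ℕ} {W : Type} [Fintype W] [DecidableEq W] (X : W → ℕ) (c Z : ℕ)
    (hX : ∀ v, (Finset.univ.filter fun ω => X ω = v).card ≤ c) (G : (ℕ → ℕ) → Prop)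
    (hG : ∀ (j : ℕ) (y : ℕ → ℕ), (∃ v, G (Function.update y j v)) → ∀ S : Finset ℕ,
      (∀ v ∈ S, ¬ G (Function.update y j v)) → S.card ≤ Z)
    (hdep : ∀ y y' : ℕ → ℕ, (∀ j < R, y j = y' j) → (G y ↔ G y')) (y0 : ℕ → ℕ) (h0 : G y0) :
    Fintype.card W *
        Nat.card {ρ : Fin R → W // ¬ G (fun j => if h : j < R then X (ρ ⟨j, h⟩) else 0)} ≤
      R * Z * c * Fintype.card W ^ R := by
  classical
  have h1 := Hyb_ind (R := R) X c Z hX G hG y0 h0 R le_rfl
  have h2 : Nat.card {ρ : Fin R → W // ¬ G (fun j => if h : j < R then X (ρ ⟨j, h⟩) else 0)} =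
      (Finset.univ.filter fun ρ : Fin R → W => ¬ G (Hyb_y X y0 R ρ)).card := by
    rw [Nat.card_eq_fintype_card, Fintype.card_subtype]
    congr 1
    ext ρ
    rw [Finset.mem_filter, Finset.mem_filter]
    have h3 : G (fun j => if h : j < R then X (ρ ⟨j, h⟩) else 0) ↔ G (Hyb_y X y0 R ρ) := by
      refine hdep _ _ fun j hj => ?_
      unfold Hyb_y
      rw [dif_pos hj, dif_pos hj, if_pos hj]
    rw [h3]
  rw [h2]
  exact h1

end Pool.Agent.TI
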