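import Mathlib

/-!
# Definitions used in the statement

Terms of high-school arithmetic, tame terms, their strings, and the class coRP.
-/

namespace Pool.Agent.TI

/-- Terms of high-school arithmetic. The variables are indexed by bit strings. -/
inductive Tm : Type
  | one : Tm
  | var (w : List Bool) : Tm
  | add (s t : Tm) : Tm
  | mul (s t : Tm) : Tm
  | pow (s t : Tm) : Tm
  deriving DecidableEq

/-- The value of a term under an assignment. -/
def Tm.val (x : List Bool → ℕ) : Tm → ℕ
  | .one => 1
  | .var w => x w
  | .add s t => s.val x + t.val x
  | .mul s t => s.val x * t.val x
  | .pow s t => s.val x ^ t.val x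

/-- The identity `s = t` holds in `N_HS`: the terms have the same value under every assignment of
positive integers. -/
def Valid (s t : Tm) : Prop :=
  ∀ x : List Bool → ℕ, (∀ w, 0 < x w) → s.val x = t.val x

/-- The term contains no exponentiation. -/
def Tm.ExpFree : Tm → Prop
  | .one => True
  | .var _ => True
  | .add s t => s.ExpFree ∧ t.ExpFree
  | .mul s t => s.ExpFree ∧ t.ExpFree
  | .pow _ _ => False

/-- The term is built from exponentiation-free terms by multiplication and by exponentiation with
exponentiation-free exponents. -/
def Tm.Base : Tm → Prop
  | .one => True
  | .var _ => True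
  | .add s t => s.ExpFree ∧ t.ExpFree
  | .mul s t => s.Base ∧ t.Base
  | .pow s t => s.Base ∧ t.ExpFree

/-- Tame terms: the exponents contain no exponentiation, and no sum containing an exponentiation
is raised to a power. -/
def Tm.Tame : Tm → Prop
  | .one => True
  | .var _ => True
  | .add s t => s.Tame ∧ t.Tame
  | .mul s t => s.Tame ∧ t.Tame
  | .pow s t => s.Base ∧ t.ExpFree

/-- The string of a term, in Polish notation over the alphabet `1`, `+`, `·`, `^`, `x` and the
digits `0` and `1`, the seven symbols being written `000`, `001`, `010`, `011`, `100`, `110` and
`111`. The variable with index `w` is written `x` followed by the digits of `w`. -/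
def Tm.code : Tm → List Bool
  | .one => [false, false, false]
  | .var w => [true, false, false] ++ w.flatMap (fun b => [true, true, b])
  | .add s t => [false, false, true] ++ s.code ++ t.code
  | .mul s t => [false, true, false] ++ s.code ++ t.code
  | .pow s t => [false, true, true] ++ s.code ++ t.code

/-- The strings of the identities between tame terms which hold in `N_HS`. -/
def tameIdentities : Set (List Bool) :=
  {x | ∃ s t : Tm, s.Tame ∧ t.Tame ∧ Valid s t ∧ x = s.code ++ t.code}

/-- Two bit strings as one: every bit of the first string is preceded by `true`, every bit of the
second by `false`. -/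
def pairCode (z : List Bool × List Bool) : List Bool :=
  z.1.flatMap (fun b => [true, b]) ++ z.2.flatMap (fun b => [false, b])

/-- The probability that a uniformly random bit string of length `m` has the property `P`. -/
noncomputable def prob (m : ℕ) (P : List Bool → Prop) : ℝ :=
  (Nat.card {r : Fin m → Bool // P (List.ofFn r)} : ℝ) / 2 ^ m

/-- The language is in coRP: there are a polynomial `p` and a polynomial-time algorithm `V` (on
Turing machines) such that `V` accepts every `x` in the language whatever the random bits are,
and accepts every other `x` with probability at most `1 / 2` over `p (length of x)` random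
bits. -/
def CoRP (L : Set (List Bool)) : Prop :=
  ∃ (p : Polynomial ℕ) (V : List Bool × List Bool → Bool),
    Nonempty (Turing.TM2ComputableInPolyTime pairCode Computability.encodeBool V) ∧
    ∀ x : List Bool, (x ∈ L → ∀ r : List Bool, V (x, r) = true) ∧
      (x ∉ L → prob (p.eval x.length) (fun r => V (x, r) = true) ≤ 1 / 2)

end Pool.Agent.TI
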