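import Pool.Agent.H.MP_b2d7dd_lc.TI.Ar
import Pool.Agent.H.MP_b2d7dd_lc.TI.Defs

/-!
# Module Blk: parameters and blocks of random bits

For inputs of length `n` the random bits are `TT n` blocks of `wA n` bits: `n + 1` blocks for the
base values (`XA` = value of the block plus one), `n + 1` blocks for the exponent values (`XB` =
value of the first `wB n` bits plus one), `KK n` blocks for the moduli (`XA`).
-/

namespace Pool.Agent.TI

open Pool.Agent.H.MP_5be563_lc.PT

/-- The number of bits of an exponent value. -/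
def wB (n : ℕ) : ℕ := 5 * n + 10

/-- The number of bits of a block. -/
def wA (n : ℕ) : ℕ := 2 * n * wB n + 10

/-- The number of moduli. -/
def KK (n : ℕ) : ℕ := 6 * wA n

/-- The number of blocks. -/
def TT (n : ℕ) : ℕ := (n + 1) + (n + 1) + KK n

theorem exists_pT : ∃ p : Polynomial ℕ, ∀ n, p.eval n = TT n * wA n := by
  refine ⟨((Polynomial.X + 1) + (Polynomial.X + 1) +
    6 * (2 * Polynomial.X * (5 * Polynomial.X + 10) + 10)) *
    (2 * Polynomial.X * (5 * Polynomial.X + 10) + 10), fun n => ?_⟩
  simp only [Polynomial.eval_mul, Polynomial.eval_add, Polynomial.eval_X, Polynomial.eval_one,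
    Polynomial.eval_ofNat, TT, KK, wA, wB]

/-- The `j`-th block. -/
def blk (n : ℕ) (r : List Bool) (j : ℕ) : List Bool := (r.drop (j * wA n)).take (wA n)

/-- The value of a block. -/
def XA {w : ℕ} (ω : Fin w → Bool) : ℕ := bval (List.ofFn ω) + 1

/-- The value of the first `v` bits of a block. -/
def XB (v : ℕ) {w : ℕ} (ω : Fin w → Bool) : ℕ := bval ((List.ofFn ω).take v) + 1

private theorem Blk_len_inj : ∀ l m : List Bool, l.length = m.length → bval l = bval m → l = m := by
  intro l
  induction l with
  | nil =>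
    intro m h _
    exact (List.length_eq_zero_iff.1 h.symm).symm
  | cons b l ih =>
    intro m h hb
    cases m with
    | nil => simp at h
    | cons c m =>
      rw [bval_cons, bval_cons] at hb
      have h1 : l.length = m.length := by simpa using h
      have h2 : b = c := by
        cases b <;> cases c <;> simp at hb ⊢ <;> omega
      subst h2
      rw [ih m h1 (by omega)]

private theorem Blk_lt (l : List Bool) : bval l < 2 ^ l.length := by
  induction l with
  | nil => simp
  | cons b l ih =>
    rw [bval_cons, List.length_cons, pow_succ]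
    have : b.toNat ≤ 1 := Bool.toNat_le b
    omega

private theorem Blk_surj : ∀ w k : ℕ, k < 2 ^ w → ∃ l : List Bool, l.length = w ∧ bval l = k := by
  intro w
  induction w with
  | zero =>
    intro k hk
    exact ⟨[], rfl, by simp at hk ⊢; exact hk.symm⟩
  | succ w ih =>
    intro k hk
    rw [pow_succ] at hk
    obtain ⟨l, hl, hb⟩ := ih (k / 2) (by omega)
    refine ⟨decide (k % 2 = 1) :: l, by rw [List.length_cons, hl], ?_⟩
    rw [bval_cons, hb]
    rcases Nat.mod_two_eq_zero_or_one k with h | h <;> simp [h] <;> omega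

private theorem Blk_flat (w : ℕ) : ∀ (L : List (List Bool)) (_ : ∀ l ∈ L, l.length = w) (j : ℕ)
    (hj : j < L.length), ((L.flatten).drop (j * w)).take w = L[j] := by
  intro L
  induction L with
  | nil =>
    intro _ j hj
    simp at hj
  | cons l L ih =>
    intro hL j hj
    have h1 : l.length = w := hL l (by simp)
    cases j with
    | zero =>
      rw [List.flatten_cons, Nat.zero_mul, List.drop_zero, List.getElem_cons_zero, ← h1,
        List.take_left]
    | succ j =>
      rw [List.flatten_cons, Nat.add_mul, Nat.one_mul, Nat.add_comm, ← List.drop_drop]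
      have h2 : (l ++ L.flatten).drop w = L.flatten := by rw [← h1, List.drop_left]
      rw [h2, List.getElem_cons_succ]
      exact ih (fun l hl => hL l (by simp [hl])) j (by simpa using hj)

theorem XA_inj {w : ℕ} : Function.Injective (XA : (Fin w → Bool) → ℕ) := by
  intro a b h
  unfold XA at h
  exact List.ofFn_injective (Blk_len_inj _ _ (by simp) (by omega))

theorem XA_le {w : ℕ} (ω : Fin w → Bool) : XA ω ≤ 2 ^ w := by
  have h := Blk_lt (List.ofFn ω)
  rw [List.length_ofFn] at h
  exact h

theorem XB_le {v w : ℕ} (ω : Fin w → Bool) : XB v ω ≤ 2 ^ v := by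
  have h := Blk_lt ((List.ofFn ω).take v)
  exact h.trans_le (Nat.pow_le_pow_right (by norm_num) (List.length_take_le _ _))

/-- Injectivity and the cardinalities. -/
theorem XA_surj {w m : ℕ} (h1 : 1 ≤ m) (h2 : m ≤ 2 ^ w) : ∃ ω : Fin w → Bool, XA ω = m := by
  obtain ⟨l, hl, hb⟩ := Blk_surj w (m - 1) (by omega)
  subst hl
  refine ⟨l.get, ?_⟩
  unfold XA
  rw [List.ofFn_get, hb]
  omega

theorem card_XA_le {w : ℕ} (v : ℕ) :
    (Finset.univ.filter fun ω : Fin w → Bool => XA ω = v).card ≤ 1 := by
  rw [Finset.card_le_one]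
  intro a ha b hb
  rw [Finset.mem_filter] at ha hb
  exact XA_inj (ha.2.trans hb.2.symm)

theorem card_XB_le {v w : ℕ} (h : v ≤ w) (u : ℕ) :
    (Finset.univ.filter fun ω : Fin w → Bool => XB v ω = u).card ≤ 2 ^ (w - v) := by
  have h1 : (Finset.univ : Finset (Fin (w - v) → Bool)).card = 2 ^ (w - v) := by simp
  rw [← h1]
  refine Finset.card_le_card_of_injOn (fun ω i => ω ⟨v + i, by omega⟩)
    (fun _ _ => Finset.mem_coe.2 (Finset.mem_univ _)) ?_
  intro a ha b hb hab
  rw [Finset.mem_coe, Finset.mem_filter] at ha hb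
  have h2 : XB v a = XB v b := ha.2.trans hb.2.symm
  unfold XB at h2
  have h3 : (List.ofFn a).take v = (List.ofFn b).take v :=
    Blk_len_inj _ _ (by simp) (by omega)
  funext i
  by_cases hi : (i : ℕ) < v
  · have h4 : ((List.ofFn a).take v)[(i : ℕ)]? = ((List.ofFn b).take v)[(i : ℕ)]? := by rw [h3]
    rw [List.getElem?_take_of_lt hi, List.getElem?_take_of_lt hi] at h4
    simpa [List.getElem?_ofFn] using h4
  · have h4 := congrFun hab ⟨(i : ℕ) - v, by omega⟩
    have h5 : (⟨v + ((i : ℕ) - v), by omega⟩ : Fin w) = i := Fin.ext (by simp; omega)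
    simp only [h5] at h4
    exact h4

/-- The string with given blocks. -/
def join {T w : ℕ} (ρ : Fin T → Fin w → Bool) : List Bool :=
  (List.ofFn fun j => List.ofFn (ρ j)).flatten

/-- `List.ofFn_mul` and `finProdFinEquiv`. -/
theorem card_join (T w : ℕ) (P : List Bool → Prop) :
    Nat.card {r : Fin (T * w) → Bool // P (List.ofFn r)} =
      Nat.card {ρ : Fin T → Fin w → Bool // P (join ρ)} := by
  refine (Nat.card_congr (Equiv.subtypeEquiv
    (((finProdFinEquiv (m := T) (n := w)).arrowCongr (Equiv.refl Bool)).symm.trans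
      (Equiv.curry (Fin T) (Fin w) Bool)) fun r => ?_))
  have h : List.ofFn r = join ((((finProdFinEquiv (m := T) (n := w)).arrowCongr
      (Equiv.refl Bool)).symm.trans (Equiv.curry (Fin T) (Fin w) Bool)) r) := by
    rw [List.ofFn_mul]
    unfold join
    congr 1
    congr 1
    funext i
    congr 1
    funext j
    show r _ = r (finProdFinEquiv (i, j))
    congr 1
    apply Fin.ext
    simp [finProdFinEquiv]
    ring
  rw [h]

theorem blk_join (n : ℕ) {T : ℕ} (ρ : Fin T → Fin (wA n) → Bool) (j : ℕ) (hj : j < T) :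
    blk n (join ρ) j = List.ofFn (ρ ⟨j, hj⟩) := by
  unfold blk join
  rw [Blk_flat (wA n) _ (fun l hl => ?_) j (by simpa using hj)]
  · simp
  · rw [List.mem_ofFn] at hl
    obtain ⟨i, rfl⟩ := hl
    simp

end Pool.Agent.TI
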