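import Pool.Agent.H.MP_b2d7dd_lc.TI.Zs
import Pool.Agent.H.MP_b2d7dd_lc.TI.Blk

/-!
# Module Par: the parameters are large enough

`par1`: `Zb (2 ^ (n + 1)) n = n * 2 ^ (4 n + 4) + 2 ^ (n + 1)`, `wB n = 5 n + 10`.
`par2`, `par3`: `wA n = 2 * (n * wB n) + 10`; with `y = n * wB n ≥ n` use `y < 2 ^ y` and the like.
-/

namespace Pool.Agent.TI

private theorem Par_sq (n : ℕ) : (n + 2) ^ 2 + 2 ≤ 2 ^ (n + 3) := by
  induction n with
  | zero => norm_num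
  | succ n ih =>
    have h : 2 ^ (n + 1 + 3) = 2 * 2 ^ (n + 3) := by
      rw [show n + 1 + 3 = (n + 3) + 1 by ring, pow_succ]
      ring
    rw [h]
    nlinarith

theorem par1 (n : ℕ) : 8 * ((n + 1) * Zb (2 ^ (n + 1)) n) ≤ 2 ^ wB n := by
  have h1 := Par_sq n
  have h2 : Zb (2 ^ (n + 1)) n ≤ (n + 1) * 2 ^ (4 * n + 4) := by
    unfold Zb
    have e : 2 ^ (n + 1) * ((2 ^ (n + 1)) ^ 3 * n + 1) = n * 2 ^ (4 * n + 4) + 2 ^ (n + 1) := by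
      have e1 : (2 : ℕ) ^ (4 * n + 4) = 2 ^ (n + 1) * (2 ^ (n + 1)) ^ 3 := by
        rw [← pow_mul, ← pow_add]
        congr 1
        ring
      rw [e1]
      ring
    have h3 : 2 ^ (n + 1) ≤ 2 ^ (4 * n + 4) := Nat.pow_le_pow_right (by norm_num) (by omega)
    rw [e]
    calc n * 2 ^ (4 * n + 4) + 2 ^ (n + 1) ≤ n * 2 ^ (4 * n + 4) + 2 ^ (4 * n + 4) := by omega
      _ = (n + 1) * 2 ^ (4 * n + 4) := by ring
  have h3 : (n + 1) * (n + 1) ≤ 2 ^ (n + 3) := by nlinarith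
  calc 8 * ((n + 1) * Zb (2 ^ (n + 1)) n) ≤ 8 * ((n + 1) * ((n + 1) * 2 ^ (4 * n + 4))) := by
        gcongr
    _ = 2 ^ (4 * n + 7) * ((n + 1) * (n + 1)) := by
        rw [show 4 * n + 7 = (4 * n + 4) + 3 by ring, pow_add]
        ring
    _ ≤ 2 ^ (4 * n + 7) * 2 ^ (n + 3) := by gcongr
    _ = 2 ^ wB n := by
        rw [← pow_add]
        unfold wB
        congr 1
        ring

private theorem Par_wA (n : ℕ) : wA n = 2 * (n * wB n) + 10 := by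
  unfold wA
  ring

private theorem Par_n (n : ℕ) : n ≤ n * wB n := by
  refine Nat.le_mul_of_pos_right n ?_
  unfold wB
  omega

theorem par2 (n : ℕ) : 8 * ((n + 1) * (n * (2 ^ wB n) ^ n)) ≤ 2 ^ wA n := by
  have h1 := Par_sq n
  have h3 : (n + 1) * n ≤ 2 ^ (n + 3) := by nlinarith
  have h4 := Par_n n
  rw [← pow_mul, Par_wA, mul_comm (wB n) n]
  obtain ⟨y, hy⟩ : ∃ y, y = n * wB n := ⟨_, rfl⟩
  rw [← hy] at h4 ⊢
  calc 8 * ((n + 1) * (n * 2 ^ y)) = 8 * ((n + 1) * n) * 2 ^ y := by ring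
    _ ≤ 8 * 2 ^ (n + 3) * 2 ^ y := by gcongr
    _ = 2 ^ (n + 6 + y) := by ring
    _ ≤ 2 ^ (2 * y + 10) := Nat.pow_le_pow_right (by norm_num) (by omega)

theorem par3 (n : ℕ) :
    2 * (((wA n + 1) * n * (2 ^ wB n) ^ n + 1) + wA n) ≤ 2 ^ wA n := by
  have h4 := Par_n n
  rw [← pow_mul, Par_wA, mul_comm (wB n) n]
  obtain ⟨y, hy⟩ : ∃ y, y = n * wB n := ⟨_, rfl⟩
  rw [← hy] at h4 ⊢
  have h1 := Par_sq y
  have h2 : (2 * y + 11) * y ≤ 2 ^ (y + 7) := by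
    have e : 2 ^ (y + 7) = 16 * 2 ^ (y + 3) := by
      rw [show y + 7 = (y + 3) + 4 by ring, pow_add]
      ring
    rw [e]
    nlinarith
  have h3 : 4 * y + 22 ≤ 2 ^ (y + 5) := by
    have e : 2 ^ (y + 5) = 4 * 2 ^ (y + 3) := by
      rw [show y + 5 = (y + 3) + 2 by ring, pow_add]
      ring
    rw [e]
    nlinarith
  have h5 : 2 ^ (y + 5) ≤ 2 ^ (2 * y + 8) := Nat.pow_le_pow_right (by norm_num) (by omega)
  have h6 : (2 : ℕ) ^ (2 * y + 10) = 4 * 2 ^ (2 * y + 8) := by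
    rw [show 2 * y + 10 = (2 * y + 8) + 2 by ring, pow_add]
    ring
  calc 2 * (((2 * y + 10 + 1) * n * 2 ^ y + 1) + (2 * y + 10))
      = 2 * ((2 * y + 11) * n) * 2 ^ y + (4 * y + 22) := by ring
    _ ≤ 2 * ((2 * y + 11) * y) * 2 ^ y + (4 * y + 22) := by gcongr
    _ ≤ 2 * 2 ^ (y + 7) * 2 ^ y + 2 ^ (y + 5) := by gcongr
    _ = 2 ^ (2 * y + 8) + 2 ^ (y + 5) := by ring
    _ ≤ 2 ^ (2 * y + 10) := by omega

theorem wB_le_wA {n : ℕ} (hn : 1 ≤ n) : wB n ≤ wA n := by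
  rw [Par_wA]
  have h : wB n ≤ n * wB n := Nat.le_mul_of_pos_left _ hn
  omega

end Pool.Agent.TI
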