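import Pool.Agent.H.MP_b2d7dd_lc.TI.LineB
import Pool.Agent.H.MP_b2d7dd_lc.TI.Hyb
import Pool.Agent.H.MP_b2d7dd_lc.TI.Par

/-!
# Module Cnt: the error probabilities for the assignments

`N` is the list of the variables of the two terms (`s.vars ++ t.vars`, at most `n` elements); the
point `y` gives the variable `w` the value `y (N.idxOf w)`. Witness for `hybrid`:
`y0 j = x0 (N.getD j [])`.

`line_case`: changing the `j`-th coordinate changes exactly the variable `w0 ∈ N` with
`N.idxOf w0 = j`, if there is one, and otherwise no variable of `N`.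

`cntB`: `hybrid` with `X = XB (wB n)`, `c = 2 ^ (wA n - wB n)`, `Z = Zb (2 ^ (n + 1)) n`, `zerosB`.
`cntA`: `hybrid` with `X = XA`, `c = 1`, `Z = n * (2 ^ wB n) ^ n`, `zerosA`.
-/

namespace Pool.Agent.TI

/-- The point given by blocks. -/
def pt {R : ℕ} {W : Type} (X : W → ℕ) (ρ : Fin R → W) : ℕ → ℕ :=
  fun j => if h : j < R then X (ρ ⟨j, h⟩) else 0

/-- The assignment given by a point. -/
def asg (N : List (List Bool)) (y : ℕ → ℕ) (w : List Bool) : ℕ := y (N.idxOf w)

theorem line_case (N : List (List Bool)) (y : ℕ → ℕ) (j : ℕ) :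
    (∃ w0 : List Bool, ∀ v, ∀ w ∈ N,
      asg N (Function.update y j v) w = Function.update (asg N y) w0 v w) ∨
    (∀ v, ∀ w ∈ N, asg N (Function.update y j v) w = asg N y w) := by
  by_cases h : ∃ w0 ∈ N, N.idxOf w0 = j
  · left
    obtain ⟨w0, hw0, hj⟩ := h
    refine ⟨w0, fun v w hw => ?_⟩
    unfold asg
    by_cases hww : w = w0
    · rw [hww, hj, Function.update_self, Function.update_self]
    · have hne : N.idxOf w ≠ j := by
        intro h1
        rw [← hj] at h1
        exact hww ((List.idxOf_inj hw).mp h1)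
      rw [Function.update_of_ne hne, Function.update_of_ne hww]
  · right
    intro v w hw
    unfold asg
    have hne : N.idxOf w ≠ j := fun h1 => h ⟨w, hw, h1⟩
    rw [Function.update_of_ne hne]

theorem Cnt_vars_length (t : Tm) : t.vars.length ≤ t.sz := by
  induction t with
  | one => simp [Tm.vars, Tm.sz]
  | var w => simp [Tm.vars, Tm.sz]
  | add s t hs ht => simp only [Tm.vars, Tm.sz, List.length_append]; omega
  | mul s t hs ht => simp only [Tm.vars, Tm.sz, List.length_append]; omega
  | pow s t hs ht => simp only [Tm.vars, Tm.sz, List.length_append]; omega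

theorem Cnt_idx_lt {n : ℕ} {s t : Tm} (hn : s.sz + t.sz ≤ n) {w : List Bool}
    (hw : w ∈ s.vars ++ t.vars) : (s.vars ++ t.vars).idxOf w < n + 1 := by
  have h1 := List.idxOf_lt_length_of_mem hw
  have h2 := Cnt_vars_length s
  have h3 := Cnt_vars_length t
  rw [List.length_append] at h1
  omega

theorem Cnt_asg_y0 (N : List (List Bool)) (x0 : List Bool → ℕ) {w : List Bool} (hw : w ∈ N) :
    asg N (fun j => x0 (N.getD j [])) w = x0 w := by
  unfold asg
  have h1 := List.idxOf_lt_length_of_mem hw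
  show x0 (N.getD (N.idxOf w) []) = x0 w
  rw [List.getD_eq_getElem _ _ h1, List.getElem_idxOf]

theorem Cnt_mul {W M R Z c : ℕ} (hW : 0 < W) {P : ℕ} (h : W * M ≤ R * Z * c * P)
    (h8 : 8 * (R * Z) * c ≤ W) : 8 * M ≤ P := by
  have h1 : W * (8 * M) ≤ W * P := by
    calc W * (8 * M) = 8 * (W * M) := by ring
      _ ≤ 8 * (R * Z * c * P) := Nat.mul_le_mul_left 8 h
      _ = (8 * (R * Z) * c) * P := by ring
      _ ≤ W * P := Nat.mul_le_mul_right P h8
  exact Nat.le_of_mul_le_mul_left h1 hW

theorem cntB {n : ℕ} {s t : Tm} (hs : s.Tame) (ht : t.Tame) (hn : s.sz + t.sz ≤ n)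
    {x0 : List Bool → ℕ} (hx0 : ∀ w, 0 < x0 w) (h0 : s.ev x0 x0 ≠ t.ev x0 x0) :
    8 * Nat.card {β : Fin (n + 1) → Fin (wA n) → Bool //
      s.ev x0 (asg (s.vars ++ t.vars) (pt (XB (wB n)) β)) =
        t.ev x0 (asg (s.vars ++ t.vars) (pt (XB (wB n)) β))} ≤ (2 ^ wA n) ^ (n + 1) := by
  have hn1 : 1 ≤ n := by
    have := s.sz_pos
    omega
  set N := s.vars ++ t.vars with hN
  have hsN : ∀ w ∈ s.vars, w ∈ N := fun w hw => List.mem_append_left _ hw
  have htN : ∀ w ∈ t.vars, w ∈ N := fun w hw => List.mem_append_right _ hw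
  have hcs : ∀ b b' : List Bool → ℕ, (∀ w ∈ N, b w = b' w) → s.ev x0 b = s.ev x0 b' :=
    fun b b' h => Tm.ev_congr (fun _ _ => rfl) (fun w hw => h w (hsN w hw))
  have hct : ∀ b b' : List Bool → ℕ, (∀ w ∈ N, b w = b' w) → t.ev x0 b = t.ev x0 b' :=
    fun b b' h => Tm.ev_congr (fun _ _ => rfl) (fun w hw => h w (htN w hw))
  have hW : Fintype.card (Fin (wA n) → Bool) = 2 ^ wA n := by simp
  have key := hybrid (R := n + 1) (W := Fin (wA n) → Bool) (XB (wB n)) (2 ^ (wA n - wB n))
    (Zb (2 ^ (n + 1)) n) (fun v => card_XB_le (wB_le_wA hn1) v)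
    (fun y => s.ev x0 (asg N y) ≠ t.ev x0 (asg N y))
    (by
      intro j y hex S hS
      rcases line_case N y j with ⟨w0, hw0⟩ | hno
      · have h1 : ∀ v, s.ev x0 (asg N (Function.update y j v)) =
            s.ev x0 (Function.update (asg N y) w0 v) := fun v => hcs _ _ (hw0 v)
        have h2 : ∀ v, t.ev x0 (asg N (Function.update y j v)) =
            t.ev x0 (Function.update (asg N y) w0 v) := fun v => hct _ _ (hw0 v)
        refine (zerosB hs ht hx0 (asg N y) w0 ?_ S ?_).trans (Zb_mono ?_ hn)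
        · obtain ⟨v, hv⟩ := hex
          refine ⟨v, ?_⟩
          rw [← h1, ← h2]
          exact hv
        · intro v hv
          have h3 := hS v hv
          rw [← h1, ← h2]
          exact not_not.mp h3
        · exact Nat.pow_le_pow_right (by norm_num) (by omega)
      · obtain ⟨v, hv⟩ := hex
        have hemp : S = ∅ := by
          rw [Finset.eq_empty_iff_forall_notMem]
          intro v' hv'
          apply hS v' hv'
          have h1 : ∀ u, s.ev x0 (asg N (Function.update y j u)) = s.ev x0 (asg N y) :=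
            fun u => hcs _ _ (hno u)
          have h2 : ∀ u, t.ev x0 (asg N (Function.update y j u)) = t.ev x0 (asg N y) :=
            fun u => hct _ _ (hno u)
          simp only [h1, h2] at hv ⊢
          exact hv
        rw [hemp]
        simp)
    (by
      intro y y' hyy
      have h1 : ∀ w ∈ N, asg N y w = asg N y' w := fun w hw => hyy _ (Cnt_idx_lt hn hw)
      rw [hcs _ _ h1, hct _ _ h1])
    (fun j => x0 (N.getD j []))
    (by
      have h1 : ∀ w ∈ N, asg N (fun j => x0 (N.getD j [])) w = x0 w :=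
        fun w hw => Cnt_asg_y0 N x0 hw
      rw [hcs _ _ h1, hct _ _ h1]
      exact h0)
  have hcard : Nat.card {β : Fin (n + 1) → Fin (wA n) → Bool //
      s.ev x0 (asg N (pt (XB (wB n)) β)) = t.ev x0 (asg N (pt (XB (wB n)) β))} =
      Nat.card {ρ : Fin (n + 1) → Fin (wA n) → Bool //
        ¬ (s.ev x0 (asg N (fun j => if h : j < n + 1 then XB (wB n) (ρ ⟨j, h⟩) else 0)) ≠
          t.ev x0 (asg N (fun j => if h : j < n + 1 then XB (wB n) (ρ ⟨j, h⟩) else 0)))} :=
    Nat.card_congr (Equiv.subtypeEquivRight fun β => not_not.symm)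
  rw [hcard]
  rw [hW] at key
  refine Cnt_mul (by positivity) key ?_
  have h1 := par1 n
  have h2 : 2 ^ wB n * 2 ^ (wA n - wB n) = 2 ^ wA n := by
    rw [← pow_add]
    congr 1
    have := wB_le_wA hn1
    omega
  rw [← h2]
  exact Nat.mul_le_mul_right _ h1

theorem cntA {n : ℕ} {s t : Tm} (hs : s.EF) (ht : t.EF) (hn : s.sz + t.sz ≤ n)
    {x0 b : List Bool → ℕ} (hb : ∀ w, b w ≤ 2 ^ wB n) (h0 : s.ev x0 b ≠ t.ev x0 b) :
    8 * Nat.card {α : Fin (n + 1) → Fin (wA n) → Bool //
      s.ev (asg (s.vars ++ t.vars) (pt XA α)) b =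
        t.ev (asg (s.vars ++ t.vars) (pt XA α)) b} ≤ (2 ^ wA n) ^ (n + 1) := by
  set N := s.vars ++ t.vars with hN
  have hB2 : 2 ≤ 2 ^ wB n := by
    calc 2 = 2 ^ 1 := rfl
      _ ≤ 2 ^ wB n := Nat.pow_le_pow_right (by norm_num) (by unfold wB; omega)
  have hsN : ∀ w ∈ s.vars, w ∈ N := fun w hw => List.mem_append_left _ hw
  have htN : ∀ w ∈ t.vars, w ∈ N := fun w hw => List.mem_append_right _ hw
  have hcs : ∀ a a' : List Bool → ℕ, (∀ w ∈ N, a w = a' w) → s.ev a b = s.ev a' b :=
    fun a a' h => Tm.ev_congr (fun w hw => h w (hsN w hw)) (fun _ _ => rfl)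
  have hct : ∀ a a' : List Bool → ℕ, (∀ w ∈ N, a w = a' w) → t.ev a b = t.ev a' b :=
    fun a a' h => Tm.ev_congr (fun w hw => h w (htN w hw)) (fun _ _ => rfl)
  have hW : Fintype.card (Fin (wA n) → Bool) = 2 ^ wA n := by simp
  have key := hybrid (R := n + 1) (W := Fin (wA n) → Bool) XA 1
    (n * (2 ^ wB n) ^ n) (fun v => card_XA_le v)
    (fun y => s.ev (asg N y) b ≠ t.ev (asg N y) b)
    (by
      intro j y hex S hS
      rcases line_case N y j with ⟨w0, hw0⟩ | hno
      · have h1 : ∀ v, s.ev (asg N (Function.update y j v)) b =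
            s.ev (Function.update (asg N y) w0 v) b := fun v => hcs _ _ (hw0 v)
        have h2 : ∀ v, t.ev (asg N (Function.update y j v)) b =
            t.ev (Function.update (asg N y) w0 v) b := fun v => hct _ _ (hw0 v)
        refine (zerosA hs ht (asg N y) b hB2 hb w0 ?_ S ?_).trans
          (Nat.mul_le_mul hn (Nat.pow_le_pow_right (by positivity) hn))
        · obtain ⟨v, hv⟩ := hex
          refine ⟨v, ?_⟩
          rw [← h1, ← h2]
          exact hv
        · intro v hv
          have h3 := hS v hv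
          rw [← h1, ← h2]
          exact not_not.mp h3
      · obtain ⟨v, hv⟩ := hex
        have hemp : S = ∅ := by
          rw [Finset.eq_empty_iff_forall_notMem]
          intro v' hv'
          apply hS v' hv'
          have h1 : ∀ u, s.ev (asg N (Function.update y j u)) b = s.ev (asg N y) b :=
            fun u => hcs _ _ (hno u)
          have h2 : ∀ u, t.ev (asg N (Function.update y j u)) b = t.ev (asg N y) b :=
            fun u => hct _ _ (hno u)
          simp only [h1, h2] at hv ⊢
          exact hv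
        rw [hemp]
        simp)
    (by
      intro y y' hyy
      have h1 : ∀ w ∈ N, asg N y w = asg N y' w := fun w hw => hyy _ (Cnt_idx_lt hn hw)
      rw [hcs _ _ h1, hct _ _ h1])
    (fun j => x0 (N.getD j []))
    (by
      have h1 : ∀ w ∈ N, asg N (fun j => x0 (N.getD j [])) w = x0 w :=
        fun w hw => Cnt_asg_y0 N x0 hw
      rw [hcs _ _ h1, hct _ _ h1]
      exact h0)
  have hcard : Nat.card {α : Fin (n + 1) → Fin (wA n) → Bool //
      s.ev (asg N (pt XA α)) b = t.ev (asg N (pt XA α)) b} =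
      Nat.card {ρ : Fin (n + 1) → Fin (wA n) → Bool //
        ¬ (s.ev (asg N (fun j => if h : j < n + 1 then XA (ρ ⟨j, h⟩) else 0)) b ≠
          t.ev (asg N (fun j => if h : j < n + 1 then XA (ρ ⟨j, h⟩) else 0)) b)} :=
    Nat.card_congr (Equiv.subtypeEquivRight fun β => not_not.symm)
  rw [hcard]
  rw [hW] at key
  refine Cnt_mul (by positivity) key ?_
  rw [mul_one]
  exact par2 n

end Pool.Agent.TI
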