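import Pool.Agent.H.MP_b2d7dd_lc.TI.Par
import Pool.Agent.H.MP_b2d7dd_lc.TI.Terms
import Pool.Agent.H.MP_b2d7dd_lc.TI.Md

/-!
# Module CntM: the error probability for the moduli

`cntM`: `d` = the difference of the two values, `0 < d < 2 ^ c` with
`c = (wA n + 1) * n * (2 ^ wB n) ^ n + 1` (`Tm.ev_le`, `par3`); a congruence modulo `m` means
`m ∣ d` (`Nat.modEq_iff_dvd'`); the number `D` of blocks `ω` with `XA ω ∣ d` satisfies
`2 w D ≤ (2 w - 1) 2 ^ w`, `w = wA n` (`md_count`; `XA` is a bijection onto `[1, 2 ^ w]`: `XA_inj`,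
`XA_le`, `XA_surj`); the number of `μ` is `D ^ KK n` (functions into the subtype); `amp`.
-/

namespace Pool.Agent.TI

private theorem CntM_card (w d : ℕ) :
    Nat.card {ω : Fin w → Bool // XA ω ∣ d} +
      ((Finset.Icc 1 (2 ^ w)).filter fun m => ¬ m ∣ d).card ≤ 2 ^ w := by
  classical
  have h1 : Nat.card {ω : Fin w → Bool // XA ω ∣ d} ≤
      ((Finset.Icc 1 (2 ^ w)).filter fun m => m ∣ d).card := by
    rw [Nat.card_eq_fintype_card, Fintype.card_subtype]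
    refine Finset.card_le_card_of_injOn XA (fun ω hω => ?_) XA_inj.injOn
    have h2 := (Finset.mem_filter.1 (Finset.mem_coe.1 hω)).2
    refine Finset.mem_coe.2 (Finset.mem_filter.2 ⟨Finset.mem_Icc.2 ⟨?_, XA_le ω⟩, h2⟩)
    unfold XA
    omega
  have h2 : ((Finset.Icc 1 (2 ^ w)).filter fun m => m ∣ d).card +
      ((Finset.Icc 1 (2 ^ w)).filter fun m => ¬ m ∣ d).card = 2 ^ w := by
    rw [Finset.card_filter_add_card_filter_not, Nat.card_Icc]
    exact Nat.add_sub_cancel _ _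
  omega

private theorem CntM_pi (w k : ℕ) (P : (Fin w → Bool) → Prop) :
    Nat.card {μ : Fin k → Fin w → Bool // ∀ j, P (μ j)} =
      Nat.card {ω : Fin w → Bool // P ω} ^ k := by
  rw [Nat.card_congr (Equiv.subtypePiEquivPi (p := fun (_ : Fin k) ω => P ω)), Nat.card_fun,
    Nat.card_eq_fintype_card (α := Fin k), Fintype.card_fin]

theorem cntM {n : ℕ} {s t : Tm} (hs : s.EF) (ht : t.EF) (hn : s.sz + t.sz ≤ n)
    {a b : List Bool → ℕ} (ha : ∀ w, a w ≤ 2 ^ wA n) (hb : ∀ w, b w ≤ 2 ^ wB n)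
    (h0 : s.ev a b ≠ t.ev a b) :
    4 * Nat.card {μ : Fin (KK n) → Fin (wA n) → Bool //
      ∀ j, s.ev a b ≡ t.ev a b [MOD XA (μ j)]} ≤ (2 ^ wA n) ^ KK n := by
  obtain ⟨d, hd⟩ : ∃ d, d = (s.ev a b - t.ev a b) + (t.ev a b - s.ev a b) := ⟨_, rfl⟩
  have hdm : ∀ m, s.ev a b ≡ t.ev a b [MOD m] ↔ m ∣ d := by
    intro m
    rcases le_total (s.ev a b) (t.ev a b) with h | h
    · rw [Nat.modEq_iff_dvd' h, hd, Nat.sub_eq_zero_of_le h, zero_add]
    · rw [hd, Nat.sub_eq_zero_of_le h, add_zero, ← Nat.modEq_iff_dvd' h]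
      exact ⟨Nat.ModEq.symm, Nat.ModEq.symm⟩
  have hB : 2 ≤ 2 ^ wB n := by
    have h1 : 1 ≤ wB n := by
      unfold wB
      omega
    calc 2 = 2 ^ 1 := by norm_num
      _ ≤ 2 ^ wB n := Nat.pow_le_pow_right (by norm_num) h1
  have hle : ∀ r : Tm, r.EF → r.sz ≤ n →
      r.ev a b ≤ 2 ^ ((wA n + 1) * n * (2 ^ wB n) ^ n) := by
    intro r hr hrn
    refine (Tm.ev_le hB ha hb hr).trans (Nat.pow_le_pow_right (by norm_num) ?_)
    exact Nat.mul_le_mul (Nat.mul_le_mul_left _ hrn) (Nat.pow_le_pow_right (by omega) hrn)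
  have h1 := hle s hs (by omega)
  have h2 := hle t ht (by omega)
  have hd0 : 0 < d := by omega
  have hdc : d < 2 ^ ((wA n + 1) * n * (2 ^ wB n) ^ n + 1) := by
    rw [pow_succ]
    have h3 : 0 < 2 ^ ((wA n + 1) * n * (2 ^ wB n) ^ n) := by positivity
    omega
  have hw : 1 ≤ wA n := by
    unfold wA
    omega
  have h3 := md_count hw hd0 hdc (par3 n)
  have h4 := CntM_card (wA n) d
  have h5 : Nat.card {μ : Fin (KK n) → Fin (wA n) → Bool //
      ∀ j, s.ev a b ≡ t.ev a b [MOD XA (μ j)]} =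
      Nat.card {ω : Fin (wA n) → Bool // XA ω ∣ d} ^ KK n := by
    simp only [hdm]
    exact CntM_pi (wA n) (KK n) fun ω => XA ω ∣ d
  rw [h5]
  unfold KK
  refine amp hw ?_
  obtain ⟨D, hD⟩ : ∃ D, D = Nat.card {ω : Fin (wA n) → Bool // XA ω ∣ d} := ⟨_, rfl⟩
  obtain ⟨S, hS⟩ : ∃ S, S = ((Finset.Icc 1 (2 ^ wA n)).filter fun m => ¬ m ∣ d).card := ⟨_, rfl⟩
  rw [← hS] at h3 h4
  rw [← hD] at h4 ⊢
  obtain ⟨v, hv⟩ : ∃ v, wA n = v + 1 := ⟨wA n - 1, by omega⟩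
  rw [hv] at h3 h4 ⊢
  have h6 : 2 * (v + 1) - 1 = 2 * v + 1 := by omega
  rw [h6]
  have h7 : 2 * (v + 1) * (D + S) ≤ 2 * (v + 1) * 2 ^ (v + 1) := Nat.mul_le_mul_left _ h4
  have h8 : 2 * (v + 1) * (D + S) = 2 * (v + 1) * D + 2 * (v + 1) * S := by ring
  have h9 : 2 * (v + 1) * 2 ^ (v + 1) = (2 * v + 1) * 2 ^ (v + 1) + 2 ^ (v + 1) := by ring
  omega

end Pool.Agent.TI
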