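import Pool.Agent.H.MP_b2d7dd_lc.TI.Cnt
import Pool.Agent.H.MP_b2d7dd_lc.TI.CntM
import Pool.Agent.H.MP_b2d7dd_lc.TI.Top

/-!
# Module CntAll: the total error probability

`ρ : Fin (TT n) → W` is a triple `(α, β, μ)` (`Fin.append`, or `finSumFinEquiv` and
`Equiv.sumArrowEquivProdArrow`). With `blk_join`: `aR n N (join ρ) = asg N (pt XA α)`,
`bR n N (join ρ) = asg N (pt (XB (wB n)) β)` (for every `w`, since `N.idxOf w ≤ N.length ≤ n`), the
moduli are `XA (μ j)`. Let `x0` be a counterexample to the identity (`Tm.val_eq_ev`). The accepted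
triples have `β` in the set of `cntB`, or else (with `b` = the assignment of `β`, `b ≤ 2 ^ wB n`,
`s.ev x0 b ≠ t.ev x0 b`) `α` in the set of `cntA`, or else `μ` in the set of `cntM`; so their
number is at most `(1/8 + 1/8 + 1/4) * #W ^ TT n`.
-/

namespace Pool.Agent.TI

/-- Counting triples. -/
theorem card_triple {A B C : Type} [Fintype A] [Fintype B] [Fintype C] (P : A → B → C → Prop)
    (P1 : B → Prop) (P2 : B → A → Prop)
    (h1 : 8 * Nat.card {b : B // P1 b} ≤ Fintype.card B)
    (h2 : ∀ b, ¬ P1 b → 8 * Nat.card {a : A // P2 b a} ≤ Fintype.card A)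
    (h3 : ∀ b a, ¬ P1 b → ¬ P2 b a → 4 * Nat.card {c : C // P a b c} ≤ Fintype.card C) :
    2 * Nat.card {z : A × B × C // P z.1 z.2.1 z.2.2} ≤
      Fintype.card A * (Fintype.card B * Fintype.card C) := by
  classical
  have e : {z : A × B × C // P z.1 z.2.1 z.2.2} ≃ (Σ p : B × A, {c : C // P p.2 p.1 c}) :=
    { toFun := fun z => ⟨(z.1.2.1, z.1.1), ⟨z.1.2.2, z.2⟩⟩
      invFun := fun q => ⟨(q.1.2, q.1.1, q.2.1), q.2.2⟩
      left_inv := fun _ => rfl
      right_inv := fun _ => rfl }
  rw [Nat.card_congr e, Nat.card_sigma, Fintype.sum_prod_type]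
  have hle : ∀ b a, Nat.card {c : C // P a b c} ≤ Fintype.card C := by
    intro b a
    rw [Nat.card_eq_fintype_card]
    exact Fintype.card_subtype_le _
  have hsA : ∀ b, ∑ a : A, (if P2 b a then 1 else 0) = Nat.card {a : A // P2 b a} := by
    intro b
    rw [Nat.card_eq_fintype_card, Fintype.card_subtype, Finset.card_filter]
  have hsB : ∑ b : B, (if P1 b then 1 else 0) = Nat.card {b : B // P1 b} := by
    rw [Nat.card_eq_fintype_card, Fintype.card_subtype, Finset.card_filter]
  have hb : ∀ b, 8 * ∑ a : A, Nat.card {c : C // P a b c} ≤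
      8 * ((if P1 b then 1 else 0) * (Fintype.card A * Fintype.card C)) +
        3 * (Fintype.card A * Fintype.card C) := by
    intro b
    by_cases hb : P1 b
    · have h : ∑ a : A, Nat.card {c : C // P a b c} ≤ Fintype.card A * Fintype.card C := by
        calc ∑ a : A, Nat.card {c : C // P a b c} ≤ ∑ _a : A, Fintype.card C :=
              Finset.sum_le_sum fun a _ => hle b a
          _ = Fintype.card A * Fintype.card C := by
              rw [Finset.sum_const, Finset.card_univ, smul_eq_mul]
      simp only [hb, if_true, one_mul]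
      omega
    · have h : ∀ a, 8 * Nat.card {c : C // P a b c} ≤
          8 * ((if P2 b a then 1 else 0) * Fintype.card C) + 2 * Fintype.card C := by
        intro a
        by_cases ha : P2 b a
        · have := hle b a
          simp only [ha, if_true, one_mul]
          omega
        · have := h3 b a hb ha
          simp only [ha, if_false, zero_mul, mul_zero, zero_add]
          omega
      have h' : 8 * ∑ a : A, Nat.card {c : C // P a b c} ≤
          8 * (Nat.card {a : A // P2 b a} * Fintype.card C) +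
            2 * (Fintype.card A * Fintype.card C) := by
        calc 8 * ∑ a : A, Nat.card {c : C // P a b c}
            = ∑ a : A, 8 * Nat.card {c : C // P a b c} := by rw [Finset.mul_sum]
          _ ≤ ∑ a : A, (8 * ((if P2 b a then 1 else 0) * Fintype.card C) +
                2 * Fintype.card C) := Finset.sum_le_sum fun a _ => h a
          _ = 8 * (Nat.card {a : A // P2 b a} * Fintype.card C) +
            2 * (Fintype.card A * Fintype.card C) := by
              rw [Finset.sum_add_distrib, ← Finset.mul_sum, ← Finset.sum_mul, hsA b,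
                Finset.sum_const, Finset.card_univ, smul_eq_mul]
              ring
      have h4 : 8 * Nat.card {a : A // P2 b a} * Fintype.card C ≤
          Fintype.card A * Fintype.card C := Nat.mul_le_mul_right _ (h2 b hb)
      simp only [hb, if_false, zero_mul, mul_zero, zero_add]
      nlinarith [h', h4]
  have htot : 8 * ∑ b : B, ∑ a : A, Nat.card {c : C // P a b c} ≤
      8 * (Nat.card {b : B // P1 b} * (Fintype.card A * Fintype.card C)) +
        3 * (Fintype.card B * (Fintype.card A * Fintype.card C)) := by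
    calc 8 * ∑ b : B, ∑ a : A, Nat.card {c : C // P a b c}
        = ∑ b : B, 8 * ∑ a : A, Nat.card {c : C // P a b c} := by rw [Finset.mul_sum]
      _ ≤ ∑ b : B, (8 * ((if P1 b then 1 else 0) * (Fintype.card A * Fintype.card C)) +
            3 * (Fintype.card A * Fintype.card C)) := Finset.sum_le_sum fun b _ => hb b
      _ = 8 * (Nat.card {b : B // P1 b} * (Fintype.card A * Fintype.card C)) +
            3 * (Fintype.card B * (Fintype.card A * Fintype.card C)) := by
          rw [Finset.sum_add_distrib, ← Finset.mul_sum, ← Finset.sum_mul, hsB,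
            Finset.sum_const, Finset.card_univ, smul_eq_mul]
          ring
  have h5 : 8 * Nat.card {b : B // P1 b} * (Fintype.card A * Fintype.card C) ≤
      Fintype.card B * (Fintype.card A * Fintype.card C) := Nat.mul_le_mul_right _ h1
  have h6 : Fintype.card A * (Fintype.card B * Fintype.card C) =
      Fintype.card B * (Fintype.card A * Fintype.card C) := by ring
  change 2 * (∑ b : B, ∑ a : A, Nat.card {c : C // P a b c}) ≤ _
  rw [h6]
  have h7 : 8 * (Nat.card {b : B // P1 b} * (Fintype.card A * Fintype.card C)) =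
      8 * Nat.card {b : B // P1 b} * (Fintype.card A * Fintype.card C) := by ring
  omega

private theorem vars_len (t : Tm) : t.vars.length ≤ t.sz := by
  induction t with
  | one => simp [Tm.vars]
  | var w => simp [Tm.vars, Tm.sz]
  | add s t hs ht => simp only [Tm.vars, Tm.sz, List.length_append]; omega
  | mul s t hs ht => simp only [Tm.vars, Tm.sz, List.length_append]; omega
  | pow s t hs ht => simp only [Tm.vars, Tm.sz, List.length_append]; omega

private theorem idx_lt {n : ℕ} {s t : Tm} (hn : s.sz + t.sz ≤ n) (w : List Bool) :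
    (s.vars ++ t.vars).idxOf w < n + 1 := by
  have h1 := vars_len s
  have h2 := vars_len t
  have h3 : (s.vars ++ t.vars).idxOf w ≤ (s.vars ++ t.vars).length := List.idxOf_le_length
  rw [List.length_append] at h3
  omega

/-- The splitting of the blocks. -/
private def trip (n : ℕ) (W : Type) :
    (Fin (n + 1) → W) × (Fin (n + 1) → W) × (Fin (KK n) → W) ≃ (Fin (TT n) → W) :=
  ((Equiv.prodAssoc _ _ _).symm.trans
    ((Fin.appendEquiv (n + 1) (n + 1)).prodCongr (Equiv.refl _))).trans
    (Fin.appendEquiv (n + 1 + (n + 1)) (KK n))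

private theorem trip_a {n : ℕ} {W : Type}
    (z : (Fin (n + 1) → W) × (Fin (n + 1) → W) × (Fin (KK n) → W)) (j : ℕ) (hj : j < n + 1)
    (hj' : j < TT n) : trip n W z ⟨j, hj'⟩ = z.1 ⟨j, hj⟩ := by
  have h1 : (⟨j, hj'⟩ : Fin (TT n)) =
      Fin.castAdd (KK n) (Fin.castAdd (n + 1) (⟨j, hj⟩ : Fin (n + 1))) := rfl
  show Fin.append (Fin.append z.1 z.2.1) z.2.2 _ = _
  rw [h1, Fin.append_left, Fin.append_left]

private theorem trip_b {n : ℕ} {W : Type}
    (z : (Fin (n + 1) → W) × (Fin (n + 1) → W) × (Fin (KK n) → W)) (j : ℕ) (hj : j < n + 1)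
    (hj' : n + 1 + j < TT n) : trip n W z ⟨n + 1 + j, hj'⟩ = z.2.1 ⟨j, hj⟩ := by
  have h1 : (⟨n + 1 + j, hj'⟩ : Fin (TT n)) =
      Fin.castAdd (KK n) (Fin.natAdd (n + 1) (⟨j, hj⟩ : Fin (n + 1))) := rfl
  show Fin.append (Fin.append z.1 z.2.1) z.2.2 _ = _
  rw [h1, Fin.append_left, Fin.append_right]

private theorem trip_c {n : ℕ} {W : Type}
    (z : (Fin (n + 1) → W) × (Fin (n + 1) → W) × (Fin (KK n) → W)) (j : ℕ) (hj : j < KK n)
    (hj' : n + 1 + (n + 1) + j < TT n) :
    trip n W z ⟨n + 1 + (n + 1) + j, hj'⟩ = z.2.2 ⟨j, hj⟩ := by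
  have h1 : (⟨n + 1 + (n + 1) + j, hj'⟩ : Fin (TT n)) =
      Fin.natAdd (n + 1 + (n + 1)) (⟨j, hj⟩ : Fin (KK n)) := rfl
  show Fin.append (Fin.append z.1 z.2.1) z.2.2 _ = _
  rw [h1, Fin.append_right]

private theorem aR_trip {n : ℕ} {N : List (List Bool)} (hN : ∀ w, N.idxOf w < n + 1)
    (z : (Fin (n + 1) → Fin (wA n) → Bool) × (Fin (n + 1) → Fin (wA n) → Bool) ×
      (Fin (KK n) → Fin (wA n) → Bool)) :
    aR n N (join (trip n _ z)) = asg N (pt XA z.1) := by
  funext w
  have hj := hN w
  have hj' : N.idxOf w < TT n := by unfold TT; omega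
  unfold aR asg pt XA
  rw [blk_join n _ _ hj', trip_a z _ hj hj', dif_pos hj]

private theorem bR_trip {n : ℕ} {N : List (List Bool)} (hN : ∀ w, N.idxOf w < n + 1)
    (z : (Fin (n + 1) → Fin (wA n) → Bool) × (Fin (n + 1) → Fin (wA n) → Bool) ×
      (Fin (KK n) → Fin (wA n) → Bool)) :
    bR n N (join (trip n _ z)) = asg N (pt (XB (wB n)) z.2.1) := by
  funext w
  have hj := hN w
  have hj' : n + 1 + N.idxOf w < TT n := by unfold TT; omega
  unfold bR asg pt XB
  rw [blk_join n _ _ hj', trip_b z _ hj hj', dif_pos hj]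

theorem cntAll {n : ℕ} {s t : Tm} (hs : s.Tame) (ht : t.Tame) (hn : s.sz + t.sz ≤ n)
    (hv : ¬ Valid s t) :
    2 * Nat.card {ρ : Fin (TT n) → Fin (wA n) → Bool // ∀ j < KK n,
      s.ev (aR n (s.vars ++ t.vars) (join ρ)) (bR n (s.vars ++ t.vars) (join ρ)) ≡
        t.ev (aR n (s.vars ++ t.vars) (join ρ)) (bR n (s.vars ++ t.vars) (join ρ))
        [MOD Pool.Agent.H.MP_5be563_lc.PT.bval (blk n (join ρ) (n + 1 + (n + 1) + j)) + 1]} ≤
      2 ^ (TT n * wA n) := by
  classical
  unfold Valid at hv
  push Not at hv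
  obtain ⟨x0, hx0, hne⟩ := hv
  rw [Tm.val_eq_ev, Tm.val_eq_ev] at hne
  set N := s.vars ++ t.vars with hN
  have hidx : ∀ w, N.idxOf w < n + 1 := fun w => idx_lt hn w
  have hA : ∀ (α : Fin (n + 1) → Fin (wA n) → Bool) (w : List Bool),
      asg N (pt XA α) w ≤ 2 ^ wA n := by
    intro α w
    unfold asg pt
    rw [dif_pos (hidx w)]
    exact XA_le _
  have hB : ∀ (β : Fin (n + 1) → Fin (wA n) → Bool) (w : List Bool),
      asg N (pt (XB (wB n)) β) w ≤ 2 ^ wB n := by
    intro β w
    unfold asg pt
    rw [dif_pos (hidx w)]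
    exact XB_le _
  have key := card_triple
    (A := Fin (n + 1) → Fin (wA n) → Bool) (B := Fin (n + 1) → Fin (wA n) → Bool)
    (C := Fin (KK n) → Fin (wA n) → Bool)
    (fun α β μ => ∀ j, s.ev (asg N (pt XA α)) (asg N (pt (XB (wB n)) β)) ≡
      t.ev (asg N (pt XA α)) (asg N (pt (XB (wB n)) β)) [MOD XA (μ j)])
    (fun β => s.ev x0 (asg N (pt (XB (wB n)) β)) = t.ev x0 (asg N (pt (XB (wB n)) β)))
    (fun β α => s.ev (asg N (pt XA α)) (asg N (pt (XB (wB n)) β)) =
      t.ev (asg N (pt XA α)) (asg N (pt (XB (wB n)) β)))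
    (by
      have h := cntB hs ht hn hx0 hne
      simpa only [Fintype.card_fun, Fintype.card_fin, Fintype.card_bool] using h)
    (by
      intro β hβ
      have h := cntA hs.ef ht.ef hn (hB β) hβ
      simpa only [Fintype.card_fun, Fintype.card_fin, Fintype.card_bool] using h)
    (by
      intro β α _ hα
      have h := cntM hs.ef ht.ef hn (hA α) (hB β) hα
      simpa only [Fintype.card_fun, Fintype.card_fin, Fintype.card_bool] using h)
  have hcard : Fintype.card (Fin (n + 1) → Fin (wA n) → Bool) *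
      (Fintype.card (Fin (n + 1) → Fin (wA n) → Bool) *
        Fintype.card (Fin (KK n) → Fin (wA n) → Bool)) = 2 ^ (TT n * wA n) := by
    simp only [Fintype.card_fun, Fintype.card_fin, Fintype.card_bool]
    unfold TT
    rw [← pow_add, ← pow_add, ← pow_mul]
    congr 1
    ring
  rw [hcard] at key
  refine le_trans (le_of_eq ?_) key
  congr 1
  refine Nat.card_congr (Equiv.subtypeEquiv (trip n (Fin (wA n) → Bool)) ?_).symm
  intro z
  rw [aR_trip hidx z, bR_trip hidx z]
  constructor
  · intro h j hj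
    have hj' : n + 1 + (n + 1) + j < TT n := by unfold TT; omega
    rw [blk_join n _ _ hj', trip_c z j hj hj']
    exact h ⟨j, hj⟩
  · intro h j
    have hj' : n + 1 + (n + 1) + (j : ℕ) < TT n := by have := j.2; unfold TT; omega
    have h' := h j j.2
    rw [blk_join n _ _ hj', trip_c z j j.2 hj'] at h'
    exact h'

end Pool.Agent.TI
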