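import Pool.Agent.H.MP_b2d7dd_lc.TI.Terms

/-!
# Module Dec: decoupling

`decouple`: let `s = t` hold. Take a prime `p` greater than `s.ev a b`, `t.ev a b` and `2`, and
(Chinese remainders, `p` and `p - 1` are coprime, `Nat.chineseRemainder`) `x w ≡ a w mod p`,
`x w ≡ b w mod p - 1`, `x w > 0` (add `p (p - 1)`). For every subterm `u` (all values are
positive, so every subterm `u` outside exponents has `u.ev a b ≤ t.ev a b < p`): `u.val x ≡ u.ev a b
mod p`; for a power the exponent satisfies `e.val x ≡ e.val b mod p - 1` (it is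
exponentiation-free), and the base is a unit modulo `p` (Fermat, `ZMod.pow_card_sub_one_eq_one`).
Useful first steps: `val_modEq` (exponentiation-free terms respect congruences) and
`ev_modEq` (`t.EF`, `0 < a w`, `0 < b w`, `t.ev a b < p` imply `t.val x ≡ t.ev a b [MOD p]`).
-/

namespace Pool.Agent.TI

/-- exponentiation-free terms respect congruences -/
private theorem Dec_val_modEq {x y : List Bool → ℕ} {n : ℕ} (h : ∀ w, x w ≡ y w [MOD n]) {t : Tm}
    (ht : t.ExpFree) : t.val x ≡ t.val y [MOD n] := by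
  induction t with
  | one => exact Nat.ModEq.refl 1
  | var w => exact h w
  | add s t ihs iht => exact Nat.ModEq.add (ihs ht.1) (iht ht.2)
  | mul s t ihs iht => exact Nat.ModEq.mul (ihs ht.1) (iht ht.2)
  | pow s t _ _ => exact ht.elim

/-- powers modulo a prime depend on the exponent modulo `p - 1` -/
private theorem Dec_pow {p u k l : ℕ} (hp : p.Prime) (hu : ¬ p ∣ u) (h : k ≡ l [MOD p - 1]) :
    u ^ k ≡ u ^ l [MOD p] := by
  have := Fact.mk hp
  have hu0 : (u : ZMod p) ≠ 0 := by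
    rw [Ne, ZMod.natCast_eq_zero_iff]
    exact hu
  rw [← ZMod.natCast_eq_natCast_iff]
  push_cast
  wlog hkl : k ≤ l generalizing k l
  · exact (this h.symm (by omega)).symm
  · obtain ⟨c, hc⟩ := (Nat.modEq_iff_dvd' hkl).1 h
    have hl : l = k + (p - 1) * c := by omega
    rw [hl, pow_add, pow_mul, ZMod.pow_card_sub_one_eq_one hu0, one_pow, mul_one]

/-- the values modulo `p` -/
private theorem Dec_ev_modEq {a b x : List Bool → ℕ} {p : ℕ} (hp : p.Prime)
    (ha : ∀ w, 0 < a w) (hb : ∀ w, 0 < b w) (hxa : ∀ w, x w ≡ a w [MOD p])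
    (hxb : ∀ w, x w ≡ b w [MOD p - 1]) {t : Tm} (ht : t.EF) (hlt : t.ev a b < p) :
    t.val x ≡ t.ev a b [MOD p] := by
  induction t with
  | one => exact Nat.ModEq.refl 1
  | var w => exact hxa w
  | add s t ihs iht =>
    have h1 : s.ev a b + t.ev a b < p := hlt
    exact Nat.ModEq.add (ihs ht.1 (by omega)) (iht ht.2 (by omega))
  | mul s t ihs iht =>
    have h1 : s.ev a b * t.ev a b < p := hlt
    have h2 := Nat.le_mul_of_pos_right (s.ev a b) (Tm.ev_pos ha b t)
    have h3 := Nat.le_mul_of_pos_left (t.ev a b) (Tm.ev_pos ha b s)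
    exact Nat.ModEq.mul (ihs ht.1 (by omega)) (iht ht.2 (by omega))
  | pow s t ihs _ =>
    show s.val x ^ t.val x ≡ s.ev a b ^ t.val b [MOD p]
    have h1 : s.ev a b ^ t.val b < p := hlt
    have h2 : s.ev a b ≤ s.ev a b ^ t.val b :=
      Nat.le_self_pow (Tm.val_pos hb t).ne' _
    have h3 : s.ev a b < p := by omega
    have h4 := ihs ht.1 h3
    have h5 : ¬ p ∣ s.ev a b := fun hd =>
      absurd (Nat.le_of_dvd (Tm.ev_pos ha b s) hd) (by omega)
    exact (h4.pow _).trans (Dec_pow hp h5 (Dec_val_modEq hxb ht.2))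

/-- **Decoupling.** -/
theorem decouple {s t : Tm} (hs : s.EF) (ht : t.EF) (h : Valid s t) {a b : List Bool → ℕ}
    (ha : ∀ w, 0 < a w) (hb : ∀ w, 0 < b w) : s.ev a b = t.ev a b := by
  obtain ⟨p, hpge, hp⟩ := Nat.exists_infinite_primes (s.ev a b + t.ev a b + 3)
  have hco : Nat.Coprime p (p - 1) := by
    have h1 : Nat.Coprime (p - 1 + 1) (p - 1) := by simp
    rwa [Nat.sub_add_cancel hp.one_lt.le] at h1
  let x : List Bool → ℕ := fun w =>
    (Nat.chineseRemainder hco (a w) (b w) : ℕ) + p * (p - 1)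
  have hx0 : ∀ w, 0 < x w := fun w =>
    Nat.add_pos_right _ (Nat.mul_pos (by omega) (by omega))
  have hxa : ∀ w, x w ≡ a w [MOD p] := by
    intro w
    have h1 := (Nat.chineseRemainder hco (a w) (b w)).2.1
    have h2 : p * (p - 1) ≡ 0 [MOD p] := (Nat.modEq_zero_iff_dvd).2 (Dvd.intro _ rfl)
    exact Nat.ModEq.add h1 h2
  have hxb : ∀ w, x w ≡ b w [MOD p - 1] := by
    intro w
    have h1 := (Nat.chineseRemainder hco (a w) (b w)).2.2
    have h2 : p * (p - 1) ≡ 0 [MOD p - 1] := (Nat.modEq_zero_iff_dvd).2 (Dvd.intro_left _ rfl)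
    exact Nat.ModEq.add h1 h2
  have h1 := Dec_ev_modEq hp ha hb hxa hxb hs (by omega)
  have h2 := Dec_ev_modEq hp ha hb hxa hxb ht (by omega)
  rw [h x hx0] at h1
  have h3 : s.ev a b ≡ t.ev a b [MOD p] := h1.symm.trans h2
  have h4 := Nat.ModEq.eq_of_lt_of_lt h3 (by omega) (by omega)
  exact h4

end Pool.Agent.TI
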