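import Pool.Agent.H.MP_b2d7dd_lc.TI.Terms

/-!
# Module LineA: the value as a polynomial in one base variable
-/

namespace Pool.Agent.TI

open Polynomial

/-- A bound for the degree in the base variables. -/
def Tm.dg (b : List Bool → ℕ) : Tm → ℕ
  | .one => 0
  | .var _ => 1
  | .add s t => s.dg b + t.dg b
  | .mul s t => s.dg b + t.dg b
  | .pow s t => s.dg b * t.val b

private theorem LineA_sum {B s t x y : ℕ} (hB0 : 0 < B) (hx : x ≤ s * B ^ s)
    (hy : y ≤ t * B ^ t) : x + y ≤ (s + t + 1) * B ^ (s + t + 1) := by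
  have h1 : B ^ s ≤ B ^ (s + t + 1) := Nat.pow_le_pow_right hB0 (by omega)
  have h2 : B ^ t ≤ B ^ (s + t + 1) := Nat.pow_le_pow_right hB0 (by omega)
  have h3 : s * B ^ s ≤ s * B ^ (s + t + 1) := Nat.mul_le_mul_left _ h1
  have h4 : t * B ^ t ≤ t * B ^ (s + t + 1) := Nat.mul_le_mul_left _ h2
  have h5 : (s + t + 1) * B ^ (s + t + 1) =
      s * B ^ (s + t + 1) + t * B ^ (s + t + 1) + B ^ (s + t + 1) := by ring
  omega

theorem Tm.dg_le {b : List Bool → ℕ} {B : ℕ} (hB : 2 ≤ B) (hb : ∀ w, b w ≤ B) {t : Tm}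
    (ht : t.EF) : t.dg b ≤ t.sz * B ^ t.sz := by
  have hB0 : 0 < B := by omega
  induction t with
  | one => exact Nat.zero_le _
  | var w =>
    show 1 ≤ 1 * B ^ 1
    rw [one_mul, pow_one]
    omega
  | add s t ihs iht => exact LineA_sum hB0 (ihs ht.1) (iht ht.2)
  | mul s t ihs iht => exact LineA_sum hB0 (ihs ht.1) (iht ht.2)
  | pow s t ihs _ =>
    show s.dg b * t.val b ≤ (s.sz + t.sz + 1) * B ^ (s.sz + t.sz + 1)
    calc s.dg b * t.val b ≤ s.sz * B ^ s.sz * B ^ t.sz :=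
          Nat.mul_le_mul (ihs ht.1) (Tm.val_le hB hb ht.2)
      _ = s.sz * B ^ (s.sz + t.sz) := by rw [mul_assoc, ← pow_add]
      _ ≤ (s.sz + t.sz + 1) * B ^ (s.sz + t.sz + 1) :=
          Nat.mul_le_mul (by omega) (Nat.pow_le_pow_right hB0 (Nat.le_succ _))

theorem lineA (t : Tm) (a b : List Bool → ℕ) (w : List Bool) :
    ∃ P : ℤ[X], P.natDegree ≤ t.dg b ∧
      ∀ y : ℕ, ((t.ev (Function.update a w y) b : ℕ) : ℤ) = P.eval (y : ℤ) := by
  induction t with
  | one =>
    refine ⟨1, ?_, fun y => ?_⟩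
    · rw [natDegree_one]
      exact Nat.zero_le _
    · show ((1 : ℕ) : ℤ) = _
      rw [eval_one, Nat.cast_one]
  | var v =>
    by_cases h : v = w
    · subst h
      refine ⟨X, natDegree_X_le, fun y => ?_⟩
      show ((Function.update a v y v : ℕ) : ℤ) = _
      rw [Function.update_self, eval_X]
    · refine ⟨C ((a v : ℕ) : ℤ), ?_, fun y => ?_⟩
      · rw [natDegree_C]
        exact Nat.zero_le _
      · show ((Function.update a w y v : ℕ) : ℤ) = _
        rw [Function.update_of_ne h, eval_C]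
  | add s t ihs iht =>
    obtain ⟨P, hP, hP'⟩ := ihs
    obtain ⟨Q, hQ, hQ'⟩ := iht
    refine ⟨P + Q, ?_, fun y => ?_⟩
    · refine (natDegree_add_le P Q).trans (max_le ?_ ?_)
      · exact hP.trans (Nat.le_add_right _ _)
      · exact hQ.trans (Nat.le_add_left _ _)
    · show ((s.ev (Function.update a w y) b + t.ev (Function.update a w y) b : ℕ) : ℤ) = _
      rw [Nat.cast_add, hP' y, hQ' y, eval_add]
  | mul s t ihs iht =>
    obtain ⟨P, hP, hP'⟩ := ihs
    obtain ⟨Q, hQ, hQ'⟩ := iht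
    refine ⟨P * Q, natDegree_mul_le.trans (Nat.add_le_add hP hQ), fun y => ?_⟩
    show ((s.ev (Function.update a w y) b * t.ev (Function.update a w y) b : ℕ) : ℤ) = _
    rw [Nat.cast_mul, hP' y, hQ' y, eval_mul]
  | pow s t ihs _ =>
    obtain ⟨P, hP, hP'⟩ := ihs
    refine ⟨P ^ t.val b, ?_, fun y => ?_⟩
    · refine natDegree_pow_le.trans ?_
      show t.val b * P.natDegree ≤ s.dg b * t.val b
      rw [mul_comm]
      exact Nat.mul_le_mul_right _ hP
    · show ((s.ev (Function.update a w y) b ^ t.val b : ℕ) : ℤ) = _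
      rw [Nat.cast_pow, hP' y, eval_pow]

/-- The number of zeros of the difference on a line (the roots of the difference of the two
polynomials). -/
theorem zerosA {s t : Tm} (hs : s.EF) (ht : t.EF) (a b : List Bool → ℕ) {B : ℕ} (hB : 2 ≤ B)
    (hb : ∀ w, b w ≤ B) (w : List Bool)
    (h : ∃ y : ℕ, s.ev (Function.update a w y) b ≠ t.ev (Function.update a w y) b)
    (S : Finset ℕ)
    (hS : ∀ y ∈ S, s.ev (Function.update a w y) b = t.ev (Function.update a w y) b) :
    S.card ≤ (s.sz + t.sz) * B ^ (s.sz + t.sz) := by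
  have hB0 : 0 < B := by omega
  obtain ⟨P, hP, hP'⟩ := lineA s a b w
  obtain ⟨Q, hQ, hQ'⟩ := lineA t a b w
  obtain ⟨y, hy⟩ := h
  have hne : P - Q ≠ 0 := by
    intro h0
    apply hy
    have h1 : P.eval (y : ℤ) - Q.eval (y : ℤ) = 0 := by
      rw [← eval_sub, h0, eval_zero]
    rw [← hP' y, ← hQ' y] at h1
    exact Int.natCast_inj.1 (sub_eq_zero.1 h1)
  have hcard : S.card ≤ (P - Q).roots.toFinset.card := by
    have hsub : S.map (Nat.castEmbedding (R := ℤ)) ⊆ (P - Q).roots.toFinset := by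
      intro z hz
      obtain ⟨x, hx, rfl⟩ := Finset.mem_map.1 hz
      rw [Multiset.mem_toFinset, mem_roots hne, IsRoot.def, eval_sub, Nat.castEmbedding_apply,
        ← hP' x, ← hQ' x, hS x hx, sub_self]
    have := Finset.card_le_card hsub
    rwa [Finset.card_map] at this
  have h1 : (P - Q).roots.toFinset.card ≤ (P - Q).natDegree :=
    (Multiset.toFinset_card_le _).trans (card_roots' _)
  have h2 : (P - Q).natDegree ≤ s.dg b + t.dg b := by
    refine (natDegree_sub_le P Q).trans (max_le ?_ ?_)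
    · exact hP.trans (Nat.le_add_right _ _)
    · exact hQ.trans (Nat.le_add_left _ _)
  have h3 := Tm.dg_le hB hb hs
  have h4 := Tm.dg_le hB hb ht
  have h5 : B ^ s.sz ≤ B ^ (s.sz + t.sz) := Nat.pow_le_pow_right hB0 (by omega)
  have h6 : B ^ t.sz ≤ B ^ (s.sz + t.sz) := Nat.pow_le_pow_right hB0 (by omega)
  calc S.card ≤ s.dg b + t.dg b := hcard.trans (h1.trans h2)
    _ ≤ s.sz * B ^ s.sz + t.sz * B ^ t.sz := Nat.add_le_add h3 h4
    _ ≤ s.sz * B ^ (s.sz + t.sz) + t.sz * B ^ (s.sz + t.sz) :=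
        Nat.add_le_add (Nat.mul_le_mul_left _ h5) (Nat.mul_le_mul_left _ h6)
    _ = (s.sz + t.sz) * B ^ (s.sz + t.sz) := (add_mul _ _ _).symm

end Pool.Agent.TI
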