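import Pool.Agent.H.MP_b2d7dd_lc.TI.Zs

/-!
# Module Zl: zeros of the sum given by a list

Write `h = C (h.coeff 0) + g` with `g.coeff 0 = 0` for the exponents of the list; let `G` be the
finite set of the `g`, `C_g` the sum of `c * exp (h.coeff 0)` over the elements `(c, h)` of the
list with given `g`. Then `esum l y = ∑_{g ∈ G} C_g exp (g y)`, `#G ≤ l.length`, different
elements of `G` have different derivatives (a polynomial with derivative `0` and constant
coefficient `0` is `0`), and not all `C_g` are zero. Enumerate `G` (`G.equivFin`, or `G.toList`) and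
use `zeros_seq` and `Zb_mono`.
-/

namespace Pool.Agent.TI

open Polynomial

private theorem Zl_norm (d : ℕ) (l : List (ℝ × ℝ[X])) (hd : ∀ q ∈ l, q.2.natDegree ≤ d) :
    ∃ (G : Finset ℝ[X]) (c : ℝ[X] → ℝ), G.card ≤ l.length ∧
      (∀ g ∈ G, g.natDegree ≤ d ∧ g.coeff 0 = 0) ∧
      ∀ y, esum l y = ∑ g ∈ G, c g * Real.exp (g.eval y) := by
  classical
  induction l with
  | nil => exact ⟨∅, fun _ => 0, by simp, by simp, fun y => by simp [esum]⟩
  | cons q l ih =>
    obtain ⟨G, c, hG, hg, hs⟩ := ih fun q' hq' => hd q' (List.mem_cons_of_mem _ hq')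
    obtain ⟨g₀, hg₀⟩ : ∃ g₀ : ℝ[X], g₀ = q.2 - C (q.2.coeff 0) := ⟨_, rfl⟩
    refine ⟨insert g₀ G, fun g => (if g = g₀ then q.1 * Real.exp (q.2.coeff 0) else 0) +
      (if g ∈ G then c g else 0), ?_, ?_, ?_⟩
    · rw [List.length_cons]
      exact (Finset.card_insert_le _ _).trans (Nat.succ_le_succ hG)
    · intro g hgG
      rcases Finset.mem_insert.1 hgG with rfl | h
      · rw [hg₀]
        refine ⟨?_, ?_⟩
        · rw [natDegree_sub_C]
          exact hd q List.mem_cons_self
        · rw [coeff_sub, coeff_C_zero, sub_self]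
      · exact hg g h
    · intro y
      have h1 : esum (q :: l) y = q.1 * Real.exp (q.2.eval y) + esum l y := by
        simp [esum]
      have h2 : ∑ g ∈ insert g₀ G, (if g ∈ G then c g else 0) * Real.exp (g.eval y) =
          ∑ g ∈ G, c g * Real.exp (g.eval y) := by
        have h3 : ∑ g ∈ G, (if g ∈ G then c g else 0) * Real.exp (g.eval y) =
            ∑ g ∈ G, c g * Real.exp (g.eval y) :=
          Finset.sum_congr rfl fun g hgG => by rw [if_pos hgG]
        rw [← h3]
        refine (Finset.sum_subset (Finset.subset_insert _ _) fun g _ hgn => ?_).symm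
        rw [if_neg hgn, zero_mul]
      have h4 : ∑ g ∈ insert g₀ G, (if g = g₀ then q.1 * Real.exp (q.2.coeff 0) else 0) *
          Real.exp (g.eval y) = q.1 * Real.exp (q.2.eval y) := by
        rw [Finset.sum_eq_single g₀]
        · rw [if_pos rfl, mul_assoc, ← Real.exp_add, hg₀, eval_sub, eval_C]
          congr 2
          ring
        · intro g _ hne
          rw [if_neg hne, zero_mul]
        · intro hn
          exact absurd (Finset.mem_insert_self _ _) hn
      rw [h1, hs y, ← h2, ← h4, ← Finset.sum_add_distrib]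
      refine Finset.sum_congr rfl fun g _ => ?_
      rw [add_mul]

private theorem Zl_deriv {g g' : ℝ[X]} (h : g.coeff 0 = 0) (h' : g'.coeff 0 = 0)
    (hd : derivative g = derivative g') : g = g' := by
  have h1 : derivative (g - g') = 0 := by rw [derivative_sub, hd, sub_self]
  have h2 := eq_C_of_natDegree_eq_zero (derivative_eq_zero.1 h1)
  rw [coeff_sub, h, h', sub_self, C_0] at h2
  exact sub_eq_zero.1 h2

theorem zeros_list (l : List (ℝ × ℝ[X])) {d : ℕ} (hd : ∀ q ∈ l, q.2.natDegree ≤ d)
    (hne : ∃ y : ℝ, esum l y ≠ 0) (S : Finset ℝ) (hS : ∀ y ∈ S, esum l y = 0) :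
    S.card ≤ Zb l.length d := by
  classical
  obtain ⟨G, c, hG, hg, hs⟩ := Zl_norm d l hd
  obtain ⟨m, hm⟩ : ∃ m : ℕ, m = G.card := ⟨_, rfl⟩
  have e : Fin m ≃ G := (Fin.castOrderIso hm).toEquiv.trans G.equivFin.symm
  obtain ⟨h, hh⟩ : ∃ h : ℕ → ℝ[X], ∀ i : Fin m, h i = (e i : ℝ[X]) :=
    ⟨fun i => if hi : i < m then (e ⟨i, hi⟩ : ℝ[X]) else 0, fun i => by
      simp only [i.2, dif_pos]⟩
  have hsum : ∀ y, ∑ i ∈ Finset.range m, c (h i) * Real.exp ((h i).eval y) = esum l y := by
    intro y
    rw [hs y, Finset.sum_range, ← Finset.sum_coe_sort G, ← Equiv.sum_comp e]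
    refine Finset.sum_congr rfl fun i _ => ?_
    rw [hh i]
  have h1 : S.card ≤ Zb m d := by
    refine zeros_seq m (h := h) (d := d) ?_ ?_ (fun i => c (h i)) ?_ S ?_
    · intro i hi
      have h2 := hh ⟨i, hi⟩
      simp only at h2
      rw [h2]
      exact (hg _ (e ⟨i, hi⟩).2).1
    · intro i hi j hj hij hder
      have h2 := hh ⟨i, hi⟩
      have h3 := hh ⟨j, hj⟩
      simp only at h2 h3
      rw [h2, h3] at hder
      have h4 := Zl_deriv (hg _ (e ⟨i, hi⟩).2).2 (hg _ (e ⟨j, hj⟩).2).2 hder
      have h5 := e.injective (Subtype.ext h4)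
      exact hij (congrArg Fin.val h5)
    · by_contra hcon
      push Not at hcon
      obtain ⟨y, hy⟩ := hne
      refine hy ?_
      rw [← hsum y]
      refine Finset.sum_eq_zero fun i hi => ?_
      rw [hcon i (Finset.mem_range.1 hi), zero_mul]
    · intro x hx
      rw [hsum x]
      exact hS x hx
  exact h1.trans (Zb_mono (hm.le.trans hG) le_rfl)

end Pool.Agent.TI
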