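import Pool.Agent.H.MP_b2d7dd_lc.TI.LineA
import Pool.Agent.H.MP_b2d7dd_lc.TI.Zl

/-!
# Module LineB: the value as a sum of exponentials in one exponent variable

On a line `b = update b w y` an exponentiation-free term is a polynomial in `y` (`valLine`), a base
`u` with positive base values is `c * exp (h y)`, `c > 0` (`baseLine`: an exponentiation-free term
does not depend on `b`; `(c e^h) ^ V = exp (V (log c + h))`), and a tame term is a sum of
exponentials (`lineB`: sum: append the lists; product: all products of a summand of one list and a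
summand of the other).
-/

namespace Pool.Agent.TI

open Polynomial

theorem valLine {t : Tm} (ht : t.ExpFree) (b : List Bool → ℕ) (w : List Bool) :
    ∃ P : ℝ[X], P.natDegree ≤ t.sz ∧
      ∀ y : ℕ, ((t.val (Function.update b w y) : ℕ) : ℝ) = P.eval (y : ℝ) := by
  induction t with
  | one =>
    refine ⟨1, by simp, fun y => ?_⟩
    show ((1 : ℕ) : ℝ) = eval (y : ℝ) 1
    simp
  | var w' =>
    by_cases h : w' = w
    · refine ⟨X, natDegree_X_le, fun y => ?_⟩
      show ((Function.update b w y w' : ℕ) : ℝ) = eval (y : ℝ) X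
      rw [h, Function.update_self, eval_X]
    · refine ⟨C (b w' : ℝ), by rw [natDegree_C]; exact Nat.zero_le _, fun y => ?_⟩
      show ((Function.update b w y w' : ℕ) : ℝ) = eval (y : ℝ) (C (b w' : ℝ))
      rw [Function.update_of_ne h, eval_C]
  | add s t ihs iht =>
    obtain ⟨P, hP, hP2⟩ := ihs ht.1
    obtain ⟨Q, hQ, hQ2⟩ := iht ht.2
    refine ⟨P + Q, ?_, fun y => ?_⟩
    · show (P + Q).natDegree ≤ s.sz + t.sz + 1
      refine (natDegree_add_le _ _).trans (max_le ?_ ?_) <;> omega
    · show ((s.val (Function.update b w y) + t.val (Function.update b w y) : ℕ) : ℝ) = _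
      rw [Nat.cast_add, hP2, hQ2, eval_add]
  | mul s t ihs iht =>
    obtain ⟨P, hP, hP2⟩ := ihs ht.1
    obtain ⟨Q, hQ, hQ2⟩ := iht ht.2
    refine ⟨P * Q, ?_, fun y => ?_⟩
    · show (P * Q).natDegree ≤ s.sz + t.sz + 1
      refine natDegree_mul_le.trans ?_
      omega
    · show ((s.val (Function.update b w y) * t.val (Function.update b w y) : ℕ) : ℝ) = _
      rw [Nat.cast_mul, hP2, hQ2, eval_mul]
  | pow s t _ _ => exact ht.elim

theorem baseLine {t : Tm} (ht : t.Base) {a : List Bool → ℕ} (ha : ∀ w, 0 < a w)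
    (b : List Bool → ℕ) (w : List Bool) :
    ∃ (c : ℝ) (h : ℝ[X]), 0 < c ∧ h.natDegree ≤ t.sz ∧
      ∀ y : ℕ, ((t.ev a (Function.update b w y) : ℕ) : ℝ) = c * Real.exp (h.eval (y : ℝ)) := by
  induction t with
  | one =>
    refine ⟨1, 0, one_pos, by simp, fun y => ?_⟩
    show ((1 : ℕ) : ℝ) = _
    simp
  | var w' =>
    refine ⟨(a w' : ℝ), 0, Nat.cast_pos.2 (ha w'), by simp, fun y => ?_⟩
    show ((a w' : ℕ) : ℝ) = _
    simp
  | add s t _ _ =>
    have he : (Tm.add s t).ExpFree := ht
    refine ⟨(((Tm.add s t).val a : ℕ) : ℝ), 0, Nat.cast_pos.2 (Tm.val_pos ha _), by simp,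
      fun y => ?_⟩
    rw [Tm.ev_expFree _ _ he]
    simp
  | mul s t ihs iht =>
    obtain ⟨c, h, hc, hd, h2⟩ := ihs ht.1
    obtain ⟨c', h', hc', hd', h2'⟩ := iht ht.2
    refine ⟨c * c', h + h', mul_pos hc hc', ?_, fun y => ?_⟩
    · show (h + h').natDegree ≤ s.sz + t.sz + 1
      refine (natDegree_add_le _ _).trans (max_le ?_ ?_) <;> omega
    · show ((s.ev a (Function.update b w y) * t.ev a (Function.update b w y) : ℕ) : ℝ) = _
      rw [Nat.cast_mul, h2, h2', eval_add, Real.exp_add]
      ring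
  | pow s t ihs _ =>
    obtain ⟨c, h, hc, hd, h2⟩ := ihs ht.1
    obtain ⟨P, hP, hP2⟩ := valLine ht.2 b w
    refine ⟨1, P * (C (Real.log c) + h), one_pos, ?_, fun y => ?_⟩
    · show (P * (C (Real.log c) + h)).natDegree ≤ s.sz + t.sz + 1
      refine natDegree_mul_le.trans ?_
      have h3 : (C (Real.log c) + h).natDegree ≤ s.sz := by
        refine (natDegree_add_le _ _).trans (max_le ?_ hd)
        rw [natDegree_C]
        exact Nat.zero_le _
      omega
    · show ((s.ev a (Function.update b w y) ^ t.val (Function.update b w y) : ℕ) : ℝ) = _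
      rw [Nat.cast_pow, h2, one_mul, eval_mul, ← hP2, Real.exp_nat_mul, eval_add, eval_C,
        Real.exp_add, Real.exp_log hc]

theorem esum_append (l m : List (ℝ × ℝ[X])) (y : ℝ) :
    esum (l ++ m) y = esum l y + esum m y := by
  unfold esum
  rw [List.map_append, List.sum_append]

private theorem LineB_single (c : ℝ) (h : ℝ[X]) (y : ℝ) :
    esum [(c, h)] y = c * Real.exp (h.eval y) := by
  simp [esum]

private theorem LineB_map (q : ℝ × ℝ[X]) (m : List (ℝ × ℝ[X])) (y : ℝ) :
    esum (m.map fun r => (q.1 * r.1, q.2 + r.2)) y = q.1 * Real.exp (q.2.eval y) * esum m y := by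
  induction m with
  | nil => simp [esum]
  | cons r m ih =>
    have h1 : esum (r :: m) y = r.1 * Real.exp (r.2.eval y) + esum m y := by simp [esum]
    have h2 : esum ((r :: m).map fun r => (q.1 * r.1, q.2 + r.2)) y =
        q.1 * r.1 * Real.exp ((q.2 + r.2).eval y) +
          esum (m.map fun r => (q.1 * r.1, q.2 + r.2)) y := by
      simp [esum]
    rw [h1, h2, ih, eval_add, Real.exp_add]
    ring

private theorem LineB_prod (l m : List (ℝ × ℝ[X])) (y : ℝ) :
    esum (l.flatMap fun q => m.map fun r => (q.1 * r.1, q.2 + r.2)) y = esum l y * esum m y := by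
  induction l with
  | nil => simp [esum]
  | cons q l ih =>
    have h1 : esum (q :: l) y = q.1 * Real.exp (q.2.eval y) + esum l y := by simp [esum]
    rw [List.flatMap_cons, esum_append, ih, LineB_map, h1]
    ring

private theorem LineB_len (l m : List (ℝ × ℝ[X])) :
    (l.flatMap fun q => m.map fun r => (q.1 * r.1, q.2 + r.2)).length = l.length * m.length := by
  induction l with
  | nil => simp
  | cons q l ih =>
    rw [List.flatMap_cons, List.length_append, ih, List.length_map, List.length_cons]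
    ring

private theorem LineB_neg (m : List (ℝ × ℝ[X])) (y : ℝ) :
    esum (m.map fun r => (-r.1, r.2)) y = -esum m y := by
  induction m with
  | nil => simp [esum]
  | cons r m ih =>
    have h1 : esum (r :: m) y = r.1 * Real.exp (r.2.eval y) + esum m y := by simp [esum]
    have h2 : esum ((r :: m).map fun r => (-r.1, r.2)) y =
        -r.1 * Real.exp (r.2.eval y) + esum (m.map fun r => (-r.1, r.2)) y := by
      simp [esum]
    rw [h1, h2, ih]
    ring

theorem lineB {t : Tm} (ht : t.Tame) {a : List Bool → ℕ} (ha : ∀ w, 0 < a w)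
    (b : List Bool → ℕ) (w : List Bool) :
    ∃ l : List (ℝ × ℝ[X]), l.length ≤ 2 ^ t.sz ∧ (∀ q ∈ l, q.2.natDegree ≤ t.sz) ∧
      ∀ y : ℕ, ((t.ev a (Function.update b w y) : ℕ) : ℝ) = esum l (y : ℝ) := by
  have hbase : ∀ t : Tm, t.Base → ∃ l : List (ℝ × ℝ[X]), l.length ≤ 2 ^ t.sz ∧
      (∀ q ∈ l, q.2.natDegree ≤ t.sz) ∧
      ∀ y : ℕ, ((t.ev a (Function.update b w y) : ℕ) : ℝ) = esum l (y : ℝ) := by
    intro t ht
    obtain ⟨c, h, -, hd, h2⟩ := baseLine ht ha b w
    refine ⟨[(c, h)], ?_, ?_, fun y => ?_⟩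
    · exact Nat.one_le_two_pow
    · intro q hq
      rw [List.mem_singleton.1 hq]
      exact hd
    · rw [LineB_single, h2]
  induction t with
  | one => exact hbase _ trivial
  | var w' => exact hbase _ trivial
  | add s t ihs iht =>
    obtain ⟨l, hl, hd, h2⟩ := ihs ht.1
    obtain ⟨m, hm, hd', h2'⟩ := iht ht.2
    refine ⟨l ++ m, ?_, ?_, fun y => ?_⟩
    · show (l ++ m).length ≤ 2 ^ (s.sz + t.sz + 1)
      rw [List.length_append, pow_succ]
      have h3 : 2 ^ s.sz ≤ 2 ^ (s.sz + t.sz) :=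
        Nat.pow_le_pow_right (by norm_num) (Nat.le_add_right _ _)
      have h4 : 2 ^ t.sz ≤ 2 ^ (s.sz + t.sz) :=
        Nat.pow_le_pow_right (by norm_num) (Nat.le_add_left _ _)
      omega
    · intro q hq
      show q.2.natDegree ≤ s.sz + t.sz + 1
      rcases List.mem_append.1 hq with h | h
      · have := hd q h
        omega
      · have := hd' q h
        omega
    · show ((s.ev a (Function.update b w y) + t.ev a (Function.update b w y) : ℕ) : ℝ) = _
      rw [Nat.cast_add, h2, h2', esum_append]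
  | mul s t ihs iht =>
    obtain ⟨l, hl, hd, h2⟩ := ihs ht.1
    obtain ⟨m, hm, hd', h2'⟩ := iht ht.2
    refine ⟨l.flatMap fun q => m.map fun r => (q.1 * r.1, q.2 + r.2), ?_, ?_, fun y => ?_⟩
    · show _ ≤ 2 ^ (s.sz + t.sz + 1)
      rw [LineB_len]
      calc l.length * m.length ≤ 2 ^ s.sz * 2 ^ t.sz := Nat.mul_le_mul hl hm
        _ = 2 ^ (s.sz + t.sz) := (pow_add _ _ _).symm
        _ ≤ 2 ^ (s.sz + t.sz + 1) := Nat.pow_le_pow_right (by norm_num) (Nat.le_succ _)
    · intro q hq
      show q.2.natDegree ≤ s.sz + t.sz + 1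
      obtain ⟨q1, hq1, hq'⟩ := List.mem_flatMap.1 hq
      obtain ⟨r, hr, rfl⟩ := List.mem_map.1 hq'
      have h3 := hd q1 hq1
      have h4 := hd' r hr
      refine (natDegree_add_le _ _).trans (max_le ?_ ?_) <;> omega
    · show ((s.ev a (Function.update b w y) * t.ev a (Function.update b w y) : ℕ) : ℝ) = _
      rw [Nat.cast_mul, h2, h2', LineB_prod]
  | pow s t _ _ => exact hbase _ ht

theorem zerosB {s t : Tm} (hs : s.Tame) (ht : t.Tame) {a : List Bool → ℕ} (ha : ∀ w, 0 < a w)
    (b : List Bool → ℕ) (w : List Bool)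
    (h : ∃ y : ℕ, s.ev a (Function.update b w y) ≠ t.ev a (Function.update b w y))
    (S : Finset ℕ)
    (hS : ∀ y ∈ S, s.ev a (Function.update b w y) = t.ev a (Function.update b w y)) :
    S.card ≤ Zb (2 ^ (s.sz + t.sz + 1)) (s.sz + t.sz) := by
  classical
  obtain ⟨l, hl, hd, h2⟩ := lineB hs ha b w
  obtain ⟨m, hm, hd', h2'⟩ := lineB ht ha b w
  have hval : ∀ y : ℕ, esum (l ++ m.map fun r => (-r.1, r.2)) (y : ℝ) =
      ((s.ev a (Function.update b w y) : ℕ) : ℝ) - ((t.ev a (Function.update b w y) : ℕ) : ℝ) := by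
    intro y
    rw [esum_append, LineB_neg, h2, h2']
    ring
  have hdeg : ∀ q ∈ l ++ m.map fun r => (-r.1, r.2), q.2.natDegree ≤ s.sz + t.sz := by
    intro q hq
    rcases List.mem_append.1 hq with h3 | h3
    · have := hd q h3
      omega
    · obtain ⟨r, hr, rfl⟩ := List.mem_map.1 h3
      have := hd' r hr
      show r.2.natDegree ≤ s.sz + t.sz
      omega
  have hz := zeros_list (l ++ m.map fun r => (-r.1, r.2)) hdeg ?_
    (S.image fun y : ℕ => (y : ℝ)) ?_
  · rw [Finset.card_image_of_injective _ Nat.cast_injective] at hz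
    refine hz.trans (Zb_mono ?_ le_rfl)
    rw [List.length_append, List.length_map, pow_succ]
    have h3 : 2 ^ s.sz ≤ 2 ^ (s.sz + t.sz) :=
      Nat.pow_le_pow_right (by norm_num) (Nat.le_add_right _ _)
    have h4 : 2 ^ t.sz ≤ 2 ^ (s.sz + t.sz) :=
      Nat.pow_le_pow_right (by norm_num) (Nat.le_add_left _ _)
    omega
  · obtain ⟨y, hy⟩ := h
    refine ⟨(y : ℝ), ?_⟩
    rw [hval, sub_ne_zero]
    exact fun h3 => hy (Nat.cast_injective h3)
  · intro x hx
    obtain ⟨y, hy, rfl⟩ := Finset.mem_image.1 hx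
    rw [hval, hS y hy, sub_self]

end Pool.Agent.TI
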