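import Pool.Agent.H.MP_b2d7dd_lc.TI.CntAll
import Pool.Agent.H.MP_b2d7dd_lc.TI.Dec
import Pool.Agent.H.MP_b2d7dd_lc.TI.Read

/-!
# Module Main: the identities between tame terms are in coRP
-/

namespace Pool.Agent.TI

open Pool.Agent.H.MP_5be563_lc.PT

theorem aR_pos (n : ℕ) (N : List (List Bool)) (r : List Bool) (w : List Bool) :
    0 < aR n N r w := Nat.succ_pos _

theorem bR_pos (n : ℕ) (N : List (List Bool)) (r : List Bool) (w : List Bool) :
    0 < bR n N r w := Nat.succ_pos _

theorem accept_valid {x : List Bool} (h : x ∈ tameIdentities) (r : List Bool) :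
    accept x r = true := by
  obtain ⟨s, t, hs, ht, hv, hx⟩ := h
  rw [accept_code hs ht hx]
  intro j _
  rw [decouple hs.ef ht.ef hv (aR_pos _ _ _) (bR_pos _ _ _)]

theorem accept_prob {x : List Bool} (h : x ∉ tameIdentities) {p : Polynomial ℕ}
    (hp : ∀ n, p.eval n = TT n * wA n) :
    prob (p.eval x.length) (fun r => accept x r = true) ≤ 1 / 2 := by
  unfold prob
  rw [hp, card_join (TT x.length) (wA x.length) (fun r => accept x r = true)]
  by_cases hc : ∃ s t : Tm, s.Tame ∧ t.Tame ∧ x = s.code ++ t.code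
  · obtain ⟨s, t, hs, ht, hx⟩ := hc
    have hv : ¬ Valid s t := fun hv => h ⟨s, t, hs, ht, hv, hx⟩
    have hn : s.sz + t.sz ≤ x.length := by
      rw [hx, List.length_append]
      exact Nat.add_le_add s.sz_le_code t.sz_le_code
    have h1 := cntAll hs ht hn hv
    have h2 : Nat.card {ρ : Fin (TT x.length) → Fin (wA x.length) → Bool //
        accept x (join ρ) = true} =
        Nat.card {ρ : Fin (TT x.length) → Fin (wA x.length) → Bool // ∀ j < KK x.length,
          s.ev (aR x.length (s.vars ++ t.vars) (join ρ))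
            (bR x.length (s.vars ++ t.vars) (join ρ)) ≡
          t.ev (aR x.length (s.vars ++ t.vars) (join ρ))
            (bR x.length (s.vars ++ t.vars) (join ρ))
          [MOD bval (blk x.length (join ρ) (x.length + 1 + (x.length + 1) + j)) + 1]} := by
      refine Nat.card_congr (Equiv.subtypeEquivRight fun ρ => ?_)
      exact accept_code hs ht hx (join ρ)
    rw [h2, div_le_iff₀ (by positivity)]
    have h3 : (2 : ℝ) * (Nat.card {ρ : Fin (TT x.length) → Fin (wA x.length) → Bool //
        ∀ j < KK x.length,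
          s.ev (aR x.length (s.vars ++ t.vars) (join ρ))
            (bR x.length (s.vars ++ t.vars) (join ρ)) ≡
          t.ev (aR x.length (s.vars ++ t.vars) (join ρ))
            (bR x.length (s.vars ++ t.vars) (join ρ))
          [MOD bval (blk x.length (join ρ) (x.length + 1 + (x.length + 1) + j)) + 1]} : ℝ) ≤
        2 ^ (TT x.length * wA x.length) := by exact_mod_cast h1
    linarith
  · have h2 : Nat.card {ρ : Fin (TT x.length) → Fin (wA x.length) → Bool //
        accept x (join ρ) = true} = 0 := by
      rw [Nat.card_eq_zero]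
      left
      refine ⟨fun ρ => hc ?_⟩
      exact accept_imp ρ.2
    rw [h2]
    norm_num

theorem main : CoRP tameIdentities := by
  obtain ⟨p, hp⟩ := exists_pT
  refine ⟨p, fun z => accept z.1 z.2, tm_accept, fun x => ⟨fun h r => accept_valid h r,
    fun h => accept_prob h hp⟩⟩

theorem mem_iff (s t : Tm) :
    s.code ++ t.code ∈ tameIdentities ↔ s.Tame ∧ t.Tame ∧ Valid s t := by
  constructor
  · rintro ⟨s', t', hs, ht, hv, h⟩
    have h1 := code_inj (a₁ := (s, t)) (a₂ := (s', t')) h
    rw [Prod.mk.injEq] at h1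
    rw [h1.1, h1.2]
    exact ⟨hs, ht, hv⟩
  · rintro ⟨hs, ht, hv⟩
    exact ⟨s, t, hs, ht, hv, rfl⟩

end Pool.Agent.TI
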