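import Pool.Agent.H.MP_b2d7dd_lc.TI.Wr

/-!
# Module Nz: the Wronskians of exponentials of polynomials

`pr h r` is the polynomial with `(e^h)^(r) = pr h r * e^h`, `PP n h` is the determinant of
`pr (h i) j` (`i, j < n`), so that `Wr n (e^{h_i}) = PP n h * e^{h_0 + ... + h_{n-1}}`
(`Matrix.det_mul_column` or `Matrix.det_mul_row`).
-/

namespace Pool.Agent.TI

open Polynomial
open scoped ContDiff

/-- The polynomial factor of the derivatives of `e^h`. -/
noncomputable def pr (h : ℝ[X]) : ℕ → ℝ[X]
  | 0 => 1
  | r + 1 => derivative (pr h r) + derivative h * pr h r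

/-- The polynomial factor of the Wronskian. -/
noncomputable def PP (n : ℕ) (h : ℕ → ℝ[X]) : ℝ[X] :=
  Matrix.det (Matrix.of fun i j : Fin n => pr (h i) j)

theorem sm_exp (h : ℝ[X]) : Sm (fun y => Real.exp (h.eval y)) := by
  unfold Sm
  have h1 : ContDiff ℝ ∞ (fun y : ℝ => aeval y h) := Polynomial.contDiff_aeval h ∞
  have h2 : (fun y : ℝ => aeval y h) = fun y => h.eval y := by
    funext y
    rw [coe_aeval_eq_eval]
  rw [h2] at h1
  exact Real.contDiff_exp.comp h1

theorem iter_exp (h : ℝ[X]) (r : ℕ) (x : ℝ) :
    iteratedDeriv r (fun y => Real.exp (h.eval y)) x =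
      (pr h r).eval x * Real.exp (h.eval x) := by
  induction r generalizing x with
  | zero => simp [pr]
  | succ r ih =>
    have hf : iteratedDeriv r (fun y => Real.exp (h.eval y)) =
        fun y => (pr h r).eval y * Real.exp (h.eval y) := funext ih
    rw [iteratedDeriv_succ, hf]
    have h1 : HasDerivAt (fun y => (pr h r).eval y) ((derivative (pr h r)).eval x) x :=
      (pr h r).hasDerivAt x
    have h2 : HasDerivAt (fun y => Real.exp (h.eval y))
        (Real.exp (h.eval x) * (derivative h).eval x) x := (h.hasDerivAt x).exp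
    have h3 := (h1.mul h2).deriv
    have h4 : deriv (fun y => eval y (pr h r) * Real.exp (eval y h)) x =
        deriv ((fun y => eval y (pr h r)) * fun y => Real.exp (eval y h)) x := rfl
    rw [h4, h3]
    simp only [pr, eval_add, eval_mul]
    ring

theorem wr_exp (n : ℕ) (h : ℕ → ℝ[X]) (x : ℝ) :
    Wr n (fun i y => Real.exp ((h i).eval y)) x =
      (PP n h).eval x * ∏ i ∈ Finset.range n, Real.exp ((h i).eval x) := by
  unfold Wr PP
  have h1 : (Matrix.of fun i j : Fin n =>
      iteratedDeriv (j : ℕ) (fun y => Real.exp ((h (i : ℕ)).eval y)) x) =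
      Matrix.of fun i j : Fin n => Real.exp ((h (i : ℕ)).eval x) *
        (Matrix.of (fun i j : Fin n => (pr (h i) j).eval x)) i j := by
    ext i j
    simp only [Matrix.of_apply]
    rw [iter_exp, mul_comm]
  rw [h1, Matrix.det_mul_column]
  have h2 : (Matrix.det (Matrix.of fun i j : Fin n => pr (h i) j)).eval x =
      Matrix.det (Matrix.of (fun i j : Fin n => (pr (h i) j).eval x)) := by
    have h3 := RingHom.map_det (evalRingHom x) (Matrix.of fun i j : Fin n => pr (h i) j)
    rw [coe_evalRingHom] at h3
    rw [h3]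
    congr 1
  rw [h2, mul_comm, Fin.prod_univ_eq_prod_range (fun i => Real.exp ((h i).eval x)) n]

theorem deg_pr {h : ℝ[X]} {d : ℕ} (hd : h.natDegree ≤ d) (r : ℕ) :
    (pr h r).natDegree ≤ r * d := by
  induction r with
  | zero => simp [pr]
  | succ r ih =>
    have h1 : (derivative (pr h r)).natDegree ≤ (r + 1) * d := by
      refine (natDegree_derivative_le _).trans ?_
      have : r * d ≤ (r + 1) * d := Nat.mul_le_mul_right _ (Nat.le_succ r)
      omega
    have h2 : (derivative h * pr h r).natDegree ≤ (r + 1) * d := by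
      refine natDegree_mul_le.trans ?_
      have h3 := natDegree_derivative_le h
      have h4 : (r + 1) * d = r * d + d := by ring
      omega
    exact natDegree_add_le_of_degree_le h1 h2

/-- `Matrix.det_apply`: every product has degree at most `∑_{r < n} r d`. -/
theorem deg_PP (n : ℕ) {h : ℕ → ℝ[X]} {d : ℕ} (hd : ∀ i < n, (h i).natDegree ≤ d) :
    (PP n h).natDegree ≤ n * (n * d) := by
  unfold PP
  rw [Matrix.det_apply]
  apply natDegree_sum_le_of_forall_le
  intro σ _
  refine (natDegree_smul_le _ _).trans ?_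
  refine (natDegree_prod_le _ _).trans ?_
  calc ∑ i : Fin n, ((Matrix.of fun i j : Fin n => pr (h i) j) (σ i) i).natDegree
      ≤ ∑ _i : Fin n, n * d := by
        apply Finset.sum_le_sum
        intro i _
        rw [Matrix.of_apply]
        refine (deg_pr (hd _ (σ i).2) i).trans ?_
        exact Nat.mul_le_mul_right _ (le_of_lt i.2)
    _ = n * (n * d) := by simp

end Pool.Agent.TI
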