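import Pool.Agent.H.MP_b2d7dd_lc.TI.Nz

/-!
# Module PPne: the Wronskians do not vanish identically

`PP_ne`: induction on `n`. Let `PP (n + 1) h = 0`, `M` the matrix. A row of the adjugate of `M`
(the last one) is a vector `a` with `∑_i a_i M_{i, r} = 0` for all `r ≤ n` (`Matrix.adjugate_mul`),
and `a_n = PP n h ≠ 0` (cofactor of the last row and the last column,
`Matrix.adjugate_fin_succ_eq_det_submatrix` or `Matrix.adjugate_apply`; the sign is `+`).
Differentiating the relation for `r < n` and using
`(pr h_i r)' = pr h_i (r + 1) - h_i' pr h_i r` gives `∑_i (a_i' - h_i' a_i) M_{i, r} = 0` for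
`r < n`. Multiply by `a_n` and subtract `(a_n' - h_n' a_n)` times the relation `r`: the
coefficients `b_i = a_n a_i' - a_n' a_i - (h_i' - h_n') a_i a_n`, `i < n`, satisfy
`∑_{i < n} b_i pr h_i r = 0` for `r < n`, so `b_i = 0` as `PP n h ≠ 0`
(`Matrix.eq_zero_of_vecMul_eq_zero`). If `a_i ≠ 0` for some `i < n`: the degree of
`a_n a_i' - a_n' a_i` is less than `deg a_i + deg a_n` (or it is zero), the degree of
`(h_i' - h_n') a_i a_n` is at least that (and it is not zero): contradiction. So `a_i = 0` for
`i < n` and the relation `r = 0` says `a_n = 0`: contradiction.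
-/

namespace Pool.Agent.TI

open Polynomial

/-- The degree argument. -/
private theorem PPne_deg {a c g : ℝ[X]} (hc : c ≠ 0) (hg : g ≠ 0)
    (h : c * derivative a - derivative c * a = g * a * c) : a = 0 := by
  by_contra ha
  have hbot : ∀ {p : ℝ[X]}, p ≠ 0 → p.degree ≠ ⊥ := fun hp h => hp (degree_eq_bot.mp h)
  have h1 : (c * derivative a).degree < c.degree + a.degree := by
    rw [degree_mul]
    exact WithBot.add_lt_add_left (hbot hc) (degree_derivative_lt ha)
  have h2 : (derivative c * a).degree < c.degree + a.degree := by
    rw [degree_mul]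
    exact WithBot.add_lt_add_right (hbot ha) (degree_derivative_lt hc)
  have h3 : (c * derivative a - derivative c * a).degree < c.degree + a.degree :=
    lt_of_le_of_lt (degree_sub_le _ _) (max_lt h1 h2)
  rw [h, degree_mul, degree_mul] at h3
  have h4 : (0 : WithBot ℕ) ≤ g.degree := zero_le_degree_iff.mpr hg
  have h5 : c.degree + a.degree ≤ g.degree + a.degree + c.degree := by
    calc c.degree + a.degree = 0 + a.degree + c.degree := by rw [zero_add, add_comm]
      _ ≤ g.degree + a.degree + c.degree := by gcongr
  exact absurd h3 (not_lt.mpr h5)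

theorem PP_ne (n : ℕ) {h : ℕ → ℝ[X]}
    (hh : ∀ i < n, ∀ j < n, i ≠ j → derivative (h i) ≠ derivative (h j)) : PP n h ≠ 0 := by
  induction n with
  | zero =>
    unfold PP
    rw [Matrix.det_fin_zero]
    exact one_ne_zero
  | succ n ih =>
    have ih' : PP n h ≠ 0 := ih fun i hi j hj hij => hh i (by omega) j (by omega) hij
    intro hdet
    set M : Matrix (Fin (n + 1)) (Fin (n + 1)) ℝ[X] :=
      Matrix.of fun i j : Fin (n + 1) => pr (h i) j with hM
    have hdet' : M.det = 0 := hdet
    set a : Fin (n + 1) → ℝ[X] := fun i => M.adjugate (Fin.last n) i with ha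
    -- the relations
    have hR : ∀ r : Fin (n + 1), ∑ i, a i * pr (h i) r = 0 := by
      intro r
      have h1 := congrFun (congrFun (Matrix.adjugate_mul M) (Fin.last n)) r
      rw [Matrix.mul_apply, hdet', zero_smul, Matrix.zero_apply] at h1
      exact h1
    -- the last coefficient
    have hlast : a (Fin.last n) = PP n h := by
      simp only [ha]
      rw [Matrix.adjugate_fin_succ_eq_det_submatrix]
      have h1 : ((-1 : ℝ[X]) ^ ((Fin.last n : ℕ) + (Fin.last n : ℕ))) = 1 := by
        rw [← two_mul, pow_mul]
        simp
      rw [h1, one_mul]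
      unfold PP
      congr 1
      ext i j
      simp [hM, Fin.succAbove_last]
    have hc : a (Fin.last n) ≠ 0 := by rw [hlast]; exact ih'
    -- differentiated relations
    have hD : ∀ r : ℕ, r < n →
        ∑ i : Fin (n + 1), (derivative (a i) - derivative (h i) * a i) * pr (h i) r = 0 := by
      intro r hr
      have h1 := hR ⟨r, by omega⟩
      have h2 := hR ⟨r + 1, by omega⟩
      have h3 := congrArg derivative h1
      rw [derivative_sum, derivative_zero] at h3
      have h4 : ∀ i : Fin (n + 1), (derivative (a i) - derivative (h i) * a i) * pr (h i) r =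
          derivative (a i * pr (h i) r) - a i * pr (h i) (r + 1) := by
        intro i
        rw [derivative_mul, pr]
        ring
      rw [Finset.sum_congr rfl fun i _ => h4 i, Finset.sum_sub_distrib]
      simp only at h2 h3
      rw [h3, h2, sub_zero]
    -- the combination
    set b : Fin n → ℝ[X] := fun i =>
      a (Fin.last n) * (derivative (a i.castSucc) - derivative (h i) * a i.castSucc) -
        (derivative (a (Fin.last n)) - derivative (h n) * a (Fin.last n)) * a i.castSucc with hb
    have hb0 : ∀ r : ℕ, r < n → ∑ i : Fin n, b i * pr (h i) r = 0 := by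
      intro r hr
      have h1 : ∑ i : Fin (n + 1), (a (Fin.last n) * (derivative (a i) - derivative (h i) * a i) -
          (derivative (a (Fin.last n)) - derivative (h n) * a (Fin.last n)) * a i) *
            pr (h i) r = 0 := by
        have h2 := hD r hr
        have h3 := hR ⟨r, by omega⟩
        simp only at h3
        calc _ = a (Fin.last n) * ∑ i : Fin (n + 1),
              (derivative (a i) - derivative (h i) * a i) * pr (h i) r -
              (derivative (a (Fin.last n)) - derivative (h n) * a (Fin.last n)) *
                ∑ i : Fin (n + 1), a i * pr (h i) r := by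
              rw [Finset.mul_sum, Finset.mul_sum, ← Finset.sum_sub_distrib]
              exact Finset.sum_congr rfl fun i _ => by ring
          _ = 0 := by rw [h2, h3, mul_zero, mul_zero, sub_zero]
      rw [Fin.sum_univ_castSucc] at h1
      have h4 : (a (Fin.last n) * (derivative (a (Fin.last n)) -
          derivative (h (Fin.last n)) * a (Fin.last n)) -
          (derivative (a (Fin.last n)) - derivative (h n) * a (Fin.last n)) * a (Fin.last n)) *
            pr (h (Fin.last n)) r = 0 := by
        rw [Fin.val_last]
        ring
      rw [h4, add_zero] at h1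
      simpa [hb] using h1
    have hbz : b = 0 := by
      have h1 : (Matrix.of fun i j : Fin n => pr (h i) j).det ≠ 0 := ih'
      apply Matrix.eq_zero_of_vecMul_eq_zero h1
      funext r
      rw [Matrix.vecMul, Pi.zero_apply]
      exact hb0 r r.2
    have haz : ∀ i : Fin n, a i.castSucc = 0 := by
      intro i
      have h1 : b i = 0 := congrFun hbz i
      apply PPne_deg (c := a (Fin.last n)) (g := derivative (h i) - derivative (h n)) hc
      · have h2 := hh i (by omega) n (by omega) (by omega)
        exact sub_ne_zero.mpr h2
      · simp only [hb] at h1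
        linear_combination h1
    have h0 := hR 0
    rw [Fin.sum_univ_castSucc] at h0
    have h1 : ∑ i : Fin n, a i.castSucc * pr (h (i.castSucc : Fin (n + 1))) (0 : Fin (n + 1)) = 0 :=
      Finset.sum_eq_zero fun i _ => by rw [haz i, zero_mul]
    rw [h1, zero_add] at h0
    simp only [Fin.val_zero, pr, mul_one] at h0
    exact hc h0

end Pool.Agent.TI
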