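import Pool.Agent.H.MP_b2d7dd_lc.TI.Wr

/-!
# Module Polya: zeros of combinations of functions with nonvanishing Wronskians

`rolle_card`: induction on the number of points (or `Finset.orderEmbOfFin`): between two
consecutive zeros there is a zero of the derivative.

`polya`: induction on `k`. For `k + 1`: `f 0` does not vanish on `I` (`wr_one`). If `c i = 0` for
`1 ≤ i ≤ k`, the combination is `c 0 * f 0`, without zeros. Otherwise let `q = (∑ c_i f_i) / f_0`;
`q' = (∑_{1 ≤ i ≤ k} c_i red f (i - 1)) / f_0 ^ 2` on `I`; by `rolle_card` the number of zeros of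
the numerator is at least the number of zeros of the combination minus one, and `red f` satisfies
the hypothesis for `k` (`red_ne`).

`polya_total`: the points of `S` outside `Y` are classified by the number of elements of `Y` below
them (at most `#Y + 1` classes); the points `x ∉ Y` with exactly `j` elements of `Y` below `x` form
an order-connected set without points of `Y`, so each class has at most `k - 1` points; at most
`#Y` points of `S` are in `Y`.
-/

namespace Pool.Agent.TI

open scoped ContDiff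

theorem rolle_card {q q' : ℝ → ℝ} {I : Set ℝ} (hI : I.OrdConnected)
    (hd : ∀ x ∈ I, HasDerivAt q (q' x) x) (S : Finset ℝ) (hS : ∀ x ∈ S, x ∈ I ∧ q x = 0) :
    ∃ T : Finset ℝ, (∀ x ∈ T, x ∈ I ∧ q' x = 0) ∧ S.card ≤ T.card + 1 := by
  suffices h : ∃ T : Finset ℝ, (∀ x ∈ T, (x ∈ I ∧ q' x = 0) ∧ ∃ s ∈ S, x < s) ∧
      S.card ≤ T.card + 1 by
    obtain ⟨T, h1, h2⟩ := h
    exact ⟨T, fun x hx => (h1 x hx).1, h2⟩
  induction S using Finset.induction_on_max with
  | empty => exact ⟨∅, by simp, by simp⟩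
  | insert a s ha ih =>
    obtain ⟨T, h1, h2⟩ := ih fun x hx => hS x (Finset.mem_insert_of_mem hx)
    rcases s.eq_empty_or_nonempty with rfl | hne
    · exact ⟨∅, by simp, by simp⟩
    have hb : s.max' hne ∈ s := s.max'_mem hne
    have hba : s.max' hne < a := ha _ hb
    have hbI := hS _ (Finset.mem_insert_of_mem hb)
    have haI := hS a (Finset.mem_insert_self _ _)
    have hsub : Set.Icc (s.max' hne) a ⊆ I := hI.out hbI.1 haI.1
    obtain ⟨c, hc, hc'⟩ := exists_hasDerivAt_eq_zero hba
      (fun x hx => (hd x (hsub hx)).continuousAt.continuousWithinAt)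
      (by rw [hbI.2, haI.2]) (fun x hx => hd x (hsub (Set.Ioo_subset_Icc_self hx)))
    have hcT : c ∉ T := by
      intro h
      obtain ⟨_, t, ht, hct⟩ := h1 c h
      have h3 := s.le_max' t ht
      have h4 := hc.1
      linarith
    refine ⟨insert c T, ?_, ?_⟩
    · intro x hx
      rcases Finset.mem_insert.1 hx with rfl | hx
      · exact ⟨⟨hsub (Set.Ioo_subset_Icc_self hc), hc'⟩, a, Finset.mem_insert_self _ _, hc.2⟩
      · obtain ⟨h3, t, ht, hxt⟩ := h1 x hx
        exact ⟨h3, t, Finset.mem_insert_of_mem ht, hxt⟩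
    · rw [Finset.card_insert_of_notMem hcT, Finset.card_insert_of_notMem fun h => lt_irrefl a (ha a h)]
      omega

theorem polya (k : ℕ) : ∀ f : ℕ → ℝ → ℝ, (∀ i, Sm (f i)) → ∀ I : Set ℝ, I.OrdConnected →
    (∀ j ≤ k, ∀ x ∈ I, Wr j f x ≠ 0) → ∀ c : ℕ → ℝ, (∃ i < k, c i ≠ 0) → ∀ S : Finset ℝ,
    (∀ x ∈ S, x ∈ I ∧ ∑ i ∈ Finset.range k, c i * f i x = 0) → S.card + 1 ≤ k := by
  induction k with
  | zero =>
    intro f _ I _ _ c hc
    obtain ⟨i, hi, _⟩ := hc
    omega
  | succ k ih =>
    intro f hf I hI hW c hc S hS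
    have hu : ∀ x ∈ I, f 0 x ≠ 0 := by
      intro x hx
      rw [← wr_one f x]
      exact hW 1 (by omega) x hx
    by_cases hc1 : ∃ i < k, c (i + 1) ≠ 0
    · have hdiff : ∀ i x, HasDerivAt (f i) (deriv (f i) x) x := fun i x =>
        ((contDiff_infty_iff_deriv.1 (hf i)).1 x).hasDerivAt
      have hd : ∀ x ∈ I, HasDerivAt (fun x => (∑ i ∈ Finset.range (k + 1), c i * f i x) / f 0 x)
          ((∑ i ∈ Finset.range k, c (i + 1) * red f i x) / f 0 x ^ 2) x := by
        intro x hx
        have h1 : HasDerivAt (fun x => ∑ i ∈ Finset.range (k + 1), c i * f i x)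
            (∑ i ∈ Finset.range (k + 1), c i * deriv (f i) x) x :=
          HasDerivAt.fun_sum fun i _ => (hdiff i x).const_mul (c i)
        have h2 := h1.div (hdiff 0 x) (hu x hx)
        have h3 : (∑ i ∈ Finset.range (k + 1), c i * deriv (f i) x) * f 0 x -
            (∑ i ∈ Finset.range (k + 1), c i * f i x) * deriv (f 0) x =
            ∑ i ∈ Finset.range k, c (i + 1) * red f i x := by
          rw [Finset.sum_mul, Finset.sum_mul, ← Finset.sum_sub_distrib, Finset.sum_range_succ']
          have h4 : c 0 * deriv (f 0) x * f 0 x - c 0 * f 0 x * deriv (f 0) x = 0 := by ring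
          rw [h4, add_zero]
          refine Finset.sum_congr rfl fun i _ => ?_
          unfold red
          ring
        rw [h3] at h2
        exact h2
      obtain ⟨T, hT1, hT2⟩ := rolle_card hI hd S fun x hx => ⟨(hS x hx).1, by
        simp only [(hS x hx).2, zero_div]⟩
      have hk := ih (red f) (sm_red hf) I hI
        (fun j hj x hx => red_ne j hf x (hu x hx) (hW (j + 1) (by omega) x hx))
        (fun i => c (i + 1)) hc1 T fun x hx => ⟨(hT1 x hx).1, by
          have h1 := (hT1 x hx).2
          rcases div_eq_zero_iff.1 h1 with h2 | h2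
          · exact h2
          · exact absurd h2 (pow_ne_zero 2 (hu x (hT1 x hx).1))⟩
      omega
    · push Not at hc1
      have hc0 : c 0 ≠ 0 := by
        obtain ⟨i, hi, hci⟩ := hc
        rcases Nat.eq_zero_or_pos i with rfl | h
        · exact hci
        · exact absurd (hc1 (i - 1) (by omega)) (by rwa [Nat.sub_add_cancel h])
      have hS0 : S = ∅ := by
        refine Finset.eq_empty_of_forall_notMem fun x hx => ?_
        have h1 := (hS x hx).2
        rw [Finset.sum_range_succ', Finset.sum_eq_zero fun i hi => by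
          rw [hc1 i (Finset.mem_range.1 hi), zero_mul], zero_add] at h1
        exact mul_ne_zero hc0 (hu x (hS x hx).1) h1
      rw [hS0, Finset.card_empty]
      omega

private theorem Polya_mono (Y : Finset ℝ) {a b : ℝ} (h : a ≤ b) :
    (Y.filter (· < a)).card ≤ (Y.filter (· < b)).card := by
  refine Finset.card_le_card fun y hy => ?_
  rw [Finset.mem_filter] at hy ⊢
  exact ⟨hy.1, hy.2.trans_le h⟩

private theorem Polya_ord (Y : Finset ℝ) (j : ℕ) :
    {x : ℝ | x ∉ Y ∧ (Y.filter (· < x)).card = j}.OrdConnected := by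
  refine ⟨fun a ha b hb x hx => ?_⟩
  have h1 := Polya_mono Y hx.1
  have h2 := Polya_mono Y hx.2
  have ha2 := ha.2
  have hb2 := hb.2
  refine ⟨fun hxY => ?_, by omega⟩
  have hxb : x < b := lt_of_le_of_ne hx.2 fun h => hb.1 (h ▸ hxY)
  have h3 : (Y.filter (· < x)).card < (Y.filter (· < b)).card := by
    refine Finset.card_lt_card ⟨fun y hy => ?_, fun hsub => ?_⟩
    · rw [Finset.mem_filter] at hy ⊢
      exact ⟨hy.1, hy.2.trans hxb⟩
    · have h4 := hsub (Finset.mem_filter.2 ⟨hxY, hxb⟩)
      exact lt_irrefl _ (Finset.mem_filter.1 h4).2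
  omega

theorem polya_total (k : ℕ) {f : ℕ → ℝ → ℝ} (hf : ∀ i, Sm (f i)) (Y : Finset ℝ)
    (hY : ∀ x, x ∉ Y → ∀ j ≤ k, Wr j f x ≠ 0) (c : ℕ → ℝ) (hc : ∃ i < k, c i ≠ 0)
    (S : Finset ℝ) (hS : ∀ x ∈ S, ∑ i ∈ Finset.range k, c i * f i x = 0) :
    S.card ≤ (Y.card + 1) * k := by
  have hk : 1 ≤ k := by
    obtain ⟨i, hi, _⟩ := hc
    omega
  have h1 : (S \ Y).card ≤ (k - 1) * (Finset.range (Y.card + 1)).card := by
    refine Finset.card_le_mul_card_image_of_maps_to
      (f := fun x => (Y.filter (· < x)).card) (fun x _ => ?_) (k - 1) fun j _ => ?_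
    · exact Finset.mem_range.2 (Nat.lt_succ_of_le (Finset.card_filter_le _ _))
    · have h2 := polya k f hf _ (Polya_ord Y j) (fun i hi x hx => hY x hx.1 i hi) c hc
        ((S \ Y).filter fun x => (Y.filter (· < x)).card = j) fun x hx => by
          rw [Finset.mem_filter, Finset.mem_sdiff] at hx
          exact ⟨⟨hx.1.2, hx.2⟩, hS x hx.1.1⟩
      omega
  have h2 : S.card ≤ (S \ Y).card + Y.card := by
    have h3 := Finset.card_le_card (show S ⊆ (S \ Y) ∪ Y by
      intro x hx
      by_cases h : x ∈ Y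
      · exact Finset.mem_union_right _ h
      · exact Finset.mem_union_left _ (Finset.mem_sdiff.2 ⟨hx, h⟩))
    exact h3.trans (Finset.card_union_le _ _)
  rw [Finset.card_range] at h1
  obtain ⟨m, rfl⟩ : ∃ m, k = m + 1 := ⟨k - 1, by omega⟩
  simp only [Nat.add_sub_cancel] at h1
  nlinarith

end Pool.Agent.TI
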