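import Mathlib

/-!
# Module Wr: Wronskians and the reduction step

`Wr n f` is the Wronskian of `f 0, ..., f (n - 1)`; `red f i = f 0 * (f (i + 1))' - f (i + 1) *
(f 0)'`.

`lin_iter`: induction on `r`: with `m' 0 = (m 0)'` and `m' (s + 1) = (m (s + 1))' + m s`.

`wr_red`: at the point `x` let `F` be the matrix `f_i^(s) (x)` (`i, s ≤ k`) and let `M` be the
matrix with first column `e_0` and with column `r + 1` given by the coefficients `m_{r, s} (x)`
(`s ≤ k`) of `lin_iter` for `u = f 0`. `M` is upper triangular with diagonal `1, u, ..., u`, so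
`det M = u ^ k`. The matrix `F * M` has the rows `(f_i, g_i, g_i', ...)` where
`g_i = u f_i' - f_i u'`; its row `0` is `(u, 0, ..., 0)` since `g_0 = 0`, and the rest is the matrix
of `Wr k (red f)`. Hence `det F * u ^ k = u * Wr k (red f)`.
-/

namespace Pool.Agent.TI

open scoped ContDiff

/-- Smooth functions. -/
def Sm (f : ℝ → ℝ) : Prop := ContDiff ℝ ∞ f

/-- The Wronskian of the first `n` functions. -/
noncomputable def Wr (n : ℕ) (f : ℕ → ℝ → ℝ) (x : ℝ) : ℝ :=
  Matrix.det (Matrix.of fun i j : Fin n => iteratedDeriv j (f i) x)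

/-- The reduced functions. -/
noncomputable def red (f : ℕ → ℝ → ℝ) (i : ℕ) (y : ℝ) : ℝ :=
  f 0 y * deriv (f (i + 1)) y - f (i + 1) y * deriv (f 0) y

theorem sm_deriv {f : ℝ → ℝ} (h : Sm f) : Sm (deriv f) :=
  (contDiff_infty_iff_deriv.1 h).2

theorem sm_red {f : ℕ → ℝ → ℝ} (hf : ∀ i, Sm (f i)) (i : ℕ) : Sm (red f i) :=
  ((hf 0).mul (sm_deriv (hf (i + 1)))).sub ((hf (i + 1)).mul (sm_deriv (hf 0)))

theorem wr_zero (f : ℕ → ℝ → ℝ) (x : ℝ) : Wr 0 f x = 1 := by
  unfold Wr
  exact Matrix.det_isEmpty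

theorem wr_one (f : ℕ → ℝ → ℝ) (x : ℝ) : Wr 1 f x = f 0 x := by
  unfold Wr
  rw [Matrix.det_unique]
  simp

private theorem Wr_diff {f : ℝ → ℝ} (h : Sm f) : Differentiable ℝ f :=
  (contDiff_infty_iff_deriv.1 h).1

private theorem Wr_smIter {f : ℝ → ℝ} (h : Sm f) (s : ℕ) : Sm (iteratedDeriv s f) := by
  induction s with
  | zero => rw [iteratedDeriv_zero]; exact h
  | succ s ih => rw [iteratedDeriv_succ]; exact sm_deriv ih

/-- the coefficients after one more differentiation -/
private noncomputable def Wr_next (m : ℕ → ℝ → ℝ) : ℕ → ℝ → ℝ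
  | 0 => deriv (m 0)
  | s + 1 => fun y => deriv (m (s + 1)) y + m s y

private theorem Wr_next_sum (m : ℕ → ℝ → ℝ) (F : ℕ → ℝ) (x : ℝ) (r : ℕ) (h : m (r + 2) = 0) :
    ∑ s ∈ Finset.range (r + 3), Wr_next m s x * F s =
      ∑ s ∈ Finset.range (r + 2), (deriv (m s) x * F s + m s x * F (s + 1)) := by
  rw [Finset.sum_range_succ', Finset.sum_add_distrib]
  have h1 : ∀ s, Wr_next m (s + 1) x * F (s + 1) =
      deriv (m (s + 1)) x * F (s + 1) + m s x * F (s + 1) := fun s => by
    change (deriv (m (s + 1)) x + m s x) * F (s + 1) = _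
    ring
  rw [Finset.sum_congr rfl fun s _ => h1 s, Finset.sum_add_distrib]
  have h2 : Wr_next m 0 x = deriv (m 0) x := rfl
  have h3 : ∑ s ∈ Finset.range (r + 2), deriv (m (s + 1)) x * F (s + 1) + deriv (m 0) x * F 0 =
      ∑ s ∈ Finset.range (r + 2), deriv (m s) x * F s := by
    rw [← Finset.sum_range_succ' (fun s => deriv (m s) x * F s), Finset.sum_range_succ]
    have h4 : deriv (m (r + 2)) x = 0 := by
      rw [h]
      exact congrFun (deriv_zero) x
    rw [h4, zero_mul, add_zero]
  rw [h2, ← h3]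
  ring

theorem lin_iter {u : ℝ → ℝ} (hu : Sm u) (r : ℕ) :
    ∃ m : ℕ → ℝ → ℝ, (∀ s, Sm (m s)) ∧ m (r + 1) = u ∧ (∀ s, r + 1 < s → m s = 0) ∧
      ∀ f, Sm f → ∀ x, iteratedDeriv r (fun y => u y * deriv f y - f y * deriv u y) x =
        ∑ s ∈ Finset.range (r + 2), m s x * iteratedDeriv s f x := by
  induction r with
  | zero =>
    refine ⟨fun s => if s = 0 then fun y => -deriv u y else if s = 1 then u else 0, ?_, ?_, ?_, ?_⟩
    · intro s
      by_cases h0 : s = 0
      · simp only [h0, if_true]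
        exact (sm_deriv hu).neg
      · by_cases h1 : s = 1
        · simp only [h1, if_true, one_ne_zero, if_false]
          exact hu
        · simp only [h0, h1, if_false]
          exact contDiff_const
    · simp
    · intro s hs
      have h0 : s ≠ 0 := by omega
      have h1 : s ≠ 1 := by omega
      simp only [h0, h1, if_false]
    · intro f hf x
      simp only [iteratedDeriv_zero, Finset.sum_range_succ, Finset.sum_range_zero, zero_add,
        if_true, one_ne_zero, if_false, iteratedDeriv_one]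
      ring
  | succ r ih =>
    obtain ⟨m, hm, hm1, hm2, hm3⟩ := ih
    refine ⟨Wr_next m, ?_, ?_, ?_, ?_⟩
    · intro s
      cases s with
      | zero => exact sm_deriv (hm 0)
      | succ s => exact (sm_deriv (hm (s + 1))).add (hm s)
    · funext y
      change deriv (m (r + 1 + 1)) y + m (r + 1) y = u y
      rw [hm2 (r + 1 + 1) (by omega), hm1]
      have h4 : deriv (0 : ℝ → ℝ) y = 0 := congrFun (deriv_zero) y
      rw [h4, zero_add]
    · intro s hs
      obtain ⟨t, rfl⟩ : ∃ t, s = t + 1 := ⟨s - 1, by omega⟩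
      funext y
      change deriv (m (t + 1)) y + m t y = 0
      rw [hm2 (t + 1) (by omega), hm2 t (by omega)]
      have h4 : deriv (0 : ℝ → ℝ) y = 0 := congrFun (deriv_zero) y
      rw [h4, Pi.zero_apply, zero_add]
    · intro f hf x
      have h1 : iteratedDeriv r (fun y => u y * deriv f y - f y * deriv u y) =
          fun x => ∑ s ∈ Finset.range (r + 2), m s x * iteratedDeriv s f x :=
        funext fun x => hm3 f hf x
      rw [iteratedDeriv_succ, h1, Wr_next_sum m (fun s => iteratedDeriv s f x) x r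
        (hm2 (r + 2) (by omega))]
      have h2 : ∀ s ∈ Finset.range (r + 2), HasDerivAt (fun x => m s x * iteratedDeriv s f x)
          (deriv (m s) x * iteratedDeriv s f x + m s x * iteratedDeriv (s + 1) f x) x := by
        intro s _
        rw [iteratedDeriv_succ]
        exact ((Wr_diff (hm s)) x).hasDerivAt.mul ((Wr_diff (Wr_smIter hf s)) x).hasDerivAt
      exact (HasDerivAt.fun_sum h2).deriv

theorem wr_red (k : ℕ) {f : ℕ → ℝ → ℝ} (hf : ∀ i, Sm (f i)) (x : ℝ) :
    Wr (k + 1) f x * f 0 x ^ k = f 0 x * Wr k (red f) x := by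
  choose m _ hm1 hm2 hm3 using fun r => lin_iter (hf 0) r
  let F : Matrix (Fin (k + 1)) (Fin (k + 1)) ℝ := Matrix.of fun i j => iteratedDeriv j (f i) x
  let M : Matrix (Fin (k + 1)) (Fin (k + 1)) ℝ := Matrix.of fun s c =>
    Fin.cases (if s = 0 then (1 : ℝ) else 0) (fun r : Fin k => m r s x) c
  have hM0 : ∀ s, M s 0 = if s = 0 then (1 : ℝ) else 0 := fun s => rfl
  have hMs : ∀ s (r : Fin k), M s r.succ = m r s x := fun s r => rfl
  have hMtri : M.BlockTriangular id := by
    intro s c hsc
    simp only [id] at hsc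
    induction c using Fin.cases with
    | zero =>
      rw [hM0, if_neg]
      exact fun h => absurd (h ▸ hsc) (lt_irrefl _)
    | succ r =>
      rw [hMs, hm2 r s (by
        have h1 : (r.succ : Fin (k + 1)) < s := hsc
        have h2 : (r.succ : Fin (k + 1)).val < s.val := h1
        simpa using h2)]
      rfl
  have hMdet : M.det = f 0 x ^ k := by
    rw [Matrix.det_of_upperTriangular hMtri, Fin.prod_univ_succ]
    have h1 : ∀ r : Fin k, M r.succ r.succ = f 0 x := by
      intro r
      rw [hMs]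
      have h2 : m (r : ℕ) ((r.succ : Fin (k + 1)) : ℕ) = f 0 := by
        rw [Fin.val_succ]
        exact hm1 r
      rw [h2]
    rw [Finset.prod_congr rfl fun r _ => h1 r, hM0, if_pos rfl, one_mul, Finset.prod_const,
      Finset.card_univ, Fintype.card_fin]
  have hg : ∀ i : ℕ, ∀ r : Fin k, ∑ s : Fin (k + 1), iteratedDeriv s (f i) x * m r s x =
      iteratedDeriv r (fun y => f 0 y * deriv (f i) y - f i y * deriv (f 0) y) x := by
    intro i r
    rw [hm3 r (f i) (hf i) x, Fin.sum_univ_eq_sum_range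
      (fun s => iteratedDeriv s (f i) x * m r s x) (k + 1)]
    have h1 : r.val + 2 ≤ k + 1 := by omega
    rw [← Finset.sum_subset (Finset.range_mono h1)]
    · exact Finset.sum_congr rfl fun s _ => mul_comm _ _
    · intro s _ hs
      rw [Finset.mem_range, not_lt] at hs
      rw [hm2 r s (by omega), Pi.zero_apply, mul_zero]
  have hFM0 : ∀ i, (F * M) i 0 = f i x := by
    intro i
    rw [Matrix.mul_apply, Finset.sum_eq_single 0]
    · rw [hM0, if_pos rfl, mul_one]
      change iteratedDeriv ((0 : Fin (k + 1)) : ℕ) (f i) x = f i x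
      rw [Fin.val_zero, iteratedDeriv_zero]
    · intro s _ hs
      rw [hM0, if_neg hs, mul_zero]
    · intro h
      exact absurd (Finset.mem_univ _) h
  have hFMs : ∀ i (r : Fin k), (F * M) i r.succ =
      iteratedDeriv r (fun y => f 0 y * deriv (f i) y - f i y * deriv (f 0) y) x := by
    intro i r
    rw [Matrix.mul_apply, ← hg]
    rfl
  have hz : ∀ r : Fin k, (F * M) 0 r.succ = 0 := by
    intro r
    rw [hFMs]
    have h1 : (fun y => f 0 y * deriv (f ((0 : Fin (k + 1)) : ℕ)) y -
        f ((0 : Fin (k + 1)) : ℕ) y * deriv (f 0) y) = fun _ => (0 : ℝ) := by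
      funext y
      rw [Fin.val_zero, sub_self]
    rw [h1]
    have h2 : ∀ n : ℕ, iteratedDeriv n (fun _ : ℝ => (0 : ℝ)) = fun _ => 0 := by
      intro n
      induction n with
      | zero => rw [iteratedDeriv_zero]
      | succ n ih => rw [iteratedDeriv_succ, ih]; exact deriv_const' 0
    rw [h2]
  have h1 : (F * M).det = f 0 x * Wr k (red f) x := by
    rw [Matrix.det_succ_row_zero, Fin.sum_univ_succ]
    have h2 : ∑ j : Fin k, (-1) ^ ((j.succ : Fin (k + 1)) : ℕ) * (F * M) 0 j.succ *
        ((F * M).submatrix Fin.succ (j.succ : Fin (k + 1)).succAbove).det = 0 := by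
      refine Finset.sum_eq_zero fun j _ => ?_
      rw [hz, mul_zero, zero_mul]
    rw [h2, add_zero, Fin.val_zero, pow_zero, one_mul, hFM0, Fin.val_zero]
    congr 1
    unfold Wr
    congr 1
    ext i r
    rw [Matrix.submatrix_apply, Fin.succAbove_zero, hFMs]
    rfl
  have h3 : F.det = Wr (k + 1) f x := rfl
  rw [← h3, ← hMdet, ← Matrix.det_mul, h1]

theorem red_ne (k : ℕ) {f : ℕ → ℝ → ℝ} (hf : ∀ i, Sm (f i)) (x : ℝ) (h0 : f 0 x ≠ 0)
    (h : Wr (k + 1) f x ≠ 0) : Wr k (red f) x ≠ 0 := by
  intro h1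
  have h2 := wr_red k hf x
  rw [h1, mul_zero] at h2
  exact mul_ne_zero h (pow_ne_zero k h0) h2

end Pool.Agent.TI
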