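import Pool.Agent.H.MP_b2d7dd_lc.TI.PPne
import Pool.Agent.H.MP_b2d7dd_lc.TI.Polya

/-!
# Module Zs: zeros of sums of exponentials of polynomials
-/

namespace Pool.Agent.TI

open Polynomial

/-- The bound for the number of zeros of a sum of `m` exponentials of polynomials of degree at
most `d`. -/
def Zb (m d : ℕ) : ℕ := m * (m ^ 3 * d + 1)

/-- `polya_total` with `Y` the set of the roots of `PP j h`, `j ≤ m`. -/
theorem zeros_seq (m : ℕ) {h : ℕ → ℝ[X]} {d : ℕ} (hd : ∀ i < m, (h i).natDegree ≤ d)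
    (hh : ∀ i < m, ∀ j < m, i ≠ j → derivative (h i) ≠ derivative (h j)) (c : ℕ → ℝ)
    (hc : ∃ i < m, c i ≠ 0) (S : Finset ℝ)
    (hS : ∀ x ∈ S, ∑ i ∈ Finset.range m, c i * Real.exp ((h i).eval x) = 0) :
    S.card ≤ Zb m d := by
  classical
  set Y : Finset ℝ := (Finset.Icc 1 m).biUnion fun j => (PP j h).roots.toFinset with hYdef
  have hne : ∀ j ≤ m, PP j h ≠ 0 := fun j hj =>
    PP_ne j fun i hi k hk hik => hh i (lt_of_lt_of_le hi hj) k (lt_of_lt_of_le hk hj) hik
  have hdeg : ∀ j ∈ Finset.Icc 1 m, ((PP j h).roots.toFinset).card ≤ m ^ 2 * d := by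
    intro j hj
    rw [Finset.mem_Icc] at hj
    refine (Multiset.toFinset_card_le _).trans ((Polynomial.card_roots' _).trans ?_)
    refine (deg_PP j (d := d) fun i hi => hd i (lt_of_lt_of_le hi hj.2)).trans ?_
    calc j * (j * d) ≤ m * (m * d) := by
          exact Nat.mul_le_mul hj.2 (Nat.mul_le_mul_right d hj.2)
      _ = m ^ 2 * d := by ring
  have hYcard : Y.card ≤ m ^ 3 * d := by
    refine (Finset.card_biUnion_le_card_mul _ _ (m ^ 2 * d) hdeg).trans ?_
    rw [Nat.card_Icc]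
    simp only [Nat.add_sub_cancel]
    exact le_of_eq (by ring)
  have hWr : ∀ x, x ∉ Y → ∀ j ≤ m, Wr j (fun i y => Real.exp ((h i).eval y)) x ≠ 0 := by
    intro x hx j hj
    rw [wr_exp]
    refine mul_ne_zero ?_ (Finset.prod_ne_zero_iff.2 fun i _ => (Real.exp_pos _).ne')
    intro h0
    rcases Nat.eq_zero_or_pos j with rfl | hj0
    · simp [PP] at h0
    · apply hx
      rw [hYdef, Finset.mem_biUnion]
      refine ⟨j, Finset.mem_Icc.2 ⟨hj0, hj⟩, ?_⟩
      rw [Multiset.mem_toFinset, Polynomial.mem_roots (hne j hj)]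
      exact h0
  have := polya_total m (f := fun i y => Real.exp ((h i).eval y)) (fun i => sm_exp (h i)) Y hWr c hc
    S hS
  refine this.trans ?_
  unfold Zb
  rw [Nat.mul_comm m]
  exact Nat.mul_le_mul_right m (Nat.succ_le_succ hYcard)

theorem Zb_mono {m m' d d' : ℕ} (hm : m ≤ m') (hd : d ≤ d') : Zb m d ≤ Zb m' d' := by
  unfold Zb
  gcongr

/-- The sum of exponentials given by a list of coefficients and exponents. -/
noncomputable def esum (l : List (ℝ × ℝ[X])) (y : ℝ) : ℝ :=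
  (l.map fun q => q.1 * Real.exp (q.2.eval y)).sum

end Pool.Agent.TI
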